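import Mathlib

/-!
# Definitions of the statement of the strong comparison principle
-/

set_option autoImplicit false

open Set MeasureTheory Filter Topology Asymptotics

namespace Pool.Agent.SCP.Statement

/-- The Euclidean space `ℝⁿ`. -/
abbrev R (n : ℕ) : Type := EuclideanSpace ℝ (Fin n)

variable {n : ℕ}

/-- The gradient of `u` at `x`. -/
noncomputable def grad (u : R n → ℝ) (x : R n) : R n := gradient u x

/-- `u` is `p`-harmonic in `Ω`: a `C¹` weak solution of the `p`-Laplace equation. -/
def PHarmonic (p : ℝ) (Ω : Set (R n)) (u : R n → ℝ) : Prop :=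
  ContDiffOn ℝ 1 u Ω ∧ ∀ φ : R n → ℝ, ContDiff ℝ (⊤ : ℕ∞) φ → HasCompactSupport φ →
    tsupport φ ⊆ Ω → ∫ x, ‖grad u x‖ ^ (p - 2) * (fderiv ℝ φ x (grad u x)) = 0

/-- The second derivative of `u` at `x`, applied to the vector `h`. -/
noncomputable def hess (u : R n → ℝ) (x h : R n) : R n := fderiv ℝ (grad u) x h

/-- `f` and `g` are `C²` at `x₀` and vanish there, and their gradients at `x₀` are orthonormal. So
`f = g = 0` is a submanifold of codimension two near `x₀`. -/
def Defining (f g : R n → ℝ) (x₀ : R n) : Prop :=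
  ContDiffAt ℝ 2 f x₀ ∧ ContDiffAt ℝ 2 g x₀ ∧ f x₀ = 0 ∧ g x₀ = 0 ∧ ‖grad f x₀‖ = 1 ∧
    ‖grad g x₀‖ = 1 ∧ inner ℝ (grad f x₀) (grad g x₀) = 0

/-- The complement of the submanifold. -/
def off (f g : R n → ℝ) : Set (R n) := {x | f x ≠ 0 ∨ g x ≠ 0}

/-- The vector from the submanifold to `x`, up to a smaller error. -/
noncomputable def normal (f g : R n → ℝ) (x₀ x : R n) : R n :=
  f x • grad f x₀ + g x • grad g x₀

/-- As `x → x₀` off the submanifold, the gradient of `u` is asymptotically homogeneous of degree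
`k - 1` in the normal direction. -/
def Radial (k : ℝ) (u f g : R n → ℝ) (x₀ : R n) : Prop :=
  (fun x => hess u x (normal f g x₀ x) - (k - 1) • grad u x) =o[𝓝[off f g] x₀] grad u

/-- As `x → x₀` off the submanifold, the derivative of the gradient in the directions tangential to
the submanifold at `x₀` is small in comparison with `‖∇u x‖ / ‖normal f g x₀ x‖`. -/
def Tangential (u f g : R n → ℝ) (x₀ : R n) : Prop :=
  ∀ s, inner ℝ s (grad f x₀) = 0 → inner ℝ s (grad g x₀) = 0 →
    (fun x => ‖normal f g x₀ x‖ • hess u x s) =o[𝓝[off f g] x₀] grad u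

/-- The point `x₀` is of conical type of codimension two and degree `k` for the function `u`; there
is no critical point near `x₀` off the submanifold `f = g = 0`. -/
structure ConicalPoint (p k : ℝ) (u f g : R n → ℝ) (x₀ : R n) : Prop where
  defining : Defining f g x₀
  one_lt : 1 < k
  range : 0 < (p - 1) + (k - 1) * (2 * p - 3)
  regular : ∀ᶠ x in 𝓝 x₀, x ∈ off f g → grad u x ≠ 0
  radial : Radial k u f g x₀
  tangential : Tangential u f g x₀

/-- `u` is `C²` off its critical points. -/
def SmoothOffCritical (Ω : Set (R n)) (u : R n → ℝ) : Prop :=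
  ∀ x ∈ Ω, grad u x ≠ 0 → ContDiffAt ℝ 2 u x

end Pool.Agent.SCP.Statement
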