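import Pool.Agent.SCP.Targets

/-!
# Integration by parts
-/

set_option autoImplicit false

open Set MeasureTheory Filter Topology Asymptotics Metric
open scoped RealInnerProductSpace

namespace Pool.Agent.SCP

namespace IBP_

variable {n : ℕ}

/-- the integral of a derivative of a compactly supported `C¹` function in a direction vanishes -/
theorem integral_dir (X : E n → ℝ) (hX : ContDiff ℝ 1 X) (hc : HasCompactSupport X) (v : E n) :
    Integrable (fun x => fderiv ℝ X x v) ∧ ∫ x, fderiv ℝ X x v = 0 := by
  have hd : Differentiable ℝ X := hX.differentiable (by norm_num)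
  have hcont : Continuous fun x => fderiv ℝ X x v := (hX.continuous_fderiv (by norm_num)).clm_apply continuous_const
  have hcs : HasCompactSupport fun x => fderiv ℝ X x v := hc.fderiv_apply (𝕜 := ℝ) v
  have hi := hcont.integrable_of_hasCompactSupport (μ := (volume : Measure (E n))) hcs
  refine ⟨hi, ?_⟩
  have h := integral_mul_fderiv_eq_neg_fderiv_mul_of_integrable (μ := (volume : Measure (E n)))
    (f := fun _ : E n => (1 : ℝ)) (g := X) (v := v) (by simp)
    (by simpa using hi)
    (by simpa using hX.continuous.integrable_of_hasCompactSupport hc)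
    (fun x _ => differentiableAt_const _) (fun x _ => hd x)
  simpa using h

end IBP_

theorem ibp : T_IBP := by
  intro n G W φ hG hW hφ hc hs
  have hWat : ∀ x ∈ G, ContDiffAt ℝ 1 W x := fun x hx => hW.contDiffAt (hG.mem_nhds hx)
  set b := EuclideanSpace.basisFun (Fin n) ℝ with hb
  set X : Fin n → E n → ℝ := fun i x => φ x * W x i with hXdef
  have hXs : ∀ i, tsupport (X i) ⊆ tsupport φ := fun i =>
    closure_mono (fun x hx => left_ne_zero_of_mul hx)
  have hX : ∀ i, ContDiff ℝ 1 (X i) := by
    intro i
    refine contDiff_iff_contDiffAt.2 fun x => ?_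
    by_cases hx : x ∈ tsupport φ
    · exact hφ.contDiffAt.mul ((contDiffAt_euclidean.1 (hWat x (hs hx))) i)
    · have h1 : X i =ᶠ[𝓝 x] 0 := by
        rw [notMem_tsupport_iff_eventuallyEq] at hx
        filter_upwards [hx] with y hy
        simp [hXdef, hy]
      exact contDiffAt_const.congr_of_eventuallyEq h1
  have hXc : ∀ i, HasCompactSupport (X i) := fun i => hc.mul_right
  -- the two integrands
  have hWd : ∀ x ∈ G, DifferentiableAt ℝ W x := fun x hx => (hWat x hx).differentiableAt (by norm_num)
  have e1 : ∀ x, ∑ i, fderiv ℝ (X i) x (b i) = fderiv ℝ φ x (W x) + φ x * dv W x := by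
    intro x
    by_cases hx : x ∈ tsupport φ
    · have hxG := hs hx
      have hd1 : HasFDerivAt φ (fderiv ℝ φ x) x := (hφ.differentiable (by norm_num) x).hasFDerivAt
      have hd2 : HasFDerivAt W (fderiv ℝ W x) x := (hWd x hxG).hasFDerivAt
      have h1 : ∀ i, fderiv ℝ (X i) x (b i) = fderiv ℝ φ x (b i) * W x i + φ x * (fderiv ℝ W x (b i)) i := by
        intro i
        have hd3 : HasFDerivAt (fun y => W y i) ((EuclideanSpace.proj i : E n →L[ℝ] ℝ).comp (fderiv ℝ W x)) x :=
          ((EuclideanSpace.proj i : E n →L[ℝ] ℝ).hasFDerivAt).comp x hd2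
        have hd4 : HasFDerivAt (X i) _ x := hd1.mul hd3
        rw [hd4.fderiv]
        simp
        ring
      simp only [h1]
      rw [Finset.sum_add_distrib, ← Finset.mul_sum]
      congr 1
      · have h2 : W x = ∑ i, W x i • b i := by
          conv_lhs => rw [← b.sum_repr (W x)]
          simp [hb]
        conv_rhs => rw [h2]
        rw [map_sum]
        refine Finset.sum_congr rfl fun i _ => ?_
        rw [map_smul, smul_eq_mul, mul_comm]
      · congr 1
        unfold dv
        rw [tr_eq_sum _ b]
        refine Finset.sum_congr rfl fun i _ => ?_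
        rw [hb]
        simp [EuclideanSpace.inner_single_left]
    · have h1 : φ x = 0 := image_eq_zero_of_notMem_tsupport hx
      have h2 : fderiv ℝ φ x = 0 := fderiv_of_notMem_tsupport ℝ hx
      have h3 : ∀ i, fderiv ℝ (X i) x = 0 := fun i =>
        fderiv_of_notMem_tsupport ℝ (fun h => hx (hXs i h))
      simp [h1, h2, h3]
  have c1 : Continuous fun x => fderiv ℝ φ x (W x) := by
    refine continuous_iff_continuousAt.2 fun x => ?_
    by_cases hx : x ∈ tsupport φ
    · exact ContinuousAt.clm_apply (hφ.continuous_fderiv (by norm_num)).continuousAt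
        (hWd x (hs hx)).continuousAt
    · have h1 : (fun x => fderiv ℝ φ x (W x)) =ᶠ[𝓝 x] fun _ => 0 := by
        rw [notMem_tsupport_iff_eventuallyEq] at hx
        filter_upwards [hx.fderiv (𝕜 := ℝ)] with y hy
        rw [hy]
        simp
      exact continuousAt_const.congr h1.symm
  have s1 : HasCompactSupport fun x => fderiv ℝ φ x (W x) := by
    refine HasCompactSupport.intro hc fun x hx => ?_
    rw [fderiv_of_notMem_tsupport ℝ hx]
    simp
  have i1 := c1.integrable_of_hasCompactSupport (μ := (volume : Measure (E n))) s1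
  have i2 : Integrable (fun x => φ x * dv W x) (volume : Measure (E n)) := by
    have h1 : (fun x => φ x * dv W x) = fun x => (∑ i, fderiv ℝ (X i) x (b i)) - fderiv ℝ φ x (W x) := by
      funext x
      rw [e1 x]
      ring
    rw [h1]
    exact (integrable_finsetSum _ fun i _ => (IBP_.integral_dir (X i) (hX i) (hXc i) (b i)).1).sub i1
  have h2 : ∫ x, (fderiv ℝ φ x (W x) + φ x * dv W x) = 0 := by
    simp only [← e1]
    rw [integral_finsetSum _ fun i _ => (IBP_.integral_dir (X i) (hX i) (hXc i) (b i)).1]
    exact Finset.sum_eq_zero fun i _ => (IBP_.integral_dir (X i) (hX i) (hXc i) (b i)).2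
  rw [integral_add i1 i2] at h2
  linarith

end Pool.Agent.SCP
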