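import Pool.Agent.SCP.Targets

/-!
# SCP-BARD: the derivatives of the barrier
-/

set_option autoImplicit false

open Set MeasureTheory Filter Topology Asymptotics Metric
open scoped RealInnerProductSpace

namespace Pool.Agent.SCP

namespace BARD_

variable {n : ℕ}

/-- the quadratic function in the barrier -/
noncomputable def et (x₂ ν : E n) (α β : ℝ) (y : E n) : ℝ :=
  ⟪y - x₂, ν⟫ + α * ⟪y - x₂, ν⟫ ^ 2 - β * ‖y - x₂‖ ^ 2

lemma et_smooth (x₂ ν : E n) (α β : ℝ) {m : WithTop ℕ∞} : ContDiff ℝ m (et x₂ ν α β) := by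
  unfold et
  have h1 : ContDiff ℝ m (fun y : E n => y - x₂) := contDiff_id.sub contDiff_const
  have h2 : ContDiff ℝ m (fun y : E n => ⟪y - x₂, ν⟫) := h1.inner ℝ contDiff_const
  have h3 : ContDiff ℝ m (fun y : E n => ‖y - x₂‖ ^ 2) := h1.norm_sq ℝ
  exact (h2.add (contDiff_const.mul (h2.pow 2))).sub (contDiff_const.mul h3)

lemma et_fderiv (x₂ ν : E n) (α β : ℝ) (y : E n) :
    HasFDerivAt (et x₂ ν α β) (InnerProductSpace.toDual ℝ (E n)
      ((1 + 2 * α * ⟪y - x₂, ν⟫) • ν - (2 * β) • (y - x₂))) y := by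
  have h1 : HasFDerivAt (fun y : E n => y - x₂) (ContinuousLinearMap.id ℝ (E n)) y :=
    (hasFDerivAt_id y).sub_const x₂
  have h2 := h1.inner ℝ (hasFDerivAt_const ν y)
  have h3 := h1.norm_sq
  have h4 := (h2.add ((h2.pow 2).const_mul α)).sub (h3.const_mul β)
  refine HasFDerivAt.congr_fderiv (f := et x₂ ν α β) h4 ?_
  ext w
  simp [real_inner_comm, inner_sub_left, fderivInnerCLM_apply]
  ring

lemma et_gradient (x₂ ν : E n) (α β : ℝ) (y : E n) :
    gradient (et x₂ ν α β) y = (1 + 2 * α * ⟪y - x₂, ν⟫) • ν - (2 * β) • (y - x₂) := by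
  rw [gradient_eq_symm, (et_fderiv x₂ ν α β y).fderiv, LinearIsometryEquiv.symm_apply_apply]

lemma et_hs (x₂ ν : E n) (α β : ℝ) (y : E n) :
    hs (et x₂ ν α β) y = (2 * α) • ten ν - (2 * β) • ContinuousLinearMap.id ℝ (E n) := by
  unfold hs
  have h0 : gradient (et x₂ ν α β) =
      fun y => (1 + 2 * α * ⟪y - x₂, ν⟫) • ν - (2 * β) • (y - x₂) := by
    funext y
    exact et_gradient x₂ ν α β y
  rw [h0]
  have h1 : HasFDerivAt (fun y : E n => y - x₂) (ContinuousLinearMap.id ℝ (E n)) y :=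
    (hasFDerivAt_id y).sub_const x₂
  have h2 := h1.inner ℝ (hasFDerivAt_const ν y)
  have h3 := (((h2.const_mul (2 * α)).const_add 1).smul_const ν).sub (h1.const_smul (2 * β))
  refine (HasFDerivAt.congr_fderiv (f := fun y : E n => (1 + 2 * α * ⟪y - x₂, ν⟫) • ν -
    (2 * β) • (y - x₂)) h3 ?_).fderiv
  ext1 w
  simp [ten_apply, real_inner_comm, fderivInnerCLM_apply, smul_smul]

lemma tr_sub (A B : E n →L[ℝ] E n) : tr (A - B) = tr A - tr B := by
  simp [tr]

end BARD_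

open BARD_ in
theorem bard : T_BARD := by
  intro n u x₂ ν x α β ε hu
  have he : bar u x₂ ν α β ε = fun y => u y + ε * et x₂ ν α β y := rfl
  have hs1 : ContDiffAt ℝ 2 (et x₂ ν α β) x := (et_smooth x₂ ν α β).contDiffAt
  have hs2 : ContDiffAt ℝ 2 (fun y => ε * et x₂ ν α β y) x := contDiffAt_const.mul hs1
  rw [he]
  refine ⟨hu.add hs2, ?_, ?_⟩
  · rw [gradient_add' (hu.differentiableAt (by norm_num)) (hs2.differentiableAt (by norm_num)),
      gradient_const_mul ε (hs1.differentiableAt (by norm_num)), et_gradient]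
  · rw [hs_add hu hs2, hs_const_mul ε hs1, et_hs]

open BARD_ in
theorem barc (hB : T_BARD) : T_BARC := by
  intro n p c x₂ hp ν hν β hβ
  set m : ℝ := min 1 (p - 1) with hm
  have hm0 : 0 < m := lt_min one_pos (by linarith)
  have hα0 : 0 < (β * (n + |p - 2|) + 1) / m := by positivity
  refine ⟨(β * (n + |p - 2|) + 1) / m, 1, 1, hα0, one_pos, one_pos, ?_⟩
  intro ε hε _ x _
  obtain ⟨b1, -, b3⟩ := hB n (fun _ => c) x₂ ν x ((β * (n + |p - 2|) + 1) / m) β ε
    contDiffAt_const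
  refine ⟨b1, fun ω Γ hω _ _ => ?_⟩
  set α : ℝ := (β * (n + |p - 2|) + 1) / m with hα
  have hz : hs (fun _ : E n => c) x = 0 := by
    unfold hs
    have : gradient (fun _ : E n => c) = fun _ => 0 := by
      funext y
      rw [gradient_eq_symm]
      simp
    rw [this]
    simp
  rw [b3, hz, zero_add, tr_smul]
  have e1 : tr ((2 * α) • ten ν - (2 * β) • ContinuousLinearMap.id ℝ (E n)) =
      2 * α - 2 * β * n := by
    rw [tr_sub, tr_smul, tr_smul, tr_ten, tr_id, hν]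
    ring
  have e2 : ⟪(ε • ((2 * α) • ten ν - (2 * β) • ContinuousLinearMap.id ℝ (E n))) ω, ω⟫ =
      ε * (2 * α * ⟪ν, ω⟫ ^ 2 - 2 * β) := by
    have e3 : (ε • ((2 * α) • ten ν - (2 * β) • ContinuousLinearMap.id ℝ (E n))) ω =
        ε • ((2 * α) • (⟪ν, ω⟫ • ν) - (2 * β) • ω) := by
      rw [← ten_apply]
      rfl
    rw [e3, real_inner_smul_left, inner_sub_left, real_inner_smul_left, real_inner_smul_left,
      real_inner_smul_left, real_inner_self_eq_norm_sq, hω]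
    ring
  rw [e1, e2]
  have ht0 : 0 ≤ ⟪ν, ω⟫ ^ 2 := sq_nonneg _
  have ht1 : ⟪ν, ω⟫ ^ 2 ≤ 1 := by
    have h1 := abs_real_inner_le_norm ν ω
    rw [hν, hω, mul_one] at h1
    rw [← sq_abs]
    nlinarith [abs_nonneg ⟪ν, ω⟫]
  set t : ℝ := ⟪ν, ω⟫ ^ 2 with ht
  have hmt : m ≤ 1 + (p - 2) * t := by
    rcases le_total 0 (p - 2) with h | h
    · have : 0 ≤ (p - 2) * t := mul_nonneg h ht0
      have := min_le_left (1 : ℝ) (p - 1)
      linarith
    · have : (p - 2) * 1 ≤ (p - 2) * t := mul_le_mul_of_nonpos_left ht1 h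
      have := min_le_right (1 : ℝ) (p - 1)
      linarith
  have hαm : α * m = β * (n + |p - 2|) + 1 := by
    rw [hα]
    field_simp
  have h1 : α * m ≤ α * (1 + (p - 2) * t) := mul_le_mul_of_nonneg_left hmt hα0.le
  have h2 : β * (p - 2) ≤ β * |p - 2| := mul_le_mul_of_nonneg_left (le_abs_self _) hβ.le
  have h3 : 0 < 2 * α * (1 + (p - 2) * t) - 2 * β * (n + (p - 2)) := by nlinarith
  have h4 : ε * (2 * α - 2 * β * n) + (p - 2) * (ε * (2 * α * t - 2 * β)) =
      ε * (2 * α * (1 + (p - 2) * t) - 2 * β * (n + (p - 2))) := by ring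
  rw [h4]
  exact mul_pos hε h3

end Pool.Agent.SCP
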