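import Pool.Agent.SCP.Targets

/-!
# BARU: barriers at noncritical points of a solution
-/

set_option autoImplicit false

open Set MeasureTheory Filter Topology Asymptotics Metric
open scoped RealInnerProductSpace

namespace Pool.Agent.SCP

namespace BARU_

variable {n : ℕ}

/-- the perturbed expression -/
lemma expand (q b : ℝ) (g η : E n) (A B : E n →L[ℝ] E n)
    (hA : ∀ a c : E n, ⟪A a, c⟫ = ⟪a, A c⟫) :
    ‖g + b • η‖ ^ 2 * tr (A + b • B) + q * ⟪(A + b • B) (g + b • η), g + b • η⟫ =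
      (‖g‖ ^ 2 * tr A + q * ⟪A g, g⟫) + b * brk q b g η A B := by
  have h1 : ‖g + b • η‖ ^ 2 = ‖g‖ ^ 2 + 2 * b * ⟪g, η⟫ + b ^ 2 * ‖η‖ ^ 2 := by
    rw [norm_add_sq_real, norm_smul, inner_smul_right, mul_pow, Real.norm_eq_abs, sq_abs]
    ring
  have h2 : ⟪A (g + b • η), g + b • η⟫ = ⟪A g, g⟫ + 2 * b * ⟪A g, η⟫ + b ^ 2 * ⟪A η, η⟫ := by
    have h3 : ⟪A η, g⟫ = ⟪A g, η⟫ := by rw [hA η g, real_inner_comm]
    rw [map_add, map_smul, inner_add_left, inner_add_right, inner_add_right, inner_smul_left,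
      inner_smul_right, inner_smul_left, inner_smul_right, h3]
    simp only [conj_trivial]
    ring
  have h4 : ⟪(A + b • B) (g + b • η), g + b • η⟫ =
      ⟪A (g + b • η), g + b • η⟫ + b * ⟪B (g + b • η), g + b • η⟫ := by
    rw [_root_.add_apply, _root_.smul_apply, inner_add_left, inner_smul_left]
    simp only [conj_trivial]
  rw [h4, h2, tr_add, tr_smul]
  unfold brk
  have h5 : ‖g + b • η‖ ^ 2 * (tr A + b * tr B) =
      (‖g‖ ^ 2 + 2 * b * ⟪g, η⟫ + b ^ 2 * ‖η‖ ^ 2) * tr A + b * (‖g + b • η‖ ^ 2 * tr B) := by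
    rw [mul_add, h1]
    ring
  rw [h5]
  ring

/-- the perturbed expression is positive: the barrier is a strict subsolution -/
lemma strict_of {p b : ℝ} {H : E n → ℝ} {x g η : E n} {A B : E n →L[ℝ] E n}
    (hH : ContDiffAt ℝ 2 H x) (hg : gradient H x = g + b • η) (hh : hs H x = A + b • B)
    (hA : ∀ a c : E n, ⟪A a, c⟫ = ⟪a, A c⟫) (h0 : ‖g‖ ^ 2 * tr A + (p - 2) * ⟪A g, g⟫ = 0)
    (hb : 0 < b) (hG : g + b • η ≠ 0) (hk : 0 < brk (p - 2) b g η A B) : Strict p H x := by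
  refine ⟨hH, fun ω Γ hω hΓ hGω => ?_⟩
  have h1 := expand (p - 2) b g η A B hA
  rw [h0, zero_add, ← hg, ← hh, hGω] at h1
  rw [← hg, hGω] at hG
  have hΓ' : 0 < Γ := by
    rcases hΓ.eq_or_lt with h | h
    · exact absurd (by rw [← h, zero_smul]) hG
    · exact h
  have h2 : ‖Γ • ω‖ ^ 2 = Γ ^ 2 := by
    rw [norm_smul, hω, mul_one, Real.norm_eq_abs, sq_abs]
  have h3 : ⟪hs H x (Γ • ω), Γ • ω⟫ = Γ ^ 2 * ⟪hs H x ω, ω⟫ := by
    rw [map_smul, inner_smul_left, inner_smul_right]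
    simp only [conj_trivial]
    ring
  rw [h2, h3] at h1
  have h4 : Γ ^ 2 * (tr (hs H x) + (p - 2) * ⟪hs H x ω, ω⟫) =
      b * brk (p - 2) b g η A B := by
    rw [← h1]
    ring
  have h5 : 0 < Γ ^ 2 * (tr (hs H x) + (p - 2) * ⟪hs H x ω, ω⟫) := by
    rw [h4]
    exact mul_pos hb hk
  exact pos_of_mul_pos_right h5 (sq_nonneg _)

lemma cont_tr {X : Type} [TopologicalSpace X] {f : X → (E n →L[ℝ] E n)} {z : X}
    (hf : ContinuousAt f z) : ContinuousAt (fun x => tr (f x)) z :=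
  continuous_tr.continuousAt.comp hf

lemma cont_brk {X : Type} [TopologicalSpace X] {q : ℝ} {b : X → ℝ} {g η : X → E n}
    {A : X → (E n →L[ℝ] E n)} (B : E n →L[ℝ] E n) {z : X} (hb : ContinuousAt b z)
    (hg : ContinuousAt g z) (hη : ContinuousAt η z) (hA : ContinuousAt A z) :
    ContinuousAt (fun x => brk q (b x) (g x) (η x) (A x) B) z := by
  unfold brk
  have hG : ContinuousAt (fun x => g x + b x • η x) z := hg.add (hb.smul hη)
  have hBG : ContinuousAt (fun x => B (g x + b x • η x)) z := B.continuous.continuousAt.comp hG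
  have hAt := cont_tr hA
  refine ((((continuousAt_const.mul (hg.inner hη)).mul hAt).add
    ((hb.mul (hη.norm.pow 2)).mul hAt)).add ((hG.norm.pow 2).mul continuousAt_const)).add
    (continuousAt_const.mul (((continuousAt_const.mul ((hA.clm_apply hg).inner hη)).add
    (hb.mul ((hA.clm_apply hη).inner hη))).add (hBG.inner hG)))

lemma coer {p : ℝ} (g ν : E n) (hν : ‖ν‖ = 1) :
    min 1 (p - 1) * ‖g‖ ^ 2 ≤ ‖g‖ ^ 2 + (p - 2) * ⟪ν, g⟫ ^ 2 := by
  have h1 : ⟪ν, g⟫ ^ 2 ≤ ‖g‖ ^ 2 := by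
    have h2 := abs_real_inner_le_norm ν g
    rw [hν, one_mul] at h2
    exact sq_le_sq' (by linarith [(abs_le.mp h2).1]) ((abs_le.mp h2).2)
  have h3 := sq_nonneg ⟪ν, g⟫
  rcases le_total 0 (p - 2) with h | h
  · have : min 1 (p - 1) * ‖g‖ ^ 2 ≤ 1 * ‖g‖ ^ 2 :=
      mul_le_mul_of_nonneg_right (min_le_left _ _) (sq_nonneg _)
    nlinarith [mul_nonneg h h3]
  · have : min 1 (p - 1) * ‖g‖ ^ 2 ≤ (p - 1) * ‖g‖ ^ 2 :=
      mul_le_mul_of_nonneg_right (min_le_right _ _) (sq_nonneg _)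
    nlinarith [mul_nonneg (sub_nonneg.mpr h1) (sub_nonneg.mpr h)]

end BARU_

open BARU_ in
theorem baru (hD : T_BARD) : T_BARU := by
  intro n p u x₂ hp hu hg0 hE ν hν β hβ
  set g₀ := gradient u x₂ with hg₀
  set A₀ := hs u x₂ with hA₀
  set m := min 1 (p - 1) * ‖g₀‖ ^ 2 with hm
  have hm0 : 0 < m := by
    have h1 : 0 < min 1 (p - 1) := lt_min one_pos (by linarith)
    have h2 : 0 < ‖g₀‖ := norm_pos_iff.mpr hg0
    positivity
  set R := 2 * ⟪g₀, ν⟫ * tr A₀ + 2 * (p - 2) * ⟪A₀ g₀, ν⟫ -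
    2 * β * (n + (p - 2)) * ‖g₀‖ ^ 2 with hR
  set α := (|R| + 1) / (2 * m) with hα
  have hα0 : 0 < α := by
    have := abs_nonneg R
    positivity
  have hαm : 2 * α * m = |R| + 1 := by
    rw [hα]
    field_simp
  set η : E n → E n := fun x => (1 + 2 * α * ⟪x - x₂, ν⟫) • ν - (2 * β) • (x - x₂) with hη
  set B : E n →L[ℝ] E n := (2 * α) • ten ν - (2 * β) • ContinuousLinearMap.id ℝ (E n) with hB
  have hη₀ : η x₂ = ν := by
    rw [hη]
    simp
  -- positivity at the point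
  have hpos : 0 < brk (p - 2) 0 g₀ (η x₂) A₀ B := by
    have hBg : ⟪B g₀, g₀⟫ = 2 * α * ⟪ν, g₀⟫ ^ 2 - 2 * β * ‖g₀‖ ^ 2 := by
      have e1 : B g₀ = (2 * α) • (⟪ν, g₀⟫ • ν) - (2 * β) • g₀ := by
        rw [hB, _root_.sub_apply, _root_.smul_apply,
          _root_.smul_apply, ten_apply]
        rfl
      rw [e1, inner_sub_left, inner_smul_left, inner_smul_left, inner_smul_left,
        real_inner_self_eq_norm_sq]
      simp only [conj_trivial]
      ring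
    have hBt : tr B = 2 * α - 2 * β * n := by
      have e2 : B = (2 * α) • ten ν + (-(2 * β)) • ContinuousLinearMap.id ℝ (E n) := by
        rw [hB, sub_eq_add_neg]
        congr 1
        ext1 w
        simp
      rw [e2, tr_add, tr_smul, tr_smul, tr_ten, tr_id, hν]
      ring
    unfold brk
    rw [hη₀, zero_smul, add_zero, hBg, hBt]
    have h1 := coer (p := p) g₀ ν hν
    have h2 : 2 * ⟪g₀, ν⟫ * tr A₀ + 0 * ‖ν‖ ^ 2 * tr A₀ + ‖g₀‖ ^ 2 * (2 * α - 2 * β * n) +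
        (p - 2) * (2 * ⟪A₀ g₀, ν⟫ + 0 * ⟪A₀ ν, ν⟫ + (2 * α * ⟪ν, g₀⟫ ^ 2 - 2 * β * ‖g₀‖ ^ 2)) =
        R + 2 * α * (‖g₀‖ ^ 2 + (p - 2) * ⟪ν, g₀⟫ ^ 2) := by
      rw [hR]
      ring
    rw [h2]
    have h3 : 2 * α * m ≤ 2 * α * (‖g₀‖ ^ 2 + (p - 2) * ⟪ν, g₀⟫ ^ 2) :=
      mul_le_mul_of_nonneg_left h1 (by linarith)
    have h4 := neg_abs_le R
    linarith
  -- continuity
  have cg : ContinuousAt (gradient u) x₂ := (contDiffAt_gradient hu).continuousAt
  have cA : ContinuousAt (hs u) x₂ := by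
    have h1 : ContDiffAt ℝ 0 (fderiv ℝ (gradient u)) x₂ :=
      (contDiffAt_gradient hu).fderiv_right (by norm_num)
    exact h1.continuousAt
  have cη : Continuous η := by
    rw [hη]
    fun_prop
  have c1 : ContinuousAt (fun z : E n × ℝ => gradient u z.1) (x₂, 0) :=
    ContinuousAt.comp (f := fun z : E n × ℝ => z.1) (g := gradient u) cg continuousAt_fst
  have c2 : ContinuousAt (fun z : E n × ℝ => hs u z.1) (x₂, 0) :=
    ContinuousAt.comp (f := fun z : E n × ℝ => z.1) (g := hs u) cA continuousAt_fst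
  have c3 : ContinuousAt (fun z : E n × ℝ => η z.1) (x₂, 0) :=
    (cη.comp continuous_fst).continuousAt
  have c4 : ContinuousAt (fun z : E n × ℝ => z.2) (x₂, 0) := continuousAt_snd
  have hev1 : ∀ᶠ z : E n × ℝ in 𝓝 (x₂, 0),
      0 < brk (p - 2) z.2 (gradient u z.1) (η z.1) (hs u z.1) B := by
    have c5 := cont_brk (q := p - 2) B c4 c1 c3 c2
    exact c5.eventually (lt_mem_nhds hpos)
  have hev2 : ∀ᶠ z : E n × ℝ in 𝓝 (x₂, 0), gradient u z.1 + z.2 • η z.1 ≠ 0 := by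
    have c6 : ContinuousAt (fun z : E n × ℝ => gradient u z.1 + z.2 • η z.1) (x₂, 0) :=
      c1.add (c4.smul c3)
    have h0 : (fun z : E n × ℝ => gradient u z.1 + z.2 • η z.1) (x₂, 0) ≠ 0 := by
      show gradient u x₂ + (0 : ℝ) • η x₂ ≠ 0
      rw [zero_smul, add_zero]
      exact hg0
    exact c6.eventually_ne h0
  have hev3 : ∀ᶠ x in 𝓝 x₂, ContDiffAt ℝ 2 u x := hu.eventually (by simp)
  obtain ⟨r₁, hr₁, H1⟩ := Metric.eventually_nhds_iff.mp (hev1.and hev2)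
  obtain ⟨r₂, hr₂, H2⟩ := Metric.eventually_nhds_iff.mp (hev3.and hE)
  refine ⟨α, min r₁ r₂, r₁, hα0, lt_min hr₁ hr₂, hr₁, fun ε hε hε1 x hx => ?_⟩
  rw [mem_ball, lt_min_iff] at hx
  obtain ⟨k1, k2⟩ := H1 (y := (x, ε)) (by
    rw [Prod.dist_eq, max_lt_iff]
    refine ⟨hx.1, ?_⟩
    rw [Real.dist_eq, sub_zero, abs_of_pos hε]
    exact hε1)
  obtain ⟨k3, k4⟩ := H2 (y := x) hx.2
  obtain ⟨d1, d2, d3⟩ := hD n u x₂ ν x α β ε k3
  exact strict_of d1 d2 d3 (hs_symm k3) k4 hε k2 k1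

end Pool.Agent.SCP
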