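import Pool.Agent.SCP.Targets

/-!
# A bound for the second derivative at a conical point
-/

set_option autoImplicit false

open Set MeasureTheory Filter Topology Asymptotics Metric
open scoped RealInnerProductSpace

namespace Pool.Agent.SCP

namespace BDD_

variable {n : ℕ}

/-- an orthonormal frame of the plane which contains a given unit vector -/
theorem frame (f : E 2) (hf : ‖f‖ = 1) : ∃ f' : E 2, ‖f'‖ = 1 ∧ (⟪f, f'⟫ = 0) ∧
    (∀ w : E 2, w = ⟪f, w⟫ • f + ⟪f', w⟫ • f') ∧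
    ∀ B : E 2 →L[ℝ] E 2, tr B = ⟪f, B f⟫ + ⟪f', B f'⟫ := by
  have hv : Orthonormal ℝ (({0} : Set (Fin 2)).domRestrict fun _ : Fin 2 => f) := by
    constructor
    · intro i
      exact hf
    · intro i j hij
      exfalso
      apply hij
      ext
      have h1 := i.2
      have h2 := j.2
      rw [mem_singleton_iff] at h1 h2
      rw [h1, h2]
  obtain ⟨b, hb⟩ := hv.exists_orthonormalBasis_extension_of_card_eq (by simp)
  have h0 : b 0 = f := hb 0 rfl
  refine ⟨b 1, b.orthonormal.1 1, ?_, ?_, ?_⟩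
  · rw [← h0]
    exact b.orthonormal.2 (by decide)
  · intro w
    have := b.sum_repr' w
    rw [Fin.sum_univ_two, h0] at this
    exact this.symm
  · intro B
    rw [tr_eq_sum B b, Fin.sum_univ_two, h0]

theorem norm_apply_le {L : E n →L[ℝ] E 2} (hL : Iso L) (x : E n) : ‖L x‖ ≤ ‖x‖ := by
  rcases eq_or_lt_of_le (norm_nonneg (L x)) with h | h
  · rw [← h]
    exact norm_nonneg _
  · have h1 : ‖L x‖ * ‖L x‖ ≤ ‖L x‖ * ‖x‖ := by
      calc ‖L x‖ * ‖L x‖ = ⟪L x, L x⟫ := (real_inner_self_eq_norm_mul_norm _).symm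
        _ = ⟪ContinuousLinearMap.adjoint L (L x), x⟫ := by
          rw [ContinuousLinearMap.adjoint_inner_left]
        _ ≤ ‖ContinuousLinearMap.adjoint L (L x)‖ * ‖x‖ := real_inner_le_norm _ _
        _ = ‖L x‖ * ‖x‖ := by rw [norm_adjoint hL]
    exact le_of_mul_le_mul_left h1 h

/-- the projection onto the kernel -/
noncomputable def pr (L : E n →L[ℝ] E 2) : E n →L[ℝ] E n :=
  ContinuousLinearMap.id ℝ (E n) - (ContinuousLinearMap.adjoint L).comp L

theorem pr_apply (L : E n →L[ℝ] E 2) (x : E n) :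
    pr L x = x - ContinuousLinearMap.adjoint L (L x) := by
  simp [pr]

theorem apply_pr {L : E n →L[ℝ] E 2} (hL : Iso L) (x : E n) : L (pr L x) = 0 := by
  rw [pr_apply, map_sub, hL, sub_self]

theorem norm_pr {L : E n →L[ℝ] E 2} (hL : Iso L) (x : E n) : ‖pr L x‖ ≤ 2 * ‖x‖ := by
  rw [pr_apply]
  have h1 := norm_sub_le x (ContinuousLinearMap.adjoint L (L x))
  rw [norm_adjoint hL] at h1
  have := norm_apply_le hL x
  linarith

theorem inner_pr {L : E n →L[ℝ] E 2} (hL : Iso L) (x : E n) :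
    ‖pr L x‖ ^ 2 = ⟪pr L x, x⟫ := by
  have h1 : ⟪pr L x, ContinuousLinearMap.adjoint L (L x)⟫ = 0 := by
    rw [ContinuousLinearMap.adjoint_inner_right, apply_pr hL, inner_zero_left]
  rw [← real_inner_self_eq_norm_sq]
  nth_rw 2 [pr_apply]
  rw [inner_sub_right, h1, sub_zero]

theorem abs_tr_le (B : E n →L[ℝ] E n) (c : ℝ) (hB : ∀ x, ‖B x‖ ≤ c * ‖x‖) :
    |tr B| ≤ n * c := by
  rw [tr_eq_sum B (EuclideanSpace.basisFun (Fin n) ℝ)]
  refine (Finset.abs_sum_le_sum_abs _ _).trans ?_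
  have h1 : ∀ i ∈ (Finset.univ : Finset (Fin n)), |⟪(EuclideanSpace.basisFun (Fin n) ℝ) i,
      B ((EuclideanSpace.basisFun (Fin n) ℝ) i)⟫| ≤ c := by
    intro i _
    refine (abs_real_inner_le_norm _ _).trans ?_
    have h2 : ‖(EuclideanSpace.basisFun (Fin n) ℝ) i‖ = 1 :=
      (EuclideanSpace.basisFun (Fin n) ℝ).orthonormal.1 i
    have h3 := hB ((EuclideanSpace.basisFun (Fin n) ℝ) i)
    rw [h2, mul_one] at h3
    rw [h2, one_mul]
    exact h3
  refine (Finset.sum_le_sum h1).trans ?_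
  simp

end BDD_

open BDD_

theorem bdd : T_BDD := by
  intro n p l L hp hL
  obtain ⟨μ, hμ⟩ : ∃ μ : ℝ, μ = min 1 (p - 1) := ⟨_, rfl⟩
  have hμ0 : 0 < μ := by
    rw [hμ]
    exact lt_min one_pos (by linarith)
  obtain ⟨a₀, ha₀⟩ : ∃ a₀ : ℝ, a₀ = ((|l| + 1) + n * 2 + |p - 2| * (2 * (|l| + 3))) / μ :=
    ⟨_, rfl⟩
  refine ⟨(|l| + 1) + (|l| + 2 + a₀) + 2, ?_⟩
  intro f e g A hf he hg hsym hAe hker heqn
  have hl : ‖A e‖ ≤ |l| + 1 := by
    have h1 : A e = (A e - l • g) + l • g := by abel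
    rw [h1]
    refine (norm_add_le _ _).trans ?_
    rw [norm_smul, hg, Real.norm_eq_abs, mul_one]
    linarith
  obtain ⟨f', hf', hff', hdec, htr⟩ := frame f hf
  obtain ⟨t, ht⟩ : ∃ t : E n, t = ContinuousLinearMap.adjoint L f' := ⟨_, rfl⟩
  have hne : ‖e‖ = 1 := by rw [he, norm_adjoint hL, hf]
  have hnt : ‖t‖ = 1 := by rw [ht, norm_adjoint hL, hf']
  obtain ⟨a, ha⟩ : ∃ a : ℝ, a = ⟪t, A t⟫ := ⟨_, rfl⟩
  -- the decomposition of a vector
  have hdecx : ∀ x : E n, x = ⟪f, L x⟫ • e + ⟪f', L x⟫ • t + pr L x := by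
    intro x
    have h1 : ContinuousLinearMap.adjoint L (L x) = ⟪f, L x⟫ • e + ⟪f', L x⟫ • t := by
      rw [he, ht, ← map_smul, ← map_smul, ← map_add, ← hdec (L x)]
    rw [pr_apply, ← h1]
    abel
  have hx1 : ∀ x : E n, |⟪f, L x⟫| ≤ ‖x‖ := fun x => by
    refine (abs_real_inner_le_norm _ _).trans ?_
    rw [hf, one_mul]
    exact norm_apply_le hL x
  have hy1 : ∀ x : E n, |⟪f', L x⟫| ≤ ‖x‖ := fun x => by
    refine (abs_real_inner_le_norm _ _).trans ?_
    rw [hf', one_mul]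
    exact norm_apply_le hL x
  -- the trace
  have htrA : tr A = ⟪e, A e⟫ + a + tr (A.comp (pr L)) := by
    have h1 : A = A.comp ((ContinuousLinearMap.adjoint L).comp L) + A.comp (pr L) := by
      ext1 x
      simp only [add_apply, ContinuousLinearMap.comp_apply, pr_apply,
        map_sub]
      abel
    have h2 : tr A = tr (A.comp ((ContinuousLinearMap.adjoint L).comp L)) +
        tr (A.comp (pr L)) := by
      conv_lhs => rw [h1]
      exact tr_add _ _
    rw [h2, tr_comp_adjoint, htr, ha, ht, he]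
    simp only [ContinuousLinearMap.comp_apply]
    rw [ContinuousLinearMap.adjoint_inner_left, ContinuousLinearMap.adjoint_inner_left]
  have hAp : ∀ x : E n, ‖A (pr L x)‖ ≤ ‖pr L x‖ := fun x => hker _ (apply_pr hL x)
  have htrp : |tr (A.comp (pr L))| ≤ n * 2 := by
    apply abs_tr_le
    intro x
    exact (hAp x).trans (norm_pr hL x)
  -- the quadratic form
  obtain ⟨x, hx⟩ : ∃ x : ℝ, x = ⟪f, L g⟫ := ⟨_, rfl⟩
  obtain ⟨y, hy⟩ : ∃ y : ℝ, y = ⟪f', L g⟫ := ⟨_, rfl⟩
  obtain ⟨w, hw⟩ : ∃ w : E n, w = x • e + pr L g := ⟨_, rfl⟩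
  have hgw : g = w + y • t := by
    have := hdecx g
    rw [← hx, ← hy] at this
    rw [hw]
    refine this.trans ?_
    abel
  have hxle : |x| ≤ 1 := by
    rw [hx, ← hg]
    exact hx1 g
  have hyle : |y| ≤ 1 := by
    rw [hy, ← hg]
    exact hy1 g
  have hAw : ‖A w‖ ≤ |l| + 3 := by
    rw [hw, map_add, map_smul]
    refine (norm_add_le _ _).trans ?_
    rw [norm_smul, Real.norm_eq_abs]
    have h1 : |x| * ‖A e‖ ≤ 1 * (|l| + 1) :=
      mul_le_mul hxle hl (norm_nonneg _) zero_le_one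
    have h2 := (hAp g).trans (norm_pr hL g)
    rw [hg] at h2
    linarith
  have hform : ⟪A g, g⟫ = ⟪A w, g⟫ + y * ⟪t, A w⟫ + y ^ 2 * a := by
    have h1 : A g = A w + y • A t := by
      conv_lhs => rw [hgw]
      rw [map_add, map_smul]
    have h2 : ⟪A t, g⟫ = ⟪t, A w⟫ + y * a := by
      rw [hsym, h1, inner_add_right, inner_smul_right, ha]
    rw [h1, inner_add_left, real_inner_smul_left, h2]
    ring
  -- the bound for `a`
  have hμle : μ ≤ 1 + (p - 2) * y ^ 2 := by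
    have hy2 : y ^ 2 ≤ 1 := by
      rw [← sq_abs]
      exact pow_le_one₀ (abs_nonneg _) hyle
    have h0 : 0 ≤ y ^ 2 := sq_nonneg y
    rw [hμ]
    rcases le_total 2 p with h | h
    · refine (min_le_left _ _).trans ?_
      nlinarith
    · refine (min_le_right _ _).trans ?_
      nlinarith
  have haeq : a * (1 + (p - 2) * y ^ 2) =
      -(⟪e, A e⟫ + tr (A.comp (pr L)) + (p - 2) * (⟪A w, g⟫ + y * ⟪t, A w⟫)) := by
    rw [htrA, hform] at heqn
    linarith
  have h1 : |⟪e, A e⟫| ≤ |l| + 1 := by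
    refine (abs_real_inner_le_norm _ _).trans ?_
    rw [hne, one_mul]
    exact hl
  have h2 : |⟪A w, g⟫| ≤ |l| + 3 := by
    refine (abs_real_inner_le_norm _ _).trans ?_
    rw [hg, mul_one]
    exact hAw
  have h3 : |y * ⟪t, A w⟫| ≤ |l| + 3 := by
    rw [abs_mul]
    have h4 : |⟪t, A w⟫| ≤ |l| + 3 := by
      refine (abs_real_inner_le_norm _ _).trans ?_
      rw [hnt, one_mul]
      exact hAw
    calc |y| * |⟪t, A w⟫| ≤ 1 * (|l| + 3) := mul_le_mul hyle h4 (abs_nonneg _) zero_le_one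
      _ = |l| + 3 := one_mul _
  have haμ : |a| * μ ≤ (|l| + 1) + n * 2 + |p - 2| * (2 * (|l| + 3)) := by
    have h4 : |a| * μ ≤ |a * (1 + (p - 2) * y ^ 2)| := by
      rw [abs_mul]
      gcongr
      exact hμle.trans (le_abs_self _)
    refine h4.trans ?_
    rw [haeq, abs_neg]
    refine (abs_add_le _ _).trans ?_
    refine add_le_add ((abs_add_le _ _).trans (add_le_add h1 htrp)) ?_
    rw [abs_mul]
    gcongr
    refine (abs_add_le _ _).trans ?_
    linarith
  have ha' : |a| ≤ a₀ := by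
    rw [ha₀, le_div_iff₀ hμ0]
    exact haμ
  -- the bound for `A t`
  have hpt : ‖pr L (A t)‖ ≤ 1 := by
    have h4 : ‖pr L (A t)‖ ^ 2 ≤ ‖pr L (A t)‖ := by
      rw [inner_pr hL, ← hsym]
      refine (real_inner_le_norm _ _).trans ?_
      rw [hnt, mul_one]
      exact hAp (A t)
    by_contra hcon
    push Not at hcon
    nlinarith
  have hAt : ‖A t‖ ≤ |l| + 2 + a₀ := by
    have h4 : ⟪f, L (A t)⟫ = ⟪A e, t⟫ := by
      rw [he, hsym, ContinuousLinearMap.adjoint_inner_left]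
    have h5 : ⟪f', L (A t)⟫ = a := by
      rw [ha]
      nth_rw 2 [ht]
      rw [ContinuousLinearMap.adjoint_inner_left]
    rw [hdecx (A t), h4, h5]
    refine (norm_add_le _ _).trans ?_
    have h6 : ‖⟪A e, t⟫ • e‖ ≤ |l| + 1 := by
      rw [norm_smul, hne, mul_one, Real.norm_eq_abs]
      refine (abs_real_inner_le_norm _ _).trans ?_
      rw [hnt, mul_one]
      exact hl
    have h7 : ‖a • t‖ ≤ a₀ := by
      rw [norm_smul, hnt, mul_one, Real.norm_eq_abs]
      exact ha'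
    have h8 := norm_add_le (⟪A e, t⟫ • e) (a • t)
    linarith
  -- the conclusion
  have ha₀0 : 0 ≤ a₀ := (abs_nonneg a).trans ha'
  refine ContinuousLinearMap.opNorm_le_bound _ (by positivity) ?_
  intro z
  have hz : A z = ⟪f, L z⟫ • A e + ⟪f', L z⟫ • A t + A (pr L z) := by
    conv_lhs => rw [hdecx z]
    rw [map_add, map_add, map_smul, map_smul]
  rw [hz]
  refine (norm_add_le _ _).trans ?_
  have h4 : ‖⟪f, L z⟫ • A e‖ ≤ ‖z‖ * (|l| + 1) := by
    rw [norm_smul, Real.norm_eq_abs]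
    exact mul_le_mul (hx1 z) hl (norm_nonneg _) (norm_nonneg _)
  have h5 : ‖⟪f', L z⟫ • A t‖ ≤ ‖z‖ * (|l| + 2 + a₀) := by
    rw [norm_smul, Real.norm_eq_abs]
    exact mul_le_mul (hy1 z) hAt (norm_nonneg _) (norm_nonneg _)
  have h6 := (hAp z).trans (norm_pr hL z)
  have h7 := norm_add_le (⟪f, L z⟫ • A e) (⟪f', L z⟫ • A t)
  linarith

end Pool.Agent.SCP
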