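import Pool.Agent.SCP.Targets

/-!
# Comparison on balls
-/

set_option autoImplicit false

open Set MeasureTheory Filter Topology Asymptotics Metric
open scoped RealInnerProductSpace

namespace Pool.Agent.SCP

theorem CMP_.sub_of_pharm (hT : T_TEST) {n : ℕ} {p : ℝ} {Ω : Set (E n)} {u : E n → ℝ} (hp : 1 < p)
    (hΩ : IsOpen Ω) (hu : PHarm p Ω u) : Sub p Ω u :=
  ⟨hu.1, fun ψ h1 h2 h3 _ => (hT n p Ω u ψ hp hΩ hu h1 h2 h3).le⟩

theorem cmp (hT : T_TEST) (hC : T_CMPSUB) : T_CMP := by
  intro n p Ω u v x₀ R δ hn hp hΩ hu hv hball hR hsph x hx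
  have hsb : ball x₀ R ⊆ Ω := ball_subset_closedBall.trans hball
  have key : ∀ δ' < δ, u x + δ' ≤ v x := by
    intro δ' hδ'
    have hsub : Sub p (ball x₀ R) (fun y => u y + δ') :=
      ((CMP_.sub_of_pharm hT hp hΩ hu).mono hsb).add_const δ'
    have hvb : PHarm p (ball x₀ R) v := hv.mono hsb
    have huc : ContinuousOn u (closedBall x₀ R) := hu.1.continuousOn.mono hball
    have hvc : ContinuousOn v (closedBall x₀ R) := hv.1.continuousOn.mono hball
    have hfc : ContinuousOn (fun y => v y - (u y + δ')) (closedBall x₀ R) :=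
      hvc.sub (huc.add continuousOn_const)
    have hcl : IsClosed (closedBall x₀ R ∩ (fun y => v y - (u y + δ')) ⁻¹' Iic 0) :=
      hfc.preimage_isClosed_of_isClosed isClosed_closedBall isClosed_Iic
    have hcomp : IsCompact (closedBall x₀ R ∩ (fun y => v y - (u y + δ')) ⁻¹' Iic 0) :=
      (isCompact_closedBall x₀ R).of_isClosed_subset hcl inter_subset_left
    refine hC n p (ball x₀ R) _ (fun y => u y + δ') v hn hp isOpen_ball hsub hvb hcomp ?_ ?_ x hx
    · rintro y ⟨hy1, hy2⟩
      rcases (mem_closedBall.1 hy1).lt_or_eq with h | h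
      · exact h
      · have h1 := hsph y h
        have h2 : v y - (u y + δ') ≤ 0 := hy2
        exact absurd h1 (by linarith)
    · intro y hy hyC
      by_contra hcon
      push Not at hcon
      apply hyC
      refine ⟨ball_subset_closedBall hy, ?_⟩
      show v y - (u y + δ') ≤ 0
      linarith
  by_contra hcon
  push Not at hcon
  have h1 := key ((v x - u x + δ) / 2) (by linarith)
  linarith

end Pool.Agent.SCP
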