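import Pool.Agent.SCP.Targets

/-!
# Weak comparison of a subsolution and a solution
-/

set_option autoImplicit false

open Set MeasureTheory Filter Topology Asymptotics Metric
open scoped RealInnerProductSpace

namespace Pool.Agent.SCP

namespace CMPSUB_

variable {n : ℕ}

/-- the square of the positive part -/
noncomputable def psq (t : ℝ) : ℝ := (max t 0) ^ 2

theorem hasDerivAt_psq (t : ℝ) : HasDerivAt psq (2 * max t 0) t := by
  rcases lt_trichotomy t 0 with ht | ht | ht
  · rw [max_eq_right ht.le, mul_zero]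
    have : psq =ᶠ[𝓝 t] fun _ => 0 := by
      filter_upwards [Iio_mem_nhds ht] with s hs
      have hs : s < 0 := hs
      simp [psq, max_eq_right hs.le]
    exact (hasDerivAt_const t (0 : ℝ)).congr_of_eventuallyEq this
  · subst ht
    rw [max_self, mul_zero, hasDerivAt_iff_isLittleO_nhds_zero]
    have h1 : (fun h : ℝ => psq (0 + h) - psq 0 - h • (0 : ℝ)) =O[𝓝 0] fun h => h ^ 2 := by
      refine IsBigO.of_bound 1 (Eventually.of_forall fun h => ?_)
      have h2 : psq (0 + h) - psq 0 - h • (0 : ℝ) = (max h 0) ^ 2 := by simp [psq]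
      rw [h2, one_mul, Real.norm_of_nonneg (sq_nonneg _), Real.norm_of_nonneg (sq_nonneg _)]
      rcases le_total h 0 with h0 | h0
      · rw [max_eq_right h0]; nlinarith
      · rw [max_eq_left h0]
    refine h1.trans_isLittleO ?_
    have := isLittleO_pow_id (𝕜 := ℝ) (n := 2) (by norm_num)
    simpa using this
  · rw [max_eq_left ht.le]
    have : psq =ᶠ[𝓝 t] fun s => s ^ 2 := by
      filter_upwards [Ioi_mem_nhds ht] with s hs
      have hs : 0 < s := hs
      simp [psq, max_eq_left hs.le]
    have h2 := (hasDerivAt_pow 2 t)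
    simp only [Nat.cast_ofNat] at h2
    refine (h2.congr_deriv ?_).congr_of_eventuallyEq this
    norm_num

theorem contDiff_psq : ContDiff ℝ 1 psq := by
  rw [contDiff_one_iff_deriv]
  refine ⟨fun t => (hasDerivAt_psq t).differentiableAt, ?_⟩
  have : deriv psq = fun t => 2 * max t 0 := funext fun t => (hasDerivAt_psq t).deriv
  rw [this]
  fun_prop

section
variable {p : ℝ} {G C : Set (E n)}

/-- the gradient of a `C¹` function is continuous -/
theorem continuousAt_gradient {H : E n → ℝ} (hG : IsOpen G) (h : ContDiffOn ℝ 1 H G) {x : E n}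
    (hx : x ∈ G) : ContinuousAt (gradient H) x := by
  have h1 : ContDiffAt ℝ 1 H x := h.contDiffAt (hG.mem_nhds hx)
  have h2 : ContinuousAt (fderiv ℝ H) x :=
    (h1.fderiv_right (m := 0) (by norm_num)).continuousAt
  exact (InnerProductSpace.toDual ℝ (E n)).symm.continuous.continuousAt.comp h2

/-- the integrand of the weak equation is continuous -/
theorem continuous_flux (hV : Continuous (V p : E n → E n)) (hG : IsOpen G) (hC : IsClosed C)
    (hCG : C ⊆ G) {H ψ : E n → ℝ} (h : ContDiffOn ℝ 1 H G) (hψ : ContDiff ℝ 1 ψ)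
    (h0 : ∀ x, x ∉ C → fderiv ℝ ψ x = 0) : Continuous (flux p H ψ) := by
  rw [continuous_iff_continuousAt]
  intro x
  by_cases hx : x ∈ C
  · have h1 : ContinuousAt (fun y => V p (gradient H y)) x :=
      hV.continuousAt.comp (continuousAt_gradient hG h (hCG hx))
    have h2 : Continuous (fderiv ℝ ψ) := hψ.continuous_fderiv (by norm_num)
    have h3 : flux p H ψ = fun y => fderiv ℝ ψ y (V p (gradient H y)) := by
      funext y
      exact flux_eq p H ψ y
    rw [h3]
    exact h2.continuousAt.clm_apply h1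
  · have h1 : flux p H ψ =ᶠ[𝓝 x] fun _ => 0 := by
      filter_upwards [hC.isOpen_compl.mem_nhds hx] with y hy
      rw [flux, h0 y hy]
      simp
    exact continuousAt_const.congr h1.symm

theorem support_flux (hC : IsCompact C) {H ψ : E n → ℝ}
    (h0 : ∀ x, x ∉ C → fderiv ℝ ψ x = 0) : HasCompactSupport (flux p H ψ) :=
  HasCompactSupport.intro hC fun x hx => by rw [flux, h0 x hx]; simp

end

end CMPSUB_

open CMPSUB_ in
theorem cmpsub (hmono : T_MONO) (htest : T_TEST) : T_CMPSUB := by
  classical
  intro n p G C h v hn hp hG hsub hv hC hCG hle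
  obtain ⟨hV, hVmono⟩ := hmono n p hp
  have hCc : IsClosed C := hC.isClosed
  set ψ : E n → ℝ := C.indicator fun x => psq (h x - v x) with hψdef
  have hψG : ∀ x ∈ G, ψ x = psq (h x - v x) := by
    intro x hx
    by_cases hxC : x ∈ C
    · rw [hψdef, indicator_of_mem hxC]
    · rw [hψdef, indicator_of_notMem hxC]
      have : h x - v x ≤ 0 := sub_nonpos.2 (hle x hx hxC)
      simp [psq, max_eq_right this]
  have hψC : ∀ x, x ∉ C → ψ x = 0 := fun x hx => indicator_of_notMem hx _
  have hψ0 : ∀ x, 0 ≤ ψ x := fun x => indicator_nonneg (fun y _ => sq_nonneg _) x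
  have hevG : ∀ x ∈ G, ψ =ᶠ[𝓝 x] fun y => psq (h y - v y) := fun x hx => by
    filter_upwards [hG.mem_nhds hx] with y hy using hψG y hy
  have hevC : ∀ x, x ∉ C → ψ =ᶠ[𝓝 x] fun _ => 0 := fun x hx => by
    filter_upwards [hCc.isOpen_compl.mem_nhds hx] with y hy using hψC y hy
  have hh : ∀ x ∈ G, ContDiffAt ℝ 1 h x := fun x hx => hsub.1.contDiffAt (hG.mem_nhds hx)
  have hvv : ∀ x ∈ G, ContDiffAt ℝ 1 v x := fun x hx => hv.1.contDiffAt (hG.mem_nhds hx)
  have hψs : ContDiff ℝ 1 ψ := by
    rw [contDiff_iff_contDiffAt]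
    intro x
    by_cases hx : x ∈ C
    · have h1 : ContDiffAt ℝ 1 (fun y => psq (h y - v y)) x :=
        contDiff_psq.contDiffAt.comp x ((hh x (hCG hx)).sub (hvv x (hCG hx)))
      exact h1.congr_of_eventuallyEq (hevG x (hCG hx))
    · exact contDiffAt_const.congr_of_eventuallyEq (hevC x hx)
  have hdG : ∀ x ∈ G, fderiv ℝ ψ x = (2 * max (h x - v x) 0) • (fderiv ℝ h x - fderiv ℝ v x) := by
    intro x hx
    rw [(hevG x hx).fderiv_eq]
    have h1 : HasFDerivAt (fun y => h y - v y) (fderiv ℝ h x - fderiv ℝ v x) x :=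
      ((hh x hx).differentiableAt (by norm_num)).hasFDerivAt.sub
        ((hvv x hx).differentiableAt (by norm_num)).hasFDerivAt
    exact ((hasDerivAt_psq (h x - v x)).comp_hasFDerivAt x h1).fderiv
  have hdC : ∀ x, x ∉ C → fderiv ℝ ψ x = 0 := by
    intro x hx
    rw [(hevC x hx).fderiv_eq]
    simp
  have hψc : HasCompactSupport ψ := HasCompactSupport.intro hC hψC
  have hψt : tsupport ψ ⊆ G := by
    refine (closure_minimal ?_ hCc).trans hCG
    intro x hx
    by_contra hxC
    exact hx (hψC x hxC)
  have i1 : ∫ x, flux p h ψ x ≤ 0 := hsub.2 ψ hψs hψc hψt hψ0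
  have i2 : ∫ x, flux p v ψ x = 0 := htest n p G v ψ hp hG hv hψs hψc hψt
  have c1 : Continuous (flux p h ψ) := continuous_flux hV hG hCc hCG hsub.1 hψs hdC
  have c2 : Continuous (flux p v ψ) := continuous_flux hV hG hCc hCG hv.1 hψs hdC
  have s1 : HasCompactSupport (flux p h ψ) := support_flux hC hdC
  have s2 : HasCompactSupport (flux p v ψ) := support_flux hC hdC
  have i3 : ∫ x, (flux p h ψ x - flux p v ψ x) ≤ 0 := by
    rw [integral_sub (c1.integrable_of_hasCompactSupport s1)
      (c2.integrable_of_hasCompactSupport s2), i2, sub_zero]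
    exact i1
  have hD : ∀ x ∈ G, flux p h ψ x - flux p v ψ x = 2 * max (h x - v x) 0 *
      ⟪V p (gradient h x) - V p (gradient v x), gradient h x - gradient v x⟫ := by
    intro x hx
    rw [flux_eq, flux_eq, ← map_sub, hdG x hx, smul_apply,
      sub_apply, smul_eq_mul, inner_sub_right, real_inner_comm,
      inner_gradient_left, real_inner_comm (gradient v x), inner_gradient_left]
  have hmon : ∀ x, 0 ≤ ⟪V p (gradient h x) - V p (gradient v x),
      gradient h x - gradient v x⟫ := by
    intro x
    by_cases he : gradient h x = gradient v x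
    · rw [he]; simp
    · exact (hVmono _ _ he).le
  have hDnn : ∀ x, 0 ≤ flux p h ψ x - flux p v ψ x := by
    intro x
    by_cases hx : x ∈ G
    · rw [hD x hx]
      exact mul_nonneg (mul_nonneg zero_le_two (le_max_right _ _)) (hmon x)
    · have hx' : x ∉ C := fun h' => hx (hCG h')
      simp [flux, hdC x hx']
  have hDz : ∀ x, flux p h ψ x - flux p v ψ x = 0 := by
    intro x
    by_contra hne
    have hcont : Continuous (fun x => flux p h ψ x - flux p v ψ x) := c1.sub c2
    have hcomp : HasCompactSupport (fun x => flux p h ψ x - flux p v ψ x) := s1.sub s2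
    have := hcont.integral_pos_of_hasCompactSupport_nonneg_nonzero (μ := volume) hcomp
      (fun x => hDnn x) hne
    exact absurd i3 (not_le.2 this)
  have hfz : ∀ x, fderiv ℝ ψ x = 0 := by
    intro x
    by_cases hx : x ∈ G
    · rw [hdG x hx]
      rcases le_or_gt (h x - v x) 0 with h0 | h0
      · rw [max_eq_right h0]; simp
      · have h1 := hDz x
        rw [hD x hx] at h1
        have h2 : (2 * max (h x - v x) 0) ≠ 0 := by
          rw [max_eq_left h0.le]; positivity
        have h3 : ⟪V p (gradient h x) - V p (gradient v x), gradient h x - gradient v x⟫ = 0 :=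
          (mul_eq_zero.1 h1).resolve_left h2
        have h4 : gradient h x = gradient v x := by
          by_contra hne
          exact absurd h3 (hVmono _ _ hne).ne'
        rw [gradient_eq_symm, gradient_eq_symm] at h4
        have h5 : fderiv ℝ h x = fderiv ℝ v x :=
          (InnerProductSpace.toDual ℝ (E n)).symm.injective h4
        rw [h5]; simp
    · exact hdC x fun h' => hx (hCG h')
  have : Nonempty (Fin n) := ⟨⟨0, hn⟩⟩
  have : Nontrivial (E n) := inferInstance
  have : NoncompactSpace (E n) := NormedSpace.noncompactSpace ℝ (E n)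
  obtain ⟨y, hy⟩ : ∃ y, y ∉ C := by
    by_contra hcon
    push Not at hcon
    exact hC.ne_univ (eq_univ_of_forall hcon)
  intro x hx
  have h1 : ψ x = ψ y := is_const_of_fderiv_eq_zero (𝕜 := ℝ) (hψs.differentiable (by norm_num)) hfz x y
  rw [hψG x hx, hψC y hy] at h1
  have h2 : max (h x - v x) 0 = 0 := by
    have : (max (h x - v x) 0) ^ 2 = 0 := h1
    exact pow_eq_zero_iff (two_ne_zero) |>.1 this
  have h3 : h x - v x ≤ 0 := by
    rw [← h2]; exact le_max_left _ _
  linarith

end Pool.Agent.SCP
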