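import Pool.Agent.SCP.Targets

/-!
# CON2: the strong comparison principle at conical points
-/

set_option autoImplicit false

open Set MeasureTheory Filter Topology Asymptotics Metric
open scoped RealInnerProductSpace

namespace Pool.Agent.SCP

/-- CON2 -/
theorem con2 (hT : T_NOTOUCH) (hN : T_NONCRIT) (hC : T_CONN) : T_CON2 := by
  intro n p k Ω u v x₀ F hn hp hΩ hu hv huv hx₀ hreg hcon heq
  have hWn : Ω ∩ {x | F x ≠ 0 → gradient u x ≠ 0} ∈ 𝓝 x₀ :=
    inter_mem (hΩ.mem_nhds hx₀) hcon.regular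
  obtain ⟨N, hNo, hxN, hNW, hpre, hcl⟩ := hC n x₀ F _ hcon.smooth hcon.zero hcon.iso hWn
  have hNΩ : N ⊆ Ω := fun x hx => (hNW hx).1
  have hcont : ContinuousOn (fun x => u x - v x) N :=
    (hu.1.continuousOn.mono hNΩ).sub (hv.1.continuousOn.mono hNΩ)
  have hO2 : IsOpen (N ∩ (fun x => u x - v x) ⁻¹' {0}ᶜ) :=
    hcont.isOpen_inter_preimage hNo isClosed_singleton.isOpen_compl
  have hO1 : IsOpen (interior {x | u x = v x}) := isOpen_interior
  have hcover : {x ∈ N | F x ≠ 0} ⊆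
      interior {x | u x = v x} ∪ (N ∩ (fun x => u x - v x) ⁻¹' {0}ᶜ) := by
    intro x hx
    by_cases hxe : u x = v x
    · left
      have hg : gradient u x ≠ 0 := (hNW hx.1).2 hx.2
      have := hN n p Ω u v x hn hp hΩ hu hv huv (hNΩ hx.1) (hreg x (hNΩ hx.1) hg) hg hxe
      exact mem_interior_iff_mem_nhds.2 this
    · right
      exact ⟨hx.1, fun h => hxe (sub_eq_zero.1 h)⟩
  by_cases h2 : ({x ∈ N | F x ≠ 0} ∩ (N ∩ (fun x => u x - v x) ⁻¹' {0}ᶜ)).Nonempty
  · exfalso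
    have h1 : ¬ ({x ∈ N | F x ≠ 0} ∩ interior {x | u x = v x}).Nonempty := by
      intro h1
      obtain ⟨x, -, hx1, -, hx2⟩ := hpre _ _ hO1 hO2 hcover h1 h2
      have hx3 : x ∈ {x | u x = v x} := interior_subset hx1
      exact hx2 (sub_eq_zero.2 hx3)
    refine hT n p k Ω u v x₀ F hn hp hΩ hu hv huv hx₀ hreg hcon heq ?_
    have hmem : N ∈ 𝓝[{x | F x ≠ 0}] x₀ := mem_nhdsWithin_of_mem_nhds (hNo.mem_nhds hxN)
    filter_upwards [hmem, self_mem_nhdsWithin] with x hx hFx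
    refine lt_of_le_of_ne (huv x (hNΩ hx)) fun he => h1 ⟨x, ⟨hx, hFx⟩, ?_⟩
    rcases hcover ⟨hx, hFx⟩ with h | h
    · exact h
    · exact absurd (sub_eq_zero.2 he) h.2
  · have hS : ∀ x, x ∈ {x ∈ N | F x ≠ 0} → u x - v x = 0 := by
      intro x hx
      by_contra h
      exact h2 ⟨x, hx, hx.1, h⟩
    filter_upwards [hNo.mem_nhds hxN] with x hx
    have hca : ContinuousAt (fun x => u x - v x) x := hcont.continuousAt (hNo.mem_nhds hx)
    by_contra hne
    have hev : ∀ᶠ y in 𝓝 x, u y - v y ≠ 0 :=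
      hca.eventually_ne (sub_ne_zero.2 hne)
    have hfr := mem_closure_iff_frequently.1 (hcl hx)
    obtain ⟨y, hy1, hy2⟩ := (hfr.and_eventually hev).exists
    exact hy2 (hS y hy1)

end Pool.Agent.SCP
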