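import Pool.Agent.SCP.Targets

/-!
# The complement of a submanifold of codimension two is connected and dense, locally
-/

set_option autoImplicit false

open Set MeasureTheory Filter Topology Asymptotics Metric
open scoped RealInnerProductSpace

namespace Pool.Agent.SCP

namespace CONN_

theorem rank_E2 : 1 < Module.rank ℝ (E 2) := by
  rw [← Module.finrank_eq_rank, finrank_euclideanSpace_fin]
  norm_num

/-- a punctured disc is preconnected -/
theorem preconn_disc (r : ℝ) : IsPreconnected {w : E 2 | ‖w‖ < r ∧ w ≠ 0} := by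
  have h : {w : E 2 | ‖w‖ < r ∧ w ≠ 0} =
      (fun q : ℝ × E 2 => q.1 • q.2) '' (Ioo (0 : ℝ) r ×ˢ sphere (0 : E 2) 1) := by
    ext w
    simp only [mem_ofPred_eq, mem_image, mem_prod, mem_Ioo, mem_sphere_iff_norm, sub_zero,
      Prod.exists]
    constructor
    · rintro ⟨h1, h2⟩
      have h3 : 0 < ‖w‖ := norm_pos_iff.mpr h2
      refine ⟨‖w‖, ‖w‖⁻¹ • w, ⟨⟨h3, h1⟩, ?_⟩, ?_⟩
      · rw [norm_smul, norm_inv, norm_norm, inv_mul_cancel₀ h3.ne']
      · rw [smul_smul, mul_inv_cancel₀ h3.ne', one_smul]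
    · rintro ⟨t, v, ⟨⟨h1, h2⟩, h3⟩, rfl⟩
      refine ⟨?_, ?_⟩
      · rw [norm_smul, h3, mul_one, Real.norm_of_nonneg h1.le]
        exact h2
      · intro h0
        have : ‖t • v‖ = 0 := by rw [h0, norm_zero]
        rw [norm_smul, h3, mul_one, Real.norm_of_nonneg h1.le] at this
        exact h1.ne' this
  rw [h]
  refine (isPreconnected_Ioo.prod (isPreconnected_sphere rank_E2 0 1)).image _ ?_
  exact (continuous_fst.smul continuous_snd).continuousOn

theorem mem_closure_disc {r : ℝ} (hr : 0 < r) {w : E 2} (hw : ‖w‖ < r) :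
    w ∈ closure {w : E 2 | ‖w‖ < r ∧ w ≠ 0} := by
  by_cases h0 : w = 0
  · subst h0
    rw [Metric.mem_closure_iff]
    intro ε hε
    obtain ⟨v, hv⟩ : ∃ v : E 2, ‖v‖ = 1 := exists_norm_eq _ zero_le_one
    refine ⟨(min r ε / 2) • v, ⟨?_, ?_⟩, ?_⟩
    · rw [norm_smul, hv, mul_one, Real.norm_of_nonneg (by positivity)]
      have := min_le_left r ε
      linarith
    · intro h
      have h1 : ‖(min r ε / 2) • v‖ = 0 := by rw [h, norm_zero]
      rw [norm_smul, hv, mul_one, Real.norm_of_nonneg (by positivity)] at h1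
      have : 0 < min r ε := lt_min hr hε
      linarith
    · rw [dist_eq_norm, zero_sub, norm_neg, norm_smul, hv, mul_one,
        Real.norm_of_nonneg (by positivity)]
      have := min_le_right r ε
      linarith
  · exact subset_closure ⟨hw, h0⟩

end CONN_

theorem conn : T_CONN := by
  intro n x₀ F W hF hF0 hiso hW
  have hst : HasStrictFDerivAt F (fderiv ℝ F x₀) x₀ :=
    hF.hasStrictFDerivAt (by norm_num)
  have hrange : (fderiv ℝ F x₀).range = ⊤ := by
    rw [LinearMap.range_eq_top]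
    intro w
    exact ⟨_, hiso w⟩
  set e := hst.implicitToOpenPartialHomeomorph F (fderiv ℝ F x₀) hrange with he
  have hfst : ∀ x, (e x).1 = F x := fun x =>
    hst.implicitToOpenPartialHomeomorph_fst hrange x
  have hself : e x₀ = (0, 0) := by
    have := hst.implicitToOpenPartialHomeomorph_self hrange
    rw [hF0] at this
    exact this
  have hsrc : x₀ ∈ e.source := hst.mem_implicitToOpenPartialHomeomorph_source hrange
  have htgt : ((0 : E 2), (0 : (fderiv ℝ F x₀).ker)) ∈ e.target := by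
    rw [← hself]
    exact e.map_source hsrc
  have hinv : e.symm (0, 0) = x₀ := by
    rw [← hself]
    exact e.left_inv hsrc
  -- a small box
  have hnear : e.target ∩ e.symm ⁻¹' (interior W) ∈ 𝓝 ((0 : E 2), (0 : (fderiv ℝ F x₀).ker)) := by
    refine inter_mem (e.open_target.mem_nhds htgt) ?_
    have hc : ContinuousAt e.symm ((0 : E 2), (0 : (fderiv ℝ F x₀).ker)) :=
      e.symm.continuousAt htgt
    apply hc.preimage_mem_nhds
    rw [hinv]
    exact interior_mem_nhds.mpr hW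
  obtain ⟨r, hr, hbox⟩ := Metric.mem_nhds_iff.mp hnear
  have hbox' : ∀ w : E 2, ∀ s : (fderiv ℝ F x₀).ker, ‖w‖ < r → ‖s‖ < r →
      (w, s) ∈ e.target ∧ e.symm (w, s) ∈ W := by
    intro w s hw hs
    have : (w, s) ∈ ball ((0 : E 2), (0 : (fderiv ℝ F x₀).ker)) r := by
      rw [mem_ball, dist_eq_norm, Prod.norm_def]
      refine max_lt ?_ ?_
      · simpa using hw
      · simpa using hs
    exact ⟨(hbox this).1, interior_subset (hbox this).2⟩
  set Q : Set (E 2 × (fderiv ℝ F x₀).ker) := {q | ‖q.1‖ < r ∧ ‖q.2‖ < r} with hQ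
  have hQo : IsOpen Q := by
    refine IsOpen.inter ?_ ?_
    · exact isOpen_lt (continuous_norm.comp continuous_fst) continuous_const
    · exact isOpen_lt (continuous_norm.comp continuous_snd) continuous_const
  have hQt : Q ⊆ e.target := fun q hq => (hbox' q.1 q.2 hq.1 hq.2).1
  set D : Set (E 2 × (fderiv ℝ F x₀).ker) :=
    {w : E 2 | ‖w‖ < r ∧ w ≠ 0} ×ˢ ball (0 : (fderiv ℝ F x₀).ker) r with hD
  have hDQ : D ⊆ Q := by
    rintro ⟨w, s⟩ ⟨h1, h2⟩
    refine ⟨h1.1, ?_⟩
    simpa using h2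
  have hcs : ContinuousOn e.symm Q := e.symm.continuousOn.mono hQt
  have hset : {x ∈ e.symm '' Q | F x ≠ 0} = e.symm '' D := by
    ext x
    constructor
    · rintro ⟨⟨⟨w, s⟩, hq, rfl⟩, hx⟩
      refine ⟨(w, s), ⟨⟨hq.1, ?_⟩, by simpa using hq.2⟩, rfl⟩
      rw [← hfst, e.right_inv (hQt hq)] at hx
      exact hx
    · rintro ⟨⟨w, s⟩, hd, rfl⟩
      refine ⟨⟨(w, s), hDQ hd, rfl⟩, ?_⟩
      rw [← hfst, e.right_inv (hQt (hDQ hd))]
      exact hd.1.2
  refine ⟨e.symm '' Q, ?_, ?_, ?_, ?_, ?_⟩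
  · exact e.symm.isOpen_image_of_subset_source hQo hQt
  · exact ⟨(0, 0), ⟨by simpa using hr, by simpa using hr⟩, hinv⟩
  · rintro _ ⟨⟨w, s⟩, hq, rfl⟩
    exact (hbox' w s hq.1 hq.2).2
  · rw [hset]
    exact ((CONN_.preconn_disc r).prod (convex_ball _ _).isPreconnected).image _ (hcs.mono hDQ)
  · rw [hset]
    rintro _ ⟨⟨w, s⟩, hq, rfl⟩
    refine ContinuousWithinAt.mem_closure_image ((hcs _ hq).mono hDQ) ?_
    rw [hD, closure_prod_eq]
    exact ⟨CONN_.mem_closure_disc hr hq.1, subset_closure (by simpa using hq.2)⟩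

end Pool.Agent.SCP
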