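import Pool.Agent.SCP.Targets

/-!
# From local to global, with an exceptional set of vanishing length
-/

set_option autoImplicit false

open Set MeasureTheory Filter Topology Asymptotics Metric
open scoped RealInnerProductSpace

namespace Pool.Agent.SCP

namespace GLOBAL_

variable {n : ℕ}

/-- there are arbitrarily small spheres that avoid a set of vanishing length -/
theorem exists_sphere (B : Set (E n)) (hB : Measure.hausdorffMeasure 1 B = 0) (x : E n) {R : ℝ}
    (hR : 0 < R) : ∃ r, 0 < r ∧ r < R ∧ ∀ y ∈ sphere x r, y ∉ B := by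
  have hf : LipschitzWith 1 (fun y : E n => dist y x) := LipschitzWith.dist_left x
  have h1 : Measure.hausdorffMeasure 1 ((fun y : E n => dist y x) '' B) = 0 := by
    have := hf.hausdorffMeasure_image_le (d := 1) zero_le_one B
    rw [hB, mul_zero] at this
    exact le_antisymm this bot_le
  rw [hausdorffMeasure_real] at h1
  by_contra hcon
  push Not at hcon
  have h2 : Ioo 0 R ⊆ (fun y : E n => dist y x) '' B := by
    intro r hr
    obtain ⟨y, hy, hyB⟩ := hcon r hr.1 hr.2
    exact ⟨y, hyB, hy⟩
  have h3 : volume (Ioo 0 R) = 0 := measure_mono_null h2 h1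
  rw [Real.volume_Ioo, sub_zero, ENNReal.ofReal_eq_zero] at h3
  exact absurd h3 (not_le.2 hR)

/-- the contact set is closed -/
theorem eq_of_closure {Ω : Set (E n)} {u v : E n → ℝ} (hΩ : IsOpen Ω) (hu : ContinuousOn u Ω)
    (hv : ContinuousOn v Ω) {y : E n} (hy : y ∈ Ω) (hc : y ∈ closure {z | u z = v z}) :
    u y = v y := by
  have h1 : ContinuousAt (fun z => u z - v z) y :=
    ((hu.continuousAt (hΩ.mem_nhds hy)).sub (hv.continuousAt (hΩ.mem_nhds hy)))
  by_contra hne
  have h2 : ∀ᶠ z in 𝓝 y, u z - v z ≠ 0 := h1.eventually_ne (sub_ne_zero.2 hne)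
  have h3 : ∃ᶠ z in 𝓝 y, u z = v z := mem_closure_iff_frequently.1 hc
  obtain ⟨z, hz1, hz2⟩ := (h3.and_eventually h2).exists
  exact hz2 (sub_eq_zero.2 hz1)

/-- an open and closed argument -/
theorem openClosed {Ω S : Set (E n)} {u v : E n → ℝ} (hΩ : IsOpen Ω) (hu : ContinuousOn u Ω)
    (hv : ContinuousOn v Ω) (hS : IsPreconnected S) (hSΩ : S ⊆ Ω)
    (hloc : ∀ x ∈ S, u x = v x → ∀ᶠ y in 𝓝 x, u y = v y) (hex : ∃ x ∈ S, u x = v x) :
    ∀ x ∈ S, u x = v x := by
  obtain ⟨x, hxS, hx⟩ := hex
  have key : S ⊆ interior {z | u z = v z} := by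
    refine hS.subset_of_closure_inter_subset isOpen_interior
      ⟨x, hxS, mem_interior_iff_mem_nhds.2 (hloc x hxS hx)⟩ ?_
    rintro y ⟨hy1, hy2⟩
    have h1 : u y = v y := eq_of_closure hΩ hu hv (hSΩ hy2) (closure_mono interior_subset hy1)
    exact mem_interior_iff_mem_nhds.2 (hloc y hy2 h1)
  intro y hy
  have h2 : y ∈ {z | u z = v z} := interior_subset (key hy)
  exact h2

end GLOBAL_

open GLOBAL_ in
theorem global (hcmp : T_CMP) : T_GLOBAL := by
  intro n p Ω B u v hn hp hΩ hconn hu hv huv hB hloc hex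
  have hcu : ContinuousOn u Ω := hu.1.continuousOn
  have hcv : ContinuousOn v Ω := hv.1.continuousOn
  have hn1 : 1 ≤ n := by omega
  have key : ∀ x ∈ Ω, u x = v x → ∀ᶠ y in 𝓝 x, u y = v y := by
    intro x hx hxe
    obtain ⟨R, hR, hRΩ⟩ := nhds_basis_closedBall.mem_iff.1 (hΩ.mem_nhds hx)
    obtain ⟨r, hr, hrR, hrB⟩ := exists_sphere B hB x hR
    have hball : closedBall x r ⊆ Ω := (closedBall_subset_closedBall hrR.le).trans hRΩ
    have hsph : sphere x r ⊆ Ω := sphere_subset_closedBall.trans hball
    have hrank : 1 < Module.rank ℝ (E n) := by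
      rw [← Module.finrank_eq_rank, finrank_euclideanSpace_fin]
      exact_mod_cast hn
    have hS : IsConnected (sphere x r) := isConnected_sphere hrank x hr.le
    by_cases hcase : ∃ y ∈ sphere x r, u y = v y
    · have hall : ∀ y ∈ sphere x r, u y = v y :=
        openClosed hΩ hcu hcv hS.isPreconnected hsph
          (fun y hy he => hloc y (hsph hy) (hrB y hy) he) hcase
      have h1 := hcmp n p Ω v u x r 0 hn1 hp hΩ hv hu hball hr
        (fun y hy => by rw [add_zero, hall y hy])
      filter_upwards [ball_mem_nhds x hr] with y hy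
      refine le_antisymm (huv y (hball (ball_subset_closedBall hy))) ?_
      have := h1 y hy
      linarith
    · exfalso
      push Not at hcase
      have hcomp : IsCompact (sphere x r) := isCompact_sphere x r
      have hcont : ContinuousOn (fun y => v y - u y) (sphere x r) :=
        (hcv.mono hsph).sub (hcu.mono hsph)
      obtain ⟨z, hz, hmin⟩ := hcomp.exists_isMinOn hS.nonempty hcont
      have hpos : 0 < v z - u z :=
        sub_pos.2 (lt_of_le_of_ne (huv z (hsph hz)) (hcase z hz))
      have h1 := hcmp n p Ω u v x r (v z - u z) hn1 hp hΩ hu hv hball hr (fun y hy => by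
        have := hmin hy
        have this : v z - u z ≤ v y - u y := this
        linarith) x (mem_ball_self hr)
      linarith
  exact openClosed hΩ hcu hcv hconn.isPreconnected subset_rfl key hex

end Pool.Agent.SCP
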