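import Pool.Agent.SCP.Core

/-!
# Exact targets (proofs: Blueprint.lean.txt)
-/

set_option autoImplicit false

open Set MeasureTheory Filter Topology Asymptotics Metric
open scoped RealInnerProductSpace

namespace Pool.Agent.SCP

/-! ## Weak equation -/

/-- TEST: the weak equation holds for `C¹` test functions -/
def T_TEST : Prop := ∀ (n : ℕ) (p : ℝ) (Ω : Set (E n)) (u φ : E n → ℝ), 1 < p → IsOpen Ω →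
  PHarm p Ω u → ContDiff ℝ 1 φ → HasCompactSupport φ → tsupport φ ⊆ Ω →
  ∫ x, flux p u φ x = 0

/-- IBP: integration by parts -/
def T_IBP : Prop := ∀ (n : ℕ) (G : Set (E n)) (W : E n → E n) (φ : E n → ℝ), IsOpen G →
  ContDiffOn ℝ 1 W G → ContDiff ℝ 1 φ → HasCompactSupport φ → tsupport φ ⊆ G →
  ∫ x, fderiv ℝ φ x (W x) = - ∫ x, φ x * dv W x

/-- MONO: the field `V` is continuous and strictly monotone -/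
def T_MONO : Prop := ∀ (n : ℕ) (p : ℝ), 1 < p → Continuous (V p : E n → E n) ∧
  ∀ ξ η : E n, ξ ≠ η → 0 < ⟪V p ξ - V p η, ξ - η⟫

/-- VREG: the regularised field -/
def T_VREG : Prop := ∀ (n : ℕ) (p : ℝ), 1 < p →
  (∀ κ : ℝ, 0 < κ → ContDiff ℝ 1 (Vr p κ : E n → E n)) ∧
  (∀ κ : ℝ, 0 < κ → ∀ ξ h : E n, fderiv ℝ (Vr p κ) ξ h = (‖ξ‖ ^ 2 + κ ^ 2) ^ ((p - 2) / 2) •
    (h + ((p - 2) * ⟪ξ, h⟫ / (‖ξ‖ ^ 2 + κ ^ 2)) • ξ)) ∧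
  (∀ κ : ℝ, 0 < κ → κ ≤ 1 → ∀ ξ : E n, ‖Vr p κ ξ‖ ≤ (‖ξ‖ ^ 2 + 1) ^ ((p - 1) / 2)) ∧
  ∀ ξ : E n, Tendsto (fun κ => Vr p κ ξ) (𝓝[>] 0) (𝓝 (V p ξ))

/-- REGDIV: the divergence of the regularised field of a strict subsolution, slightly perturbed, is
nonnegative -/
def T_REGDIV : Prop := ∀ (n : ℕ) (p : ℝ) (H : E n → ℝ) (y : E n), 1 ≤ n → 1 < p →
  Strict p H y → ∃ ε r κ₀ : ℝ, 0 < ε ∧ 0 < r ∧ 0 < κ₀ ∧ ContDiffOn ℝ 2 H (ball y r) ∧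
    ∀ κ, 0 < κ → κ < κ₀ → ∀ x ∈ ball y r,
      0 ≤ dv (fun w => Vr p κ (gradient (fun z => H z - ε * ‖z - y‖ ^ 2) w)) x

/-- SUBREG: a strict subsolution at `y`, slightly perturbed, is a weak subsolution near `y` -/
def T_SUBREG : Prop := ∀ (n : ℕ) (p : ℝ) (H : E n → ℝ) (y : E n), 1 ≤ n → 1 < p →
  Strict p H y → ∃ ε r : ℝ, 0 < ε ∧ 0 < r ∧ Sub p (ball y r) (fun z => H z - ε * ‖z - y‖ ^ 2)

/-- CMPSUB: weak comparison of a subsolution and a solution -/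
def T_CMPSUB : Prop := ∀ (n : ℕ) (p : ℝ) (G C : Set (E n)) (h v : E n → ℝ), 1 ≤ n → 1 < p →
  IsOpen G → Sub p G h → PHarm p G v → IsCompact C → C ⊆ G →
  (∀ x ∈ G, x ∉ C → h x ≤ v x) → ∀ x ∈ G, h x ≤ v x

/-- TOUCH: a strict subsolution does not touch a solution from below -/
def T_TOUCH : Prop := ∀ (n : ℕ) (p : ℝ) (Ω : Set (E n)) (v H : E n → ℝ) (y : E n), 1 ≤ n →
  1 < p → IsOpen Ω → PHarm p Ω v → y ∈ Ω → Strict p H y →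
  ¬ ∀ᶠ x in 𝓝 y, H x - v x ≤ H y - v y

/-- NEG: the negative of a solution -/
def T_NEG : Prop := ∀ (n : ℕ) (p k : ℝ) (Ω : Set (E n)) (u : E n → ℝ),
  (PHarm p Ω u → PHarm p Ω fun x => - u x) ∧
  (∀ x₀ F, Conical p k u x₀ F → Conical p k (fun x => - u x) x₀ F) ∧
  ∀ x, gradient (fun x => - u x) x = - gradient u x

/-- PT: the pointwise equation -/
def T_PT : Prop := ∀ (n : ℕ) (p : ℝ) (Ω : Set (E n)) (u : E n → ℝ) (x : E n), 1 ≤ n → 1 < p →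
  IsOpen Ω → PHarm p Ω u → x ∈ Ω → ContDiffAt ℝ 2 u x → gradient u x ≠ 0 → Eqn p u x

/-- CMP: comparison on balls -/
def T_CMP : Prop := ∀ (n : ℕ) (p : ℝ) (Ω : Set (E n)) (u v : E n → ℝ) (x₀ : E n) (R δ : ℝ),
  1 ≤ n → 1 < p → IsOpen Ω → PHarm p Ω u → PHarm p Ω v → closedBall x₀ R ⊆ Ω → 0 < R →
  (∀ x ∈ sphere x₀ R, u x + δ ≤ v x) → ∀ x ∈ ball x₀ R, u x + δ ≤ v x

/-! ## The Hopf type argument -/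

/-- HOPF: the contact set is open at points which have barriers nearby -/
def T_HOPF : Prop := ∀ (n : ℕ) (p : ℝ) (N : Set (E n)) (u v : E n → ℝ) (x₁ : E n), 1 ≤ n →
  1 < p → IsOpen N → PHarm p N v → ContinuousOn u N → (∀ x ∈ N, u x ≤ v x) → x₁ ∈ N →
  u x₁ = v x₁ → (∀ x₂ ∈ N, Barrier p u x₂) → ∀ᶠ x in 𝓝 x₁, u x = v x

/-- BARD: the derivatives of the barrier -/
def T_BARD : Prop := ∀ (n : ℕ) (u : E n → ℝ) (x₂ ν x : E n) (α β ε : ℝ), ContDiffAt ℝ 2 u x →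
  ContDiffAt ℝ 2 (bar u x₂ ν α β ε) x ∧
  gradient (bar u x₂ ν α β ε) x = gradient u x +
    ε • ((1 + 2 * α * ⟪x - x₂, ν⟫) • ν - (2 * β) • (x - x₂)) ∧
  hs (bar u x₂ ν α β ε) x = hs u x +
    ε • ((2 * α) • ten ν - (2 * β) • ContinuousLinearMap.id ℝ (E n))

/-- BARU: barriers at noncritical points of a solution -/
def T_BARU : Prop := ∀ (n : ℕ) (p : ℝ) (u : E n → ℝ) (x₂ : E n), 1 < p → ContDiffAt ℝ 2 u x₂ →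
  gradient u x₂ ≠ 0 → (∀ᶠ x in 𝓝 x₂, Eqn p u x) → Barrier p u x₂

/-- BARC: barriers for a constant function -/
def T_BARC : Prop := ∀ (n : ℕ) (p : ℝ) (c : ℝ) (x₂ : E n), 1 < p → Barrier p (fun _ => c) x₂

/-- NONCRIT: the strong comparison principle at noncritical points -/
def T_NONCRIT : Prop := ∀ (n : ℕ) (p : ℝ) (Ω : Set (E n)) (u v : E n → ℝ) (x₁ : E n), 1 ≤ n →
  1 < p → IsOpen Ω → PHarm p Ω u → PHarm p Ω v → (∀ x ∈ Ω, u x ≤ v x) → x₁ ∈ Ω →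
  ContDiffAt ℝ 2 u x₁ → gradient u x₁ ≠ 0 → u x₁ = v x₁ → ∀ᶠ x in 𝓝 x₁, u x = v x

/-- SMP: the strong minimum principle -/
def T_SMP : Prop := ∀ (n : ℕ) (p : ℝ) (Ω : Set (E n)) (v : E n → ℝ) (c : ℝ) (x₁ : E n), 1 ≤ n →
  1 < p → IsOpen Ω → PHarm p Ω v → x₁ ∈ Ω → (∀ᶠ x in 𝓝 x₁, c ≤ v x) → v x₁ = c →
  ∀ᶠ x in 𝓝 x₁, v x = c

/-! ## Conical points -/

/-- PHI1: the derivatives of the comparison function -/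
def T_PHI1 : Prop := ∀ (n : ℕ) (κ c : ℝ) (x₀ x : E n) (F : E n → E 2), ContDiffAt ℝ 2 F x →
  F x ≠ 0 → ∀ a a' : ℝ,
  a = κ * ‖F x‖ ^ (κ - 2) * (c - ‖x - x₀‖ ^ 2) + (κ + 1 / 2) * ‖F x‖ ^ (κ - 3 / 2) →
  a' = κ * (κ - 2) * ‖F x‖ ^ (κ - 4) * (c - ‖x - x₀‖ ^ 2) +
    (κ + 1 / 2) * (κ - 3 / 2) * ‖F x‖ ^ (κ - 7 / 2) →
  ContDiffAt ℝ 2 (phi F x₀ κ c) x ∧
  (∀ h, ⟪gradient (phi F x₀ κ c) x, h⟫ = a * ⟪F x, fderiv ℝ F x h⟫ -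
    2 * ‖F x‖ ^ κ * ⟪x - x₀, h⟫) ∧
  ∀ h h', ⟪hs (phi F x₀ κ c) x h, h'⟫ =
    a * (⟪fderiv ℝ F x h, fderiv ℝ F x h'⟫ + ⟪F x, fderiv ℝ (fderiv ℝ F) x h h'⟫) +
    a' * ⟪F x, fderiv ℝ F x h⟫ * ⟪F x, fderiv ℝ F x h'⟫ -
    2 * κ * ‖F x‖ ^ (κ - 2) * (⟪F x, fderiv ℝ F x h⟫ * ⟪x - x₀, h'⟫ +
      ⟪x - x₀, h⟫ * ⟪F x, fderiv ℝ F x h'⟫) - 2 * ‖F x‖ ^ κ * ⟪h, h'⟫

/-- PHI2: their asymptotics in the region in which the comparison function is positive -/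
def T_PHI2 : Prop := ∀ (n : ℕ) (k : ℝ) (x₀ : E n) (F : E n → E 2), 1 < k →
  ContDiffAt ℝ 2 F x₀ → F x₀ = 0 → Iso (fderiv ℝ F x₀) → ∀ ε : ℝ, 0 < ε →
  ∀ᶠ x in 𝓝[{x | F x ≠ 0}] x₀, ∀ κ c : ℝ, 1 < κ → κ < k → 0 ≤ c → c ≤ 1 →
    0 < phi F x₀ κ c x → ContDiffAt ℝ 2 (phi F x₀ κ c) x ∧
    ∃ b κ' : ℝ, 0 < b ∧ κ ≤ κ' ∧ κ' ≤ 2 * κ + 1 / 2 ∧
      ‖gradient (phi F x₀ κ c) x -
        b • ContinuousLinearMap.adjoint (fderiv ℝ F x₀) (hat F x)‖ ≤ ε * b ∧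
      ‖‖F x‖ • hs (phi F x₀ κ c) x - b • mdl (fderiv ℝ F x₀)
        (ContinuousLinearMap.adjoint (fderiv ℝ F x₀) (hat F x)) κ'‖ ≤ ε * b

/-- REAL: the algebraic inequality -/
def T_REAL : Prop := ∀ P l x y b μ d : ℝ, 0 < P → 0 < l → 0 < P + l * (2 * P - 1) → 0 ≤ b →
  0 ≤ d → (x ^ 2 + y ^ 2 = 0 → μ = 0) →
  l * x * (P * x ^ 2 + (2 * P - 1) * y ^ 2) + μ * (x ^ 2 + P * y ^ 2) = 0 →
  0 < (x + b) ^ 2 + y ^ 2 →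
  0 < 2 * x * (l * x + μ) + b * (l * x + μ) + ((x + b) ^ 2 + y ^ 2) * (l + 1 + d) +
    (P - 1) * (2 * l * (x ^ 2 + y ^ 2) + b * l * x +
      ((x + b) ^ 2 + y ^ 2 + (l + 1 + d - 2) * (x + b) ^ 2))

/-- ALGA: the linearised inequality in the limit, if the gradient of the sum does not vanish -/
def T_ALGA : Prop := ∀ (n : ℕ) (p k κ' θ β : ℝ) (L : E n →L[ℝ] E 2) (f : E 2) (e g : E n)
  (A : E n →L[ℝ] E n), 1 < p → 1 < k → 0 < (p - 1) + (k - 1) * (2 * p - 3) →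
  Limit p k L f e g A → 0 ≤ θ → 0 ≤ β → θ + β = 1 → k ≤ κ' → θ • g + β • e ≠ 0 →
  0 < brk (p - 2) β (θ • g) e (θ • A) (mdl L e κ')

/-- ALGB: the degenerate inequality in the limit, if the gradient of the sum vanishes -/
def T_ALGB : Prop := ∀ (n : ℕ) (p k κ' θ β : ℝ) (L : E n →L[ℝ] E 2) (f : E 2) (e g ω : E n)
  (A : E n →L[ℝ] E n), 1 < p → 1 < k → Limit p k L f e g A → 0 ≤ θ → 0 ≤ β → θ + β = 1 →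
  k ≤ κ' → θ • g + β • e = 0 → ‖ω‖ = 1 →
  0 < tr (θ • A + β • mdl L e κ') + (p - 2) * ⟪(θ • A + β • mdl L e κ') ω, ω⟫

/-- BDD: a bound for the second derivative -/
def T_BDD : Prop := ∀ (n : ℕ) (p l : ℝ) (L : E n →L[ℝ] E 2), 1 < p → Iso L →
  ∃ C : ℝ, ∀ (f : E 2) (e g : E n) (A : E n →L[ℝ] E n), ‖f‖ = 1 →
    e = ContinuousLinearMap.adjoint L f → ‖g‖ = 1 → (∀ a b : E n, ⟪A a, b⟫ = ⟪a, A b⟫) →
    ‖A e - l • g‖ ≤ 1 → (∀ s : E n, L s = 0 → ‖A s‖ ≤ ‖s‖) →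
    tr A + (p - 2) * ⟪A g, g⟫ = 0 → ‖A‖ ≤ C

/-- UNIF: `tang` in a uniform form -/
def T_UNIF : Prop := ∀ (n : ℕ) (p k : ℝ) (u : E n → ℝ) (x₀ : E n) (F : E n → E 2),
  Conical p k u x₀ F → ∀ ε : ℝ, 0 < ε → ∀ᶠ x in 𝓝[{x | F x ≠ 0}] x₀,
    ∀ s : E n, fderiv ℝ F x₀ s = 0 → ‖F x‖ * ‖hs u x s‖ ≤ ε * ‖s‖ * ‖gradient u x‖

/-- STRICT: the sum of `u` and a multiple of the comparison function is a strict subsolution -/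
def T_STRICT : Prop := ∀ (n : ℕ) (p k : ℝ) (u : E n → ℝ) (x₀ : E n) (F : E n → E 2), 1 < p →
  (∀ᶠ x in 𝓝[{x | F x ≠ 0}] x₀, ContDiffAt ℝ 2 u x ∧ Eqn p u x) → Conical p k u x₀ F →
  ∃ κ, 1 < κ ∧ κ < k ∧ ∀ᶠ x in 𝓝[{x | F x ≠ 0}] x₀, ∀ τ c : ℝ, 0 < τ → 0 ≤ c → c ≤ 1 →
    0 < phi F x₀ κ c x → Strict p (fun y => u y + τ * phi F x₀ κ c y) x

/-- CONN: the complement of a submanifold of codimension two is connected and dense, locally -/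
def T_CONN : Prop := ∀ (n : ℕ) (x₀ : E n) (F : E n → E 2) (W : Set (E n)),
  ContDiffAt ℝ 2 F x₀ → F x₀ = 0 → Iso (fderiv ℝ F x₀) → W ∈ 𝓝 x₀ →
  ∃ N : Set (E n), IsOpen N ∧ x₀ ∈ N ∧ N ⊆ W ∧ IsPreconnected {x ∈ N | F x ≠ 0} ∧
    N ⊆ closure {x ∈ N | F x ≠ 0}

/-- NOTOUCH: `u < v` off the submanifold is impossible -/
def T_NOTOUCH : Prop := ∀ (n : ℕ) (p k : ℝ) (Ω : Set (E n)) (u v : E n → ℝ) (x₀ : E n)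
  (F : E n → E 2), 1 ≤ n → 1 < p → IsOpen Ω → PHarm p Ω u → PHarm p Ω v →
  (∀ x ∈ Ω, u x ≤ v x) → x₀ ∈ Ω → (∀ x ∈ Ω, gradient u x ≠ 0 → ContDiffAt ℝ 2 u x) →
  Conical p k u x₀ F → u x₀ = v x₀ → ¬ ∀ᶠ x in 𝓝[{x | F x ≠ 0}] x₀, u x < v x

/-- CON2: the strong comparison principle at conical points -/
def T_CON2 : Prop := ∀ (n : ℕ) (p k : ℝ) (Ω : Set (E n)) (u v : E n → ℝ) (x₀ : E n)
  (F : E n → E 2), 1 ≤ n → 1 < p → IsOpen Ω → PHarm p Ω u → PHarm p Ω v →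
  (∀ x ∈ Ω, u x ≤ v x) → x₀ ∈ Ω → (∀ x ∈ Ω, gradient u x ≠ 0 → ContDiffAt ℝ 2 u x) →
  Conical p k u x₀ F → u x₀ = v x₀ → ∀ᶠ x in 𝓝 x₀, u x = v x

/-! ## The theorem -/

/-- GLOBAL: from local to global, with an exceptional set of vanishing length -/
def T_GLOBAL : Prop := ∀ (n : ℕ) (p : ℝ) (Ω B : Set (E n)) (u v : E n → ℝ), 2 ≤ n → 1 < p →
  IsOpen Ω → IsConnected Ω → PHarm p Ω u → PHarm p Ω v → (∀ x ∈ Ω, u x ≤ v x) →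
  Measure.hausdorffMeasure 1 B = 0 →
  (∀ x ∈ Ω, x ∉ B → u x = v x → ∀ᶠ y in 𝓝 x, u y = v y) → (∃ x ∈ Ω, u x = v x) →
  ∀ x ∈ Ω, u x = v x

/-- HOMOG: homogeneous functions of two variables -/
def T_HOMOG : Prop := ∀ (n : ℕ) (p k : ℝ) (L : E n →L[ℝ] E 2) (A : E 2 → ℝ) (a : E n) (c : ℝ),
  Iso L → 1 < k → 0 < (p - 1) + (k - 1) * (2 * p - 3) → (∀ z, z ≠ 0 → ContDiffAt ℝ 2 A z) →
  (∀ z, z ≠ 0 → gradient A z ≠ 0) → (∀ t : ℝ, 0 < t → ∀ z, A (t • z) = t ^ k * A z) →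
  (∀ x, L (x - a) ≠ 0 → ContDiffAt ℝ 2 (fun x => A (L (x - a)) + c) x) ∧
  ∀ x₀, L (x₀ - a) = 0 → Conical p k (fun x => A (L (x - a)) + c) x₀ fun x => L (x - a)

/-- MAIN -/
def T_MAIN : Prop := ∀ (n : ℕ) (p : ℝ) (Ω B : Set (E n)) (u v : E n → ℝ), 2 ≤ n → 1 < p →
  IsOpen Ω → IsConnected Ω → PHarm p Ω u → PHarm p Ω v →
  ((∀ x ∈ Ω, u x ≤ v x) ∨ ∀ x ∈ Ω, v x ≤ u x) → (∃ x ∈ Ω, u x = v x) →
  (∀ x ∈ Ω, gradient u x ≠ 0 → ContDiffAt ℝ 2 u x) → Measure.hausdorffMeasure 1 B = 0 →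
  (∀ x ∈ Ω, gradient u x = 0 → x ∉ B → ∃ k F, Conical p k u x F) → ∀ x ∈ Ω, u x = v x

end Pool.Agent.SCP
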