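import Pool.Agent.SCP.Defs2
import Pool.Agent.SCP.Targets

/-!
# HBD: a bound for the second derivative near a point of conical type
-/

set_option autoImplicit false

open Set MeasureTheory Filter Topology Asymptotics Metric
open scoped RealInnerProductSpace

namespace Pool.Agent.SCP

namespace HBD_

variable {n : ℕ}

/-- `tang` in a uniform form -/
theorem unif {p k : ℝ} {u : E n → ℝ} {x₀ : E n} {F : E n → E 2} (hc : ConicalPoint p k u x₀ F)
    {ε : ℝ} (hε : 0 < ε) : ∀ᶠ x in 𝓝[{x | F x ≠ 0}] x₀, ∀ s : E n, fderiv ℝ F x₀ s = 0 →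
      ‖F x‖ * ‖hs u x s‖ ≤ ε * ‖s‖ * ‖gradient u x‖ := by
  set L := fderiv ℝ F x₀ with hL
  set t : Fin n → E n := fun i => EuclideanSpace.single i (1 : ℝ) -
    ContinuousLinearMap.adjoint L (L (EuclideanSpace.single i (1 : ℝ))) with ht
  have hLt : ∀ i, L (t i) = 0 := by
    intro i
    simp only [ht, map_sub]
    rw [hc.iso, sub_self]
  set δ : ℝ := ε / (n + 1) with hδ
  have hδ0 : 0 < δ := by positivity
  have hev : ∀ᶠ x in 𝓝[{x | F x ≠ 0}] x₀, ∀ i : Fin n,
      ‖‖F x‖ • hs u x (t i)‖ ≤ δ * ‖gradient u x‖ := by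
    rw [eventually_all]
    intro i
    exact (hc.tang (t i) (hLt i)).bound hδ0
  filter_upwards [hev] with x hx s hs0
  have hsum : s = ∑ i, s i • t i := by
    have h1 : s = ∑ i, s i • EuclideanSpace.single i (1 : ℝ) := by
      ext j
      simp [Finset.sum_apply, Pi.single_apply]
    have h2 : ∑ i, s i • t i = s - ContinuousLinearMap.adjoint L (L s) := by
      conv_rhs => rw [h1]
      simp only [ht, smul_sub, Finset.sum_sub_distrib, map_sum, map_smul]
    rw [h2, hs0, map_zero, sub_zero]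
  have h3 : ‖F x‖ • hs u x s = ∑ i, s i • (‖F x‖ • hs u x (t i)) := by
    conv_lhs => rw [hsum]
    rw [map_sum, Finset.smul_sum]
    refine Finset.sum_congr rfl fun i _ => ?_
    rw [map_smul, smul_comm]
  have h4 : ‖F x‖ * ‖hs u x s‖ = ‖‖F x‖ • hs u x s‖ := by
    rw [norm_smul, norm_norm]
  rw [h4, h3]
  calc ‖∑ i, s i • (‖F x‖ • hs u x (t i))‖ ≤ ∑ i, ‖s i • (‖F x‖ • hs u x (t i))‖ :=
        norm_sum_le _ _
    _ ≤ ∑ _i : Fin n, ‖s‖ * (δ * ‖gradient u x‖) := by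
        refine Finset.sum_le_sum fun i _ => ?_
        rw [norm_smul]
        exact mul_le_mul (PiLp.norm_apply_le s i) (hx i) (norm_nonneg _) (norm_nonneg _)
    _ = (n * δ) * ‖s‖ * ‖gradient u x‖ := by
        rw [Finset.sum_const, Finset.card_univ, Fintype.card_fin, nsmul_eq_mul]; ring
    _ ≤ ε * ‖s‖ * ‖gradient u x‖ := by
        have : n * δ ≤ ε := by
          rw [hδ, mul_div_assoc', div_le_iff₀ (by positivity)]
          nlinarith
        gcongr

/-- the bound at one point -/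
theorem step {p k C : ℝ} {u : E n → ℝ} {x₀ x : E n} {F : E n → E 2}
    (hC : ∀ (f : E 2) (e g : E n) (A : E n →L[ℝ] E n), ‖f‖ = 1 →
      e = ContinuousLinearMap.adjoint (fderiv ℝ F x₀) f → ‖g‖ = 1 →
      (∀ a b : E n, ⟪A a, b⟫ = ⟪a, A b⟫) → ‖A e - (k - 1) • g‖ ≤ 1 →
      (∀ s : E n, fderiv ℝ F x₀ s = 0 → ‖A s‖ ≤ ‖s‖) →
      tr A + (p - 2) * ⟪A g, g⟫ = 0 → ‖A‖ ≤ C)
    (hF : F x ≠ 0) (hG : gradient u x ≠ 0) (hu : ContDiffAt ℝ 2 u x) (heq : Eqn p u x)
    (hrad : ‖hs u x (ContinuousLinearMap.adjoint (fderiv ℝ F x₀) (F x)) -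
      (k - 1) • gradient u x‖ ≤ 1 * ‖gradient u x‖)
    (htang : ∀ s : E n, fderiv ℝ F x₀ s = 0 →
      ‖F x‖ * ‖hs u x s‖ ≤ 1 * ‖s‖ * ‖gradient u x‖) :
    ‖F x‖ * ‖hs u x‖ ≤ C * ‖gradient u x‖ := by
  set L := fderiv ℝ F x₀ with hL
  have hρ : 0 < ‖F x‖ := norm_pos_iff.2 hF
  have ha : 0 < ‖gradient u x‖ := norm_pos_iff.2 hG
  have hA : ‖(‖F x‖ / ‖gradient u x‖) • hs u x‖ ≤ C := by
    refine hC (hat F x) _ (‖gradient u x‖⁻¹ • gradient u x) _ ?_ rfl ?_ ?_ ?_ ?_ ?_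
    · rw [hat, norm_smul, norm_inv, norm_norm, inv_mul_cancel₀ hρ.ne']
    · rw [norm_smul, norm_inv, norm_norm, inv_mul_cancel₀ ha.ne']
    · intro a b
      rw [smul_apply, smul_apply, inner_smul_left, inner_smul_right, hs_symm hu,
        RCLike.conj_to_real]
    · have e1 : ((‖F x‖ / ‖gradient u x‖) • hs u x) (ContinuousLinearMap.adjoint L (hat F x)) -
          (k - 1) • (‖gradient u x‖⁻¹ • gradient u x) =
          ‖gradient u x‖⁻¹ • (hs u x (ContinuousLinearMap.adjoint L (F x)) -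
            (k - 1) • gradient u x) := by
        rw [smul_apply, hat, map_smul, map_smul, smul_smul, smul_sub, smul_comm (k - 1)]
        congr 2
        field_simp
      rw [e1, norm_smul, norm_inv, norm_norm, inv_mul_le_iff₀ ha]
      linarith
    · intro s hs0
      rw [smul_apply, norm_smul, Real.norm_eq_abs, abs_of_pos (by positivity),
        div_mul_eq_mul_div, div_le_iff₀ ha]
      simpa using htang s hs0
    · rw [tr_smul, smul_apply, map_smul, inner_smul_left, inner_smul_left, inner_smul_right]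
      simp only [RCLike.conj_to_real]
      have h5 : ‖gradient u x‖ ^ 2 * tr (hs u x) +
        (p - 2) * ⟪hs u x (gradient u x), gradient u x⟫ = 0 := heq
      have h6 : ‖F x‖ / ‖gradient u x‖ * tr (hs u x) + (p - 2) * (‖F x‖ / ‖gradient u x‖ *
          (‖gradient u x‖⁻¹ * (‖gradient u x‖⁻¹ * ⟪hs u x (gradient u x), gradient u x⟫))) =
          ‖F x‖ / ‖gradient u x‖ ^ 3 * (‖gradient u x‖ ^ 2 * tr (hs u x) +
            (p - 2) * ⟪hs u x (gradient u x), gradient u x⟫) := by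
        field_simp
      rw [h5, mul_zero] at h6
      linarith [h6]
  rw [norm_smul, Real.norm_eq_abs, abs_of_pos (by positivity), div_mul_eq_mul_div,
    div_le_iff₀ ha] at hA
  exact hA

end HBD_

theorem hbd (hB : T_BDD) : T_HBD := by
  intro n p k u x₀ F hp hu hc
  obtain ⟨C, hC⟩ := hB n p (k - 1) (fderiv ℝ F x₀) hp hc.iso
  refine ⟨C, ?_⟩
  have h1 : ∀ᶠ x in 𝓝[{x | F x ≠ 0}] x₀, F x ≠ 0 := self_mem_nhdsWithin
  filter_upwards [h1, hc.regular.filter_mono nhdsWithin_le_nhds, hu, hc.radial.bound one_pos,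
    HBD_.unif hc one_pos] with x hF hG hu2 hr ht
  exact HBD_.step hC hF (hG hF) hu2.1 hu2.2 hr ht

end Pool.Agent.SCP
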