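import Pool.Agent.SCP.Targets

/-!
# HOMOG: homogeneous functions of two variables are conical
-/

set_option autoImplicit false

open Set MeasureTheory Filter Topology Asymptotics Metric
open scoped RealInnerProductSpace

namespace Pool.Agent.SCP

namespace HOMOG_

variable {n : ℕ}

theorem aff (L : E n →L[ℝ] E 2) (a x : E n) : HasFDerivAt (fun x => L (x - a)) L x := by
  have h2 : HasFDerivAt (fun x : E n => x - a) (ContinuousLinearMap.id ℝ (E n)) x :=
    (hasFDerivAt_id x).sub_const a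
  have h3 := L.hasFDerivAt.comp x h2
  rw [ContinuousLinearMap.comp_id] at h3
  exact h3

/-- gradient of a composition with an affine map -/
theorem grad_comp {L : E n →L[ℝ] E 2} {A : E 2 → ℝ} {a : E n} {c : ℝ} {x : E n}
    (h : DifferentiableAt ℝ A (L (x - a))) :
    gradient (fun x => A (L (x - a)) + c) x =
      ContinuousLinearMap.adjoint L (gradient A (L (x - a))) := by
  have h1 : HasFDerivAt (fun x => L (x - a)) L x := aff L a x
  have h4 : HasFDerivAt (fun x => A (L (x - a)) + c) ((fderiv ℝ A (L (x - a))).comp L) x :=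
    (h.hasFDerivAt.comp x h1).add_const c
  apply ext_inner_right ℝ
  intro v
  rw [gradient_eq_symm, InnerProductSpace.toDual_symm_apply, h4.fderiv,
    ContinuousLinearMap.adjoint_inner_left, gradient_eq_symm,
    InnerProductSpace.toDual_symm_apply]
  rfl

/-- second derivative of a composition with an affine map -/
theorem hs_comp {L : E n →L[ℝ] E 2} {A : E 2 → ℝ} {a : E n} {c : ℝ} {x : E n}
    (h : ContDiffAt ℝ 2 A (L (x - a))) (v : E n) :
    hs (fun x => A (L (x - a)) + c) x v =
      ContinuousLinearMap.adjoint L (hs A (L (x - a)) (L v)) := by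
  have hc : Continuous (fun y : E n => L (y - a)) := by fun_prop
  have h1 : gradient (fun x => A (L (x - a)) + c) =ᶠ[𝓝 x]
      fun y => ContinuousLinearMap.adjoint L (gradient A (L (y - a))) := by
    have h2 : ∀ᶠ y in 𝓝 x, ContDiffAt ℝ 2 A (L (y - a)) :=
      hc.continuousAt.eventually (h.eventually (by simp))
    filter_upwards [h2] with y hy
    exact grad_comp (hy.differentiableAt (by norm_num))
  have h3 : HasFDerivAt (gradient A) (hs A (L (x - a))) (L (x - a)) :=
    ((contDiffAt_gradient h).differentiableAt (by norm_num)).hasFDerivAt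
  have h4 : HasFDerivAt (fun x => L (x - a)) L x := aff L a x
  have h5 := (ContinuousLinearMap.adjoint L).hasFDerivAt.comp x (h3.comp x h4)
  have h6 : hs (fun x => A (L (x - a)) + c) x =
      (ContinuousLinearMap.adjoint L).comp ((hs A (L (x - a))).comp L) := by
    unfold hs
    rw [h1.fderiv_eq]
    exact h5.fderiv
  rw [h6]
  rfl

/-- homogeneity of the gradient -/
theorem grad_homog {A : E 2 → ℝ} {k : ℝ} (hA : ∀ z, z ≠ 0 → ContDiffAt ℝ 2 A z)
    (hom : ∀ t : ℝ, 0 < t → ∀ z, A (t • z) = t ^ k * A z) {t : ℝ} (ht : 0 < t) {z : E 2}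
    (hz : z ≠ 0) : gradient A (t • z) = t ^ (k - 1) • gradient A z := by
  have hz' : t • z ≠ 0 := smul_ne_zero ht.ne' hz
  have h1 : HasFDerivAt A (fderiv ℝ A (t • z)) (t • z) :=
    ((hA _ hz').differentiableAt (by norm_num)).hasFDerivAt
  have h2 : HasFDerivAt (fun y : E 2 => t • y) (t • ContinuousLinearMap.id ℝ (E 2)) z :=
    (hasFDerivAt_id z).const_smul t
  have h3 : HasFDerivAt (fun y => A (t • y))
      ((fderiv ℝ A (t • z)).comp (t • ContinuousLinearMap.id ℝ (E 2))) z := h1.comp z h2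
  have h4 : HasFDerivAt (fun y => A (t • y)) (t ^ k • fderiv ℝ A z) z := by
    have h5 : HasFDerivAt A (fderiv ℝ A z) z :=
      ((hA _ hz).differentiableAt (by norm_num)).hasFDerivAt
    have h6 := h5.const_mul (t ^ k)
    refine h6.congr_of_eventuallyEq (Eventually.of_forall fun y => hom t ht y)
  have h5 := h3.unique h4
  apply ext_inner_right ℝ
  intro v
  rw [gradient_eq_symm, InnerProductSpace.toDual_symm_apply, inner_smul_left,
    gradient_eq_symm, InnerProductSpace.toDual_symm_apply]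
  have h6 := congrArg (fun T : E 2 →L[ℝ] ℝ => T v) h5
  simp only [ContinuousLinearMap.comp_apply, smul_apply,
    ContinuousLinearMap.id_apply, map_smul, smul_eq_mul] at h6
  have h7 : t ^ k = t * t ^ (k - 1) := by
    rw [Real.rpow_sub_one ht.ne']
    field_simp
  rw [h7, mul_assoc] at h6
  exact mul_left_cancel₀ ht.ne' h6

/-- Euler -/
theorem euler {A : E 2 → ℝ} {k : ℝ} (hA : ∀ z, z ≠ 0 → ContDiffAt ℝ 2 A z)
    (hom : ∀ t : ℝ, 0 < t → ∀ z, A (t • z) = t ^ k * A z) {z : E 2}
    (hz : z ≠ 0) : hs A z z = (k - 1) • gradient A z := by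
  have h3 : HasFDerivAt (gradient A) (hs A z) ((1 : ℝ) • z) := by
    rw [one_smul]
    exact ((contDiffAt_gradient (hA z hz)).differentiableAt (by norm_num)).hasFDerivAt
  have h4 : HasDerivAt (fun t : ℝ => t • z) ((1 : ℝ) • z) 1 := (hasDerivAt_id (1 : ℝ)).smul_const z
  have h5 : HasDerivAt (fun t : ℝ => gradient A (t • z)) (hs A z ((1 : ℝ) • z)) 1 :=
    HasFDerivAt.comp_hasDerivAt (f := fun t : ℝ => t • z) (1 : ℝ) h3 h4
  have h6 : HasDerivAt (fun t : ℝ => t ^ (k - 1)) ((k - 1) * 1 ^ (k - 1 - 1)) 1 :=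
    Real.hasDerivAt_rpow_const (Or.inl one_ne_zero)
  have h7 := h6.smul_const (gradient A z)
  have h8 : (fun t : ℝ => gradient A (t • z)) =ᶠ[𝓝 1] fun t => t ^ (k - 1) • gradient A z := by
    filter_upwards [lt_mem_nhds (zero_lt_one (α := ℝ))] with t ht
    exact grad_homog hA hom ht hz
  have h9 := h5.unique (h7.congr_of_eventuallyEq h8)
  rw [one_smul, Real.one_rpow, mul_one] at h9
  exact h9

/-- growth -/
theorem growth {A : E 2 → ℝ} {k : ℝ} (hA : ∀ z, z ≠ 0 → ContDiffAt ℝ 2 A z)
    (hom : ∀ t : ℝ, 0 < t → ∀ z, A (t • z) = t ^ k * A z) :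
    ∃ C : ℝ, 0 ≤ C ∧ ∀ z, z ≠ 0 → |A z| ≤ C * ‖z‖ ^ k := by
  have h1 : IsCompact (sphere (0 : E 2) 1) := isCompact_sphere 0 1
  have h2 : ContinuousOn (fun z => |A z|) (sphere (0 : E 2) 1) := by
    intro z hz
    have hz0 : z ≠ 0 := by
      rintro rfl
      simp at hz
    exact (hA z hz0).continuousAt.abs.continuousWithinAt
  obtain ⟨C, hC⟩ := h1.bddAbove_image h2
  refine ⟨max C 0, le_max_right _ _, fun z hz => ?_⟩
  have hn : 0 < ‖z‖ := norm_pos_iff.2 hz
  have h3 : z = ‖z‖ • (‖z‖⁻¹ • z) := by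
    rw [smul_smul, mul_inv_cancel₀ hn.ne', one_smul]
  have h4 : ‖z‖⁻¹ • z ∈ sphere (0 : E 2) 1 := by
    rw [mem_sphere_zero_iff_norm, norm_smul, norm_inv, norm_norm, inv_mul_cancel₀ hn.ne']
  have h5 : |A (‖z‖⁻¹ • z)| ≤ C := hC (mem_image_of_mem _ h4)
  have h6 : A z = ‖z‖ ^ k * A (‖z‖⁻¹ • z) := by
    conv_lhs => rw [h3]
    exact hom _ hn _
  rw [h6, abs_mul, abs_of_nonneg (by positivity), mul_comm]
  gcongr
  exact h5.trans (le_max_left _ _)

end HOMOG_

open HOMOG_ in
theorem homog : T_HOMOG := by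
  intro n p k L A a c hL hk hp hA hA' hom
  have hc : Continuous (fun y : E n => L (y - a)) := by fun_prop
  have hsm : ∀ x : E n, ContDiffAt ℝ 2 (fun x => L (x - a)) x := by
    intro x
    fun_prop
  have hF : ∀ x : E n, fderiv ℝ (fun x => L (x - a)) x = L := fun x => (aff L a x).fderiv
  refine ⟨fun x hx => ?_, fun x₀ hx₀ => ?_⟩
  · exact ((hA _ hx).comp x (hsm x)).add contDiffAt_const
  · have hz : ∀ x, L (x - a) ≠ 0 → gradient (fun x => A (L (x - a)) + c) x =
        ContinuousLinearMap.adjoint L (gradient A (L (x - a))) :=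
      fun x hx => grad_comp ((hA _ hx).differentiableAt (by norm_num))
    have hh : ∀ x, L (x - a) ≠ 0 → ∀ v, hs (fun x => A (L (x - a)) + c) x v =
        ContinuousLinearMap.adjoint L (hs A (L (x - a)) (L v)) :=
      fun x hx v => hs_comp (hA _ hx) v
    refine ⟨hsm x₀, hx₀, ?_, hk, hp, ?_, ?_, ?_, ?_⟩
    · rw [hF]
      exact hL
    · refine Eventually.of_forall fun x hx h0 => ?_
      rw [hz x hx] at h0
      have h1 := norm_adjoint hL (gradient A (L (x - a)))
      rw [h0, norm_zero] at h1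
      exact hA' _ hx (norm_eq_zero.1 h1.symm)
    · rw [hF]
      refine (isLittleO_zero _ _).congr' ?_ EventuallyEq.rfl
      filter_upwards [self_mem_nhdsWithin] with x hx
      have hx' : L (x - a) ≠ 0 := hx
      rw [hh x hx', hL, euler hA hom hx', hz x hx', map_smul, sub_self]
    · rw [hF]
      intro s hs0
      refine (isLittleO_zero _ _).congr' ?_ EventuallyEq.rfl
      filter_upwards [self_mem_nhdsWithin] with x hx
      have hx' : L (x - a) ≠ 0 := hx
      rw [hh x hx', hs0, map_zero, map_zero, smul_zero]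
    · intro κ hκ
      obtain ⟨C, hC, hgr⟩ := growth hA hom
      have hA0 : A 0 = 0 := by
        have h1 := hom 2 (by norm_num) 0
        rw [smul_zero] at h1
        have h2 : (1 : ℝ) < 2 ^ k := Real.one_lt_rpow (by norm_num) (by linarith)
        nlinarith
      rw [isLittleO_iff]
      intro ε hε
      -- `C |w|^(k-κ) ≤ ε` near `x₀`
      have h1 : Tendsto (fun x : E n => C * ‖L (x - a)‖ ^ (k - κ)) (𝓝 x₀) (𝓝 0) := by
        have h2 : Tendsto (fun x : E n => ‖L (x - a)‖) (𝓝 x₀) (𝓝 0) := by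
          have := (hc.norm).tendsto x₀
          simpa [hx₀] using this
        have h3 : Tendsto (fun y : ℝ => y ^ (k - κ)) (𝓝 0) (𝓝 0) := by
          have h4 := (Real.continuousAt_rpow_const (0 : ℝ) (k - κ)
            (Or.inr (by linarith))).tendsto
          rwa [Real.zero_rpow (by linarith)] at h4
        have h5 := (h3.comp h2).const_mul C
        simpa using h5
      have h2 : ∀ᶠ x in 𝓝 x₀, C * ‖L (x - a)‖ ^ (k - κ) < ε := h1.eventually (gt_mem_nhds hε)
      filter_upwards [self_mem_nhdsWithin, nhdsWithin_le_nhds h2] with x hx hx2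
      have hx' : L (x - a) ≠ 0 := hx
      have hn : 0 < ‖L (x - a)‖ := norm_pos_iff.2 hx'
      rw [hx₀, hA0]
      have e1 : A (L (x - a)) + c - (0 + c) = A (L (x - a)) := by ring
      rw [e1, Real.norm_eq_abs, Real.norm_of_nonneg (Real.rpow_nonneg hn.le κ)]
      calc |A (L (x - a))| ≤ C * ‖L (x - a)‖ ^ k := hgr _ hx'
        _ = (C * ‖L (x - a)‖ ^ (k - κ)) * ‖L (x - a)‖ ^ κ := by
            rw [mul_assoc, ← Real.rpow_add hn, sub_add_cancel]
        _ ≤ ε * ‖L (x - a)‖ ^ κ := by gcongr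

end Pool.Agent.SCP
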