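import Pool.Agent.SCP.Targets

/-!
# The Hopf type argument
-/

set_option autoImplicit false

open Set MeasureTheory Filter Topology Asymptotics Metric
open scoped RealInnerProductSpace

namespace Pool.Agent.SCP

namespace HOPF_

variable {n : ℕ}

/-- the polynomial part of the barrier -/
noncomputable def eta (x₂ ν : E n) (α β : ℝ) (y : E n) : ℝ :=
  ⟪y - x₂, ν⟫ + α * ⟪y - x₂, ν⟫ ^ 2 - β * ‖y - x₂‖ ^ 2

theorem bar_eq (u : E n → ℝ) (x₂ ν : E n) (α β ε : ℝ) (y : E n) :
    bar u x₂ ν α β ε y = u y + ε * eta x₂ ν α β y := rfl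

theorem eta_cont (x₂ ν : E n) (α β : ℝ) : Continuous (eta x₂ ν α β) := by
  unfold eta
  fun_prop

theorem eta_self (x₂ ν : E n) (α β : ℝ) : eta x₂ ν α β x₂ = 0 := by
  simp [eta]

/-- bound of `eta` on a sphere -/
theorem eta_le {x₂ ν x : E n} {α β r : ℝ} (hν : ‖ν‖ = 1) (hα : 0 < α) (hβ : 0 < β)
    (hx : ‖x - x₂‖ = r) : eta x₂ ν α β x ≤ r + α * r ^ 2 := by
  have h1 : |⟪x - x₂, ν⟫| ≤ r := by
    have := abs_real_inner_le_norm (x - x₂) ν
    rwa [hν, mul_one, hx] at this
  have h2 : ⟪x - x₂, ν⟫ ≤ r := (le_abs_self _).trans h1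
  have h3 : ⟪x - x₂, ν⟫ ^ 2 ≤ r ^ 2 := by
    rw [← sq_abs]
    exact pow_le_pow_left₀ (abs_nonneg _) h1 2
  have h4 : 0 ≤ β * ‖x - x₂‖ ^ 2 := by positivity
  have h5 : α * ⟪x - x₂, ν⟫ ^ 2 ≤ α * r ^ 2 := mul_le_mul_of_nonneg_left h3 hα.le
  unfold eta
  linarith

/-- where `eta` is nonnegative the point is inside of the touching ball -/
theorem inside {x₂ ν x : E n} {α R r : ℝ} (hν : ‖ν‖ = 1) (hα : 0 < α) (hR : 0 < R) (hr : 0 < r)
    (har : α * r ≤ 1) (hx : ‖x - x₂‖ = r) (he : 0 ≤ eta x₂ ν α (2 / R) x) :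
    dist x (x₂ + R • ν) < R := by
  have h1 : |⟪x - x₂, ν⟫| ≤ r := by
    have := abs_real_inner_le_norm (x - x₂) ν
    rwa [hν, mul_one, hx] at this
  obtain ⟨h2, h3⟩ := abs_le.1 h1
  set t : ℝ := ⟪x - x₂, ν⟫ with ht
  have he' : 0 ≤ t + α * t ^ 2 - 2 / R * r ^ 2 := by
    have := he
    unfold eta at this
    rwa [hx] at this
  have hb : 0 < 2 / R * r ^ 2 := by positivity
  have htp : 0 < t := by
    by_contra hc
    push Not at hc
    have h4 : 0 ≤ 1 + α * t := by
      have : α * (-r) ≤ α * t := mul_le_mul_of_nonneg_left h2 hα.le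
      nlinarith
    have h5 : t + α * t ^ 2 ≤ 0 := by
      have : t * (1 + α * t) ≤ 0 := mul_nonpos_of_nonpos_of_nonneg hc h4
      nlinarith
    linarith
  have h6 : α * t ^ 2 ≤ t := by
    have h7 : α * t ≤ 1 := (mul_le_mul_of_nonneg_left h3 hα.le).trans har
    nlinarith
  have h8 : 2 / R * r ^ 2 ≤ 2 * t := by linarith
  have h9 : r ^ 2 ≤ R * t := by
    have h10 : 2 / R * r ^ 2 * R ≤ 2 * t * R := mul_le_mul_of_nonneg_right h8 hR.le
    have h11 : 2 / R * r ^ 2 * R = 2 * r ^ 2 := by field_simp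
    rw [h11] at h10
    linarith
  have h12 : dist x (x₂ + R • ν) ^ 2 = r ^ 2 - 2 * (R * t) + R ^ 2 := by
    rw [dist_eq_norm, show x - (x₂ + R • ν) = (x - x₂) - R • ν by abel, norm_sub_sq_real, hx,
      inner_smul_right, norm_smul, hν, Real.norm_of_nonneg hR.le, mul_one]
  have h13 : dist x (x₂ + R • ν) ^ 2 < R ^ 2 := by
    rw [h12]
    have : 0 < r ^ 2 := by positivity
    linarith
  exact lt_of_pow_lt_pow_left₀ 2 hR.le h13

end HOPF_

open HOPF_

theorem hopf (touch : T_TOUCH) : T_HOPF := by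
  intro n p N u v x₁ hn hp hN hv hu huv hx₁ h₁ hbar
  by_contra hcon
  have hfreq : ∃ᶠ x in 𝓝 x₁, u x ≠ v x := by
    intro h
    exact hcon (h.mono fun x hx => not_not.1 hx)
  have hvc : ContinuousOn v N := hv.1.continuousOn
  obtain ⟨ρ, hρ, hρN⟩ := nhds_basis_closedBall.mem_iff.1 (hN.mem_nhds hx₁)
  obtain ⟨z, hz1, hz2⟩ := (hfreq.and_eventually (ball_mem_nhds x₁ (by positivity : 0 < ρ / 4))).exists
  -- the contact set
  set K : Set (E n) := {x | x ∈ closedBall x₁ ρ ∧ u x = v x} with hK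
  have hKc : IsCompact K := by
    have h1 : ContinuousOn (fun x => v x - u x) (closedBall x₁ ρ) :=
      (hvc.mono hρN).sub (hu.mono hρN)
    have h2 := h1.preimage_isClosed_of_isClosed isClosed_closedBall isClosed_singleton
      (t := {(0 : ℝ)})
    refine (isCompact_closedBall x₁ ρ).of_isClosed_subset ?_ (fun x hx => hx.1)
    have h3 : K = closedBall x₁ ρ ∩ (fun x => v x - u x) ⁻¹' {0} := by
      apply Set.ext
      intro x
      constructor
      · rintro ⟨h4, h5⟩
        exact ⟨h4, by show v x - u x = 0; linarith⟩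
      · rintro ⟨h4, h5⟩
        exact ⟨h4, by have h6 : v x - u x = 0 := h5; linarith⟩
    rw [h3]
    exact h2
  have hx₁K : x₁ ∈ K := ⟨mem_closedBall_self hρ.le, h₁⟩
  obtain ⟨x₂, hx₂K, hmin⟩ := hKc.exists_isMinOn ⟨x₁, hx₁K⟩
    (continuous_const.dist continuous_id : Continuous fun y => dist z y).continuousOn
  have hmin' : ∀ y ∈ K, dist z x₂ ≤ dist z y := fun y hy => hmin hy
  have hR1 : 0 < dist z x₂ := by
    rw [dist_pos]
    rintro rfl
    exact hz1 hx₂K.2
  have hzx₁ : dist z x₁ < ρ / 4 := hz2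
  have hzx₂ : dist z x₂ < ρ / 4 := (hmin' x₁ hx₁K).trans_lt hzx₁
  have hx₂x₁ : dist x₂ x₁ < ρ / 2 := by
    have := dist_triangle x₂ z x₁
    rw [dist_comm x₂ z] at this
    linarith
  set R : ℝ := dist z x₂ / 2 with hR
  have hRpos : 0 < R := by positivity
  have h2R : dist z x₂ = 2 * R := by rw [hR]; ring
  set ν : E n := (dist z x₂)⁻¹ • (z - x₂) with hνdef
  have hν : ‖ν‖ = 1 := by
    rw [hνdef, norm_smul, norm_inv, Real.norm_of_nonneg hR1.le, ← dist_eq_norm,
      inv_mul_cancel₀ hR1.ne']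
  have hz' : dist z (x₂ + R • ν) ≤ R := by
    have h1 : z - (x₂ + R • ν) = R • ν := by
      have h3 : dist z x₂ • ν = z - x₂ := by
        rw [hνdef, smul_smul, mul_inv_cancel₀ hR1.ne', one_smul]
      have h4 : z = x₂ + dist z x₂ • ν := by rw [h3]; abel
      calc z - (x₂ + R • ν) = (x₂ + dist z x₂ • ν) - (x₂ + R • ν) := by rw [← h4]
        _ = (dist z x₂ - R) • ν := by rw [sub_smul]; abel
        _ = R • ν := by congr 1; rw [h2R]; ring
    rw [dist_eq_norm, h1, norm_smul, hν, Real.norm_of_nonneg hRpos.le, mul_one]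
  have houtK : ∀ x, dist x (x₂ + R • ν) < R → x ∉ K := by
    intro x hx hxK
    have h1 := hmin' x hxK
    have h2 := dist_triangle z (x₂ + R • ν) x
    rw [dist_comm (x₂ + R • ν) x] at h2
    linarith
  -- the barrier
  have hx₂N : x₂ ∈ N := hρN hx₂K.1
  obtain ⟨α, r₀, ε₀, hα, hr₀, hε₀, hstr⟩ := hbar x₂ hx₂N ν hν (2 / R) (by positivity)
  set r : ℝ := min (r₀ / 2) (min (1 / α) (ρ / 2)) with hr
  have hrpos : 0 < r := by
    rw [hr]
    positivity
  have hr1 : r < r₀ := by
    have : r ≤ r₀ / 2 := min_le_left _ _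
    linarith
  have hr2 : α * r ≤ 1 := by
    have h1 : r ≤ 1 / α := (min_le_right _ _).trans (min_le_left _ _)
    have h2 := mul_le_mul_of_nonneg_left h1 hα.le
    rwa [mul_one_div_cancel hα.ne'] at h2
  have hr3 : r ≤ ρ / 2 := (min_le_right _ _).trans (min_le_right _ _)
  have hball : closedBall x₂ r ⊆ closedBall x₁ ρ := by
    intro x hx
    rw [mem_closedBall] at hx ⊢
    have := dist_triangle x x₂ x₁
    linarith
  have hballN : closedBall x₂ r ⊆ N := hball.trans hρN
  -- the part of the sphere where `eta` is nonnegative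
  set A : Set (E n) := {x | x ∈ sphere x₂ r ∧ 0 ≤ eta x₂ ν α (2 / R) x} with hA
  have hAc : IsCompact A :=
    (isCompact_sphere x₂ r).inter_right (isClosed_le continuous_const (eta_cont _ _ _ _))
  have hAsub : A ⊆ closedBall x₂ r := fun x hx => sphere_subset_closedBall hx.1
  have hApos : ∀ x ∈ A, 0 < v x - u x := by
    intro x hx
    have hxn : ‖x - x₂‖ = r := by rw [← dist_eq_norm]; exact hx.1
    have h1 := houtK x (inside hν hα hRpos hrpos hr2 hxn hx.2)
    have h2 : u x ≠ v x := fun h => h1 ⟨hball (hAsub hx), h⟩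
    have h3 := huv x (hballN (hAsub hx))
    have h4 : u x < v x := lt_of_le_of_ne h3 h2
    linarith
  obtain ⟨δ, hδ, hδA⟩ : ∃ δ : ℝ, 0 < δ ∧ ∀ x ∈ A, δ ≤ v x - u x := by
    rcases A.eq_empty_or_nonempty with h0 | hne
    · exact ⟨1, one_pos, fun x hx => by rw [h0] at hx; exact absurd hx (notMem_empty x)⟩
    · obtain ⟨y, hy, hymin⟩ := hAc.exists_isMinOn hne
        (((hvc.mono hballN).sub (hu.mono hballN)).mono hAsub)
      exact ⟨v y - u y, hApos y hy, fun x hx => hymin hx⟩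
  have hM : 0 < r + α * r ^ 2 := by positivity
  set ε : ℝ := min (ε₀ / 2) (δ / (2 * (r + α * r ^ 2))) with hε
  have hεpos : 0 < ε := by
    rw [hε]
    positivity
  have hε1 : ε < ε₀ := by
    have : ε ≤ ε₀ / 2 := min_le_left _ _
    linarith
  have hε2 : ε * (r + α * r ^ 2) < δ := by
    have h1 : ε ≤ δ / (2 * (r + α * r ^ 2)) := min_le_right _ _
    have h2 := mul_le_mul_of_nonneg_right h1 hM.le
    have h3 : δ / (2 * (r + α * r ^ 2)) * (r + α * r ^ 2) = δ / 2 := by
      field_simp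
    rw [h3] at h2
    linarith
  set H : E n → ℝ := bar u x₂ ν α (2 / R) ε with hH
  have hHs : ∀ x ∈ sphere x₂ r, H x - v x < 0 := by
    intro x hx
    have hxn : ‖x - x₂‖ = r := by rw [← dist_eq_norm]; exact hx
    have hxu := huv x (hballN (sphere_subset_closedBall hx))
    rw [hH, bar_eq]
    rcases le_or_gt 0 (eta x₂ ν α (2 / R) x) with h | h
    · have h1 := hδA x ⟨hx, h⟩
      have h2 := mul_le_mul_of_nonneg_left
        (eta_le (β := 2 / R) hν hα (by positivity) hxn) hεpos.le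
      linarith
    · have := mul_neg_of_pos_of_neg hεpos h
      linarith
  have hHc : ContinuousOn (fun x => H x - v x) (closedBall x₂ r) := by
    refine ContinuousOn.sub ?_ (hvc.mono hballN)
    have : H = fun x => u x + ε * eta x₂ ν α (2 / R) x := by
      funext x; rfl
    rw [this]
    exact (hu.mono hballN).add ((continuous_const.mul (eta_cont _ _ _ _)).continuousOn)
  obtain ⟨y, hy, hymax⟩ := (isCompact_closedBall x₂ r).exists_isMaxOn
    ⟨x₂, mem_closedBall_self hrpos.le⟩ hHc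
  have hymax' : ∀ x ∈ closedBall x₂ r, H x - v x ≤ H y - v y := fun x hx => hymax hx
  have hHx₂ : H x₂ - v x₂ = 0 := by
    rw [hH, bar_eq, eta_self, mul_zero, add_zero, hx₂K.2, sub_self]
  have hy0 : 0 ≤ H y - v y := by
    rw [← hHx₂]
    exact hymax' x₂ (mem_closedBall_self hrpos.le)
  have hyb : y ∈ ball x₂ r := by
    rw [mem_ball]
    refine lt_of_le_of_ne hy fun h => ?_
    have := hHs y h
    linarith
  have hstrict : Strict p H y := hstr ε hεpos hε1 y (ball_subset_ball hr1.le hyb)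
  refine touch n p N v H y hn hp hN hv (hballN hy) hstrict ?_
  filter_upwards [closedBall_mem_nhds_of_mem hyb] with x hx
  exact hymax' x hx

end Pool.Agent.SCP
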