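import Pool.Agent.SCP.Targets

/-!
# The theorem from the targets
-/

set_option autoImplicit false

open Set MeasureTheory Filter Topology Asymptotics Metric
open scoped RealInnerProductSpace

namespace Pool.Agent.SCP

theorem main_le (hNON : T_NONCRIT) (hCON : T_CON2) (hGLO : T_GLOBAL) (n : ℕ) (p : ℝ)
    (Ω B : Set (E n)) (u v : E n → ℝ) (hn : 2 ≤ n) (hp : 1 < p) (hΩ : IsOpen Ω)
    (hc : IsConnected Ω) (hu : PHarm p Ω u) (hv : PHarm p Ω v) (huv : ∀ x ∈ Ω, u x ≤ v x)
    (hx : ∃ x ∈ Ω, u x = v x) (hreg : ∀ x ∈ Ω, gradient u x ≠ 0 → ContDiffAt ℝ 2 u x)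
    (hB : Measure.hausdorffMeasure 1 B = 0)
    (hcon : ∀ x ∈ Ω, gradient u x = 0 → x ∉ B → ∃ k F, Conical p k u x F) :
    ∀ x ∈ Ω, u x = v x := by
  apply hGLO n p Ω B u v hn hp hΩ hc hu hv huv hB ?_ hx
  intro x hx hxB hxe
  by_cases hg : gradient u x = 0
  · obtain ⟨k, F, hC⟩ := hcon x hx hg hxB
    exact hCON n p k Ω u v x F (by omega) hp hΩ hu hv huv hx hreg hC hxe
  · exact hNON n p Ω u v x (by omega) hp hΩ hu hv huv hx (hreg x hx hg) hg hxe

theorem main (hNON : T_NONCRIT) (hCON : T_CON2) (hGLO : T_GLOBAL) (hNEG : T_NEG) : T_MAIN := by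
  intro n p Ω B u v hn hp hΩ hc hu hv huv hx hreg hB hcon
  rcases huv with huv | huv
  · exact main_le hNON hCON hGLO n p Ω B u v hn hp hΩ hc hu hv huv hx hreg hB hcon
  · have hneg := fun k => hNEG n p k Ω u
    have key := main_le hNON hCON hGLO n p Ω B (fun x => - u x) (fun x => - v x) hn hp hΩ hc
      ((hneg 0).1 hu) ((hNEG n p 0 Ω v).1 hv) (fun x hx => neg_le_neg (huv x hx))
      (by
        obtain ⟨x, hx, hxe⟩ := hx
        exact ⟨x, hx, by simp [hxe]⟩)
      (by
        intro x hx hg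
        refine (hreg x hx ?_).neg
        intro h0
        apply hg
        rw [(hneg 0).2.2 x, h0, neg_zero]) hB
      (by
        intro x hx hg hxB
        have h0 : gradient u x = 0 := by
          have := (hneg 0).2.2 x
          rw [hg] at this
          exact neg_eq_zero.1 this.symm
        obtain ⟨k, F, hC⟩ := hcon x hx h0 hxB
        exact ⟨k, F, (hneg k).2.1 x F hC⟩)
    intro x hx
    have := key x hx
    simpa using this

namespace MAIN_

variable {n : ℕ}

theorem gradient_comp (L : E n →L[ℝ] E 2) (A : E 2 → ℝ) (a : E n) (c : ℝ) (x : E n)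
    (hA : DifferentiableAt ℝ A (L (x - a))) :
    gradient (fun x => A (L (x - a)) + c) x =
      ContinuousLinearMap.adjoint L (gradient A (L (x - a))) := by
  have h1 : HasFDerivAt (fun x => A (L (x - a)) + c) ((fderiv ℝ A (L (x - a))).comp L) x := by
    have h2 : HasFDerivAt (fun x : E n => L (x - a)) L x := by
      have := (L.hasFDerivAt (x := x - a)).comp x ((hasFDerivAt_id x).sub_const a)
      rw [ContinuousLinearMap.comp_id] at this
      exact this
    exact (hA.hasFDerivAt.comp x h2).add_const c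
  apply ext_inner_right ℝ
  intro w
  rw [inner_gradient_left, h1.fderiv, ContinuousLinearMap.adjoint_inner_left,
    inner_gradient_left]
  rfl

/-- the gradient vanishes on the axis -/
theorem gradient_axis (L : E n →L[ℝ] E 2) (A : E 2 → ℝ) (a : E n) (c p k : ℝ) (x : E n)
    (hk : 1 < k) (hA0 : A 0 = 0) (hx : L (x - a) = 0)
    (hC : Conical p k (fun x => A (L (x - a)) + c) x fun x => L (x - a)) :
    gradient (fun x => A (L (x - a)) + c) x = 0 := by
  have h1 := hC.order 1 hk
  have h2 : HasFDerivAt (fun x => A (L (x - a)) + c) (0 : E n →L[ℝ] ℝ) x := by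
    rw [hasFDerivAt_iff_isLittleO]
    rw [isLittleO_iff]
    intro ε hε
    have h3 : 0 < ε / (‖L‖ + 1) := by positivity
    have h4 := h1.def h3
    rw [eventually_nhdsWithin_iff] at h4
    filter_upwards [h4] with y hy
    have h5 : ‖L (y - a)‖ ≤ ‖L‖ * ‖y - x‖ := by
      have : L (y - a) = L (y - x) := by
        have h6 : y - a = (y - x) + (x - a) := by abel
        rw [h6, map_add, hx, add_zero]
      rw [this]
      exact L.le_opNorm _
    by_cases h0 : L (y - a) = 0
    · simp only [h0, hx, hA0]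
      simp only [zero_add, sub_self, zero_apply, norm_zero]
      positivity
    · have h6 := hy h0
      rw [Real.rpow_one, norm_norm] at h6
      rw [zero_apply, sub_zero]
      refine h6.trans ?_
      calc ε / (‖L‖ + 1) * ‖L (y - a)‖ ≤ ε / (‖L‖ + 1) * ((‖L‖ + 1) * ‖y - x‖) := by
            gcongr
            nlinarith [norm_nonneg (y - x)]
        _ = ε * ‖y - x‖ := by field_simp
  rw [gradient_eq_symm, h2.fderiv, map_zero]

end MAIN_

open MAIN_ in
/-- the theorem for homogeneous functions of two variables -/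
theorem main_homog (hMAIN : T_MAIN) (hHOM : T_HOMOG) (n : ℕ) (p k : ℝ) (Ω : Set (E n))
    (L : E n →L[ℝ] E 2) (A : E 2 → ℝ) (a : E n) (c : ℝ) (v : E n → ℝ) (hn : 2 ≤ n)
    (hp : 1 < p) (hΩ : IsOpen Ω) (hc : IsConnected Ω) (hL : Iso L) (hk : 1 < k)
    (hr : 0 < (p - 1) + (k - 1) * (2 * p - 3)) (hA2 : ∀ z, z ≠ 0 → ContDiffAt ℝ 2 A z)
    (hA1 : ∀ z, z ≠ 0 → gradient A z ≠ 0)
    (hAk : ∀ t : ℝ, 0 < t → ∀ z, A (t • z) = t ^ k * A z)
    (hu : PHarm p Ω fun x => A (L (x - a)) + c) (hv : PHarm p Ω v)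
    (huv : (∀ x ∈ Ω, A (L (x - a)) + c ≤ v x) ∨ ∀ x ∈ Ω, v x ≤ A (L (x - a)) + c)
    (hx : ∃ x ∈ Ω, A (L (x - a)) + c = v x) : ∀ x ∈ Ω, A (L (x - a)) + c = v x := by
  obtain ⟨h1, h2⟩ := hHOM n p k L A a c hL hk hr hA2 hA1 hAk
  have hA0 : A 0 = 0 := by
    have h3 := hAk 2 (by norm_num) 0
    rw [smul_zero] at h3
    have h4 : (1 : ℝ) < 2 ^ k := Real.one_lt_rpow (by norm_num) (by linarith)
    have h5 : ((2 : ℝ) ^ k - 1) * A 0 = 0 := by linarith
    rcases mul_eq_zero.1 h5 with h | h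
    · linarith
    · exact h
  apply hMAIN n p Ω ∅ (fun x => A (L (x - a)) + c) v hn hp hΩ hc hu hv huv hx
  · intro x hx hg
    apply h1
    intro h0
    exact hg (gradient_axis L A a c p k x hk hA0 h0 (h2 x h0))
  · simp
  · intro x hx hg _
    refine ⟨k, _, h2 x ?_⟩
    by_contra h0
    rw [gradient_comp L A a c x ((hA2 _ h0).differentiableAt (by norm_num))] at hg
    apply hA1 _ h0
    have h3 : L (ContinuousLinearMap.adjoint L (gradient A (L (x - a)))) = 0 := by
      rw [hg, map_zero]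
    rw [hL] at h3
    exact h3

end Pool.Agent.SCP
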