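import Pool.Agent.SCP.Targets

/-!
# MONO: the field `|ξ|^(p-2) ξ` is continuous and strictly monotone
-/

set_option autoImplicit false

open Set MeasureTheory Filter Topology Asymptotics Metric
open scoped RealInnerProductSpace

namespace Pool.Agent.SCP

namespace MONO_

lemma rpow_mul_self {p : ℝ} (hp : 1 < p) {a : ℝ} (ha : 0 ≤ a) :
    a ^ (p - 2) * a = a ^ (p - 1) := by
  rcases ha.eq_or_lt with h | h
  · rw [← h, mul_zero, Real.zero_rpow (by linarith)]
  · rw [← Real.rpow_add_one h.ne']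
    congr 1
    ring

lemma norm_V {n : ℕ} {p : ℝ} (hp : 1 < p) (ξ : E n) : ‖V p ξ‖ = ‖ξ‖ ^ (p - 1) := by
  unfold V
  rw [norm_smul, Real.norm_of_nonneg (Real.rpow_nonneg (norm_nonneg _) _)]
  exact rpow_mul_self hp (norm_nonneg _)

lemma cont {n : ℕ} {p : ℝ} (hp : 1 < p) : Continuous (V p : E n → E n) := by
  rw [continuous_iff_continuousAt]
  intro ξ
  by_cases h : ξ = 0
  · subst h
    have h0 : (V p : E n → E n) 0 = 0 := by simp [V]
    unfold ContinuousAt
    rw [h0, tendsto_zero_iff_norm_tendsto_zero]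
    have h1 : Tendsto (fun ξ : E n => ‖ξ‖ ^ (p - 1)) (𝓝 0) (𝓝 (‖(0 : E n)‖ ^ (p - 1))) :=
      (continuous_norm.rpow_const fun _ => Or.inr (by linarith)).tendsto 0
    rw [norm_zero, Real.zero_rpow (by linarith)] at h1
    simpa only [norm_V hp] using h1
  · have h1 : ContinuousAt (fun ξ : E n => ‖ξ‖ ^ (p - 2)) ξ :=
      continuous_norm.continuousAt.rpow_const (Or.inl (norm_ne_zero_iff.mpr h))
    exact h1.smul continuousAt_id

lemma mono {n : ℕ} {p : ℝ} (hp : 1 < p) {ξ η : E n} (h : ξ ≠ η) :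
    0 < ⟪V p ξ - V p η, ξ - η⟫ := by
  set a := ‖ξ‖ with ha
  set b := ‖η‖ with hb
  set c := ⟪ξ, η⟫ with hc
  have a0 : 0 ≤ a := norm_nonneg _
  have b0 : 0 ≤ b := norm_nonneg _
  set A := a ^ (p - 2) with hA
  set B := b ^ (p - 2) with hB
  have A0 : 0 ≤ A := Real.rpow_nonneg a0 _
  have B0 : 0 ≤ B := Real.rpow_nonneg b0 _
  have hcab : c ≤ a * b := real_inner_le_norm ξ η
  have hAa : A * a = a ^ (p - 1) := rpow_mul_self hp a0
  have hBb : B * b = b ^ (p - 1) := rpow_mul_self hp b0
  have e1 : ⟪V p ξ - V p η, ξ - η⟫ = A * a ^ 2 - A * c - B * c + B * b ^ 2 := by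
    unfold V
    rw [inner_sub_left, inner_sub_right, inner_sub_right, inner_smul_left, inner_smul_left,
      inner_smul_left, inner_smul_left, real_inner_self_eq_norm_sq, real_inner_self_eq_norm_sq]
    simp only [conj_trivial, ← ha, ← hb, ← hA, ← hB]
    rw [real_inner_comm ξ η, ← hc]
    ring
  rw [e1]
  have e2 : A * a ^ 2 - A * c - B * c + B * b ^ 2 =
      (A * a - B * b) * (a - b) + (A + B) * (a * b - c) := by ring
  rw [e2]
  rcases lt_trichotomy a b with hab | hab | hab
  · have h1 : A * a < B * b := by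
      rw [hAa, hBb]
      exact Real.rpow_lt_rpow a0 hab (by linarith)
    have h2 : 0 < (A * a - B * b) * (a - b) :=
      mul_pos_of_neg_of_neg (by linarith) (by linarith)
    have h3 : 0 ≤ (A + B) * (a * b - c) := mul_nonneg (by linarith) (by linarith)
    linarith
  · have ha' : 0 < a := by
      rcases a0.eq_or_lt with h0 | h0
      · exfalso
        apply h
        rw [norm_eq_zero.mp (ha.symm.trans h0.symm),
          norm_eq_zero.mp (hb.symm.trans (hab.symm.trans h0.symm))]
      · exact h0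
    have hA' : 0 < A := Real.rpow_pos_of_pos ha' _
    have h3 : c < a * b := by
      refine lt_of_le_of_ne hcab fun h4 => h ?_
      have h5 := inner_eq_norm_mul_iff_real.mp (h4 : ⟪ξ, η⟫ = ‖ξ‖ * ‖η‖)
      rw [← ha, ← hb, ← hab] at h5
      exact (smul_right_injective _ ha'.ne' h5)
    have h4 : 0 < (A + B) * (a * b - c) := mul_pos (by linarith) (by linarith)
    have h5 : (A * a - B * b) * (a - b) = 0 := by
      rw [hab, sub_self, mul_zero]
    linarith
  · have h1 : B * b < A * a := by
      rw [hAa, hBb]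
      exact Real.rpow_lt_rpow b0 hab (by linarith)
    have h2 : 0 < (A * a - B * b) * (a - b) := mul_pos (by linarith) (by linarith)
    have h3 : 0 ≤ (A + B) * (a * b - c) := mul_nonneg (by linarith) (by linarith)
    linarith

end MONO_

theorem mono : T_MONO := fun _ _ hp => ⟨MONO_.cont hp, fun _ _ h => MONO_.mono hp h⟩

end Pool.Agent.SCP
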