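import Pool.Agent.SCP.Targets

/-!
# Strong comparison at noncritical points and the strong minimum principle
-/

set_option autoImplicit false

open Set MeasureTheory Filter Topology Asymptotics Metric
open scoped RealInnerProductSpace

namespace Pool.Agent.SCP

theorem noncrit (hH : T_HOPF) (hB : T_BARU) (hP : T_PT) : T_NONCRIT := by
  intro n p Ω u v x₁ hn hp hΩ hu hv huv hx₁ hC2 hgrad heq
  set S : Set (E n) := {x | x ∈ Ω ∧ ContDiffAt ℝ 2 u x ∧ gradient u x ≠ 0} with hS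
  have hSnhds : ∀ x ∈ S, S ∈ 𝓝 x := by
    intro x hx
    have h1 : ∀ᶠ y in 𝓝 x, y ∈ Ω := hΩ.mem_nhds hx.1
    have h2 : ∀ᶠ y in 𝓝 x, ContDiffAt ℝ 2 u y := hx.2.1.eventually (by simp)
    have h3 : ∀ᶠ y in 𝓝 x, gradient u y ≠ 0 :=
      (contDiffAt_gradient hx.2.1).continuousAt.eventually_ne hx.2.2
    filter_upwards [h1, h2, h3] with y a b c
    exact ⟨a, b, c⟩
  have hSo : IsOpen S := isOpen_iff_mem_nhds.2 hSnhds
  have hSΩ : S ⊆ Ω := fun x hx => hx.1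
  refine hH n p S u v x₁ hn hp hSo (hv.mono hSΩ) ?_ (fun x hx => huv x (hSΩ hx))
    ⟨hx₁, hC2, hgrad⟩ heq ?_
  · exact (hu.1.mono hSΩ).continuousOn
  · intro x₂ hx₂
    refine hB n p u x₂ hp hx₂.2.1 hx₂.2.2 ?_
    filter_upwards [hSnhds x₂ hx₂] with x hx
    exact hP n p Ω u x hn hp hΩ hu hx.1 hx.2.1 hx.2.2

theorem smp (hH : T_HOPF) (hB : T_BARC) : T_SMP := by
  intro n p Ω v c x₁ hn hp hΩ hv hx₁ hge heq
  have h0 : ∀ᶠ x in 𝓝 x₁, x ∈ Ω := hΩ.mem_nhds hx₁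
  have h1 : ∀ᶠ x in 𝓝 x₁, x ∈ Ω ∧ c ≤ v x := h0.and hge
  obtain ⟨N, hN, hNo, hxN⟩ := _root_.mem_nhds_iff.1 h1
  have h2 := hH n p N (fun _ => c) v x₁ hn hp hNo (hv.mono fun x hx => (hN hx).1)
    continuousOn_const (fun x hx => (hN hx).2) hxN heq.symm (fun x₂ _ => hB n p c x₂ hp)
  filter_upwards [h2] with x hx
  exact hx.symm

end Pool.Agent.SCP
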