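import Pool.Agent.SCP.Targets

/-!
# Comparison at a conical point
-/

set_option autoImplicit false

open Set MeasureTheory Filter Topology Asymptotics Metric
open scoped RealInnerProductSpace

namespace Pool.Agent.SCP

namespace NOTOUCH_

variable {n : ℕ}

theorem phi_zero {F : E n → E 2} {x₀ x : E n} {κ c : ℝ} (hκ : 0 < κ) (h : F x = 0) :
    phi F x₀ κ c x = 0 := by
  unfold phi
  rw [h, norm_zero, Real.zero_rpow hκ.ne', Real.zero_rpow (by linarith)]
  ring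

/-- where the comparison function is positive -/
theorem phi_pos {F : E n → E 2} {x₀ x : E n} {κ c : ℝ} (hκ : 0 < κ) (hc : 0 < c)
    (h : 0 < phi F x₀ κ c x) (hr : ‖F x‖ < c ^ 2) : ‖x - x₀‖ ^ 2 < 2 * c := by
  have hF : F x ≠ 0 := fun h0 => by
    rw [phi_zero hκ h0] at h
    exact lt_irrefl _ h
  have hρ : 0 < ‖F x‖ := norm_pos_iff.2 hF
  unfold phi at h
  rw [Real.rpow_add hρ] at h
  have h1 : 0 < ‖F x‖ ^ κ := Real.rpow_pos_of_pos hρ κ
  have h2 : 0 < ‖F x‖ ^ κ * (c - ‖x - x₀‖ ^ 2 + ‖F x‖ ^ (1 / 2 : ℝ)) := by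
    convert h using 1
    ring
  have h3 : 0 < c - ‖x - x₀‖ ^ 2 + ‖F x‖ ^ (1 / 2 : ℝ) := (mul_pos_iff_of_pos_left h1).1 h2
  have h4 : ‖F x‖ ^ (1 / 2 : ℝ) < c := by
    rw [← Real.sqrt_eq_rpow]
    exact (Real.sqrt_lt' hc).2 hr
  linarith

theorem phi_lower {F : E n → E 2} {x₀ x : E n} {κ c : ℝ} (h : ‖x - x₀‖ ^ 2 ≤ c / 2) :
    c / 2 * ‖F x‖ ^ κ ≤ phi F x₀ κ c x := by
  unfold phi
  have h1 : 0 ≤ ‖F x‖ ^ κ := Real.rpow_nonneg (norm_nonneg _) κ
  have h2 : 0 ≤ ‖F x‖ ^ (κ + 1 / 2) := Real.rpow_nonneg (norm_nonneg _) _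
  nlinarith

theorem continuousOn_phi {F : E n → E 2} {x₀ : E n} {κ c : ℝ} {S : Set (E n)} (hκ : 0 < κ)
    (hF : ContinuousOn F S) : ContinuousOn (phi F x₀ κ c) S := by
  unfold phi
  have h1 : ContinuousOn (fun x => ‖F x‖) S := hF.norm
  refine ContinuousOn.add (ContinuousOn.mul ?_ ?_) ?_
  · exact h1.rpow_const fun x _ => Or.inr hκ.le
  · fun_prop
  · exact h1.rpow_const fun x _ => Or.inr (by linarith)

/-- a continuous function which is positive on a compact set is bounded below -/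
theorem exists_lower {K : Set (E n)} (hK : IsCompact K) {f : E n → ℝ} (hf : ContinuousOn f K)
    (hpos : ∀ x ∈ K, 0 < f x) : ∃ δ : ℝ, 0 < δ ∧ ∀ x ∈ K, δ ≤ f x := by
  rcases K.eq_empty_or_nonempty with h | h
  · exact ⟨1, one_pos, fun x hx => by simp [h] at hx⟩
  · obtain ⟨y, hy, hmin⟩ := hK.exists_isMinOn h hf
    exact ⟨f y, hpos y hy, fun x hx => hmin hx⟩

end NOTOUCH_

open NOTOUCH_

theorem notouch (htouch : T_TOUCH) (hstrict : T_STRICT) (hsmp : T_SMP) (hpt : T_PT)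
    (hconn : T_CONN) : T_NOTOUCH := by
  intro n p k Ω u v x₀ F hn hp hΩ hu hv huv hx₀ hC2 C h0 hlt
  -- the comparison function
  have hreg : ∀ᶠ x in 𝓝[{x | F x ≠ 0}] x₀, ContDiffAt ℝ 2 u x ∧ Eqn p u x := by
    rw [eventually_nhdsWithin_iff]
    filter_upwards [C.regular, hΩ.mem_nhds hx₀] with x h1 h2 h3
    have h4 : ContDiffAt ℝ 2 u x := hC2 x h2 (h1 h3)
    exact ⟨h4, hpt n p Ω u x hn hp hΩ hu h2 h4 (h1 h3)⟩
  obtain ⟨κ, hκ1, hκk, hκ⟩ := hstrict n p k u x₀ F hp hreg C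
  have hκ0 : 0 < κ := by linarith
  have hFc : ∀ᶠ x in 𝓝 x₀, ContinuousAt F x :=
    (C.smooth.eventually (by simp)).mono fun x hx => hx.continuousAt
  rw [eventually_nhdsWithin_iff] at hκ hlt
  obtain ⟨R₁, hR₁, hR₁'⟩ := Metric.eventually_nhds_iff_ball.1
    (((hκ.and hlt).and hFc).and (hΩ.mem_nhds hx₀))
  obtain ⟨R, hR, hRR₁, hR1⟩ : ∃ R : ℝ, 0 < R ∧ R < R₁ ∧ R < 1 :=
    ⟨min R₁ 1 / 2, by positivity, by
      have := min_le_left R₁ 1
      have h2 : 0 < min R₁ 1 := by positivity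
      linarith, by
      have := min_le_right R₁ 1
      linarith⟩
  have hball : ∀ x ∈ closedBall x₀ R, x ∈ ball x₀ R₁ := fun x hx =>
    closedBall_subset_ball hRR₁ hx
  have hstr : ∀ x ∈ closedBall x₀ R, F x ≠ 0 → ∀ τ c : ℝ, 0 < τ → 0 ≤ c → c ≤ 1 →
      0 < phi F x₀ κ c x → Strict p (fun y => u y + τ * phi F x₀ κ c y) x := fun x hx =>
    (hR₁' x (hball x hx)).1.1.1
  have hlt' : ∀ x ∈ closedBall x₀ R, F x ≠ 0 → u x < v x := fun x hx =>
    (hR₁' x (hball x hx)).1.1.2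
  have hFc' : ContinuousOn F (closedBall x₀ R) := fun x hx =>
    ((hR₁' x (hball x hx)).1.2).continuousWithinAt
  have hΩ' : closedBall x₀ R ⊆ Ω := fun x hx => (hR₁' x (hball x hx)).2
  have huc : ContinuousOn u (closedBall x₀ R) := hu.1.continuousOn.mono hΩ'
  have hvc : ContinuousOn v (closedBall x₀ R) := hv.1.continuousOn.mono hΩ'
  have hcomp : IsCompact (closedBall x₀ R) := isCompact_closedBall x₀ R
  obtain ⟨c, hc⟩ : ∃ c : ℝ, c = R ^ 2 / 2 := ⟨_, rfl⟩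
  have hc0 : 0 < c := by
    rw [hc]
    positivity
  have hc1 : c ≤ 1 := by
    rw [hc]
    nlinarith
  have hφc : ContinuousOn (phi F x₀ κ c) (closedBall x₀ R) := continuousOn_phi hκ0 hFc'
  -- the constant
  have hK : IsCompact {x ∈ closedBall x₀ R | c ^ 2 ≤ ‖F x‖} := by
    have h1 : {x ∈ closedBall x₀ R | c ^ 2 ≤ ‖F x‖} =
        closedBall x₀ R ∩ (fun x => ‖F x‖) ⁻¹' Ici (c ^ 2) := rfl
    rw [h1]
    exact hcomp.of_isClosed_subset
      (hFc'.norm.preimage_isClosed_of_isClosed isClosed_closedBall isClosed_Ici) inter_subset_left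
  obtain ⟨δ, hδ, hδ'⟩ := exists_lower hK (f := fun x => v x - u x)
    ((hvc.sub huc).mono fun x hx => hx.1) fun x hx => by
      have h1 : F x ≠ 0 := by
        have : 0 < ‖F x‖ := lt_of_lt_of_le (by positivity) hx.2
        exact norm_pos_iff.1 this
      have := hlt' x hx.1 h1
      linarith
  obtain ⟨M, hM⟩ := hcomp.exists_bound_of_continuousOn hφc
  obtain ⟨τ, hτ, hτM⟩ : ∃ τ : ℝ, 0 < τ ∧ τ * (|M| + 1) < δ :=
    ⟨δ / (2 * (|M| + 1)), by positivity, by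
      have : 0 < |M| + 1 := by positivity
      rw [div_mul_eq_mul_div, div_lt_iff₀ (by positivity)]
      nlinarith⟩
  have hcmp : ∀ x ∈ closedBall x₀ R, u x + τ * phi F x₀ κ c x ≤ v x := by
    have hfc : ContinuousOn (fun x => u x + τ * phi F x₀ κ c x - v x) (closedBall x₀ R) :=
      (huc.add (continuousOn_const.mul hφc)).sub hvc
    obtain ⟨y, hy, hmax⟩ := hcomp.exists_isMaxOn ⟨x₀, mem_closedBall_self hR.le⟩ hfc
    by_contra hcon
    push Not at hcon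
    obtain ⟨z, hz, hz'⟩ := hcon
    have h1 : 0 < u y + τ * phi F x₀ κ c y - v y := by
      have h2 : u z + τ * phi F x₀ κ c z - v z ≤ u y + τ * phi F x₀ κ c y - v y := hmax hz
      linarith
    have h2 : 0 < phi F x₀ κ c y := by
      have h3 := huv y (hΩ' hy)
      have h4 : 0 < τ * phi F x₀ κ c y := by linarith
      exact (mul_pos_iff_of_pos_left hτ).1 h4
    have h3 : F y ≠ 0 := fun h => by
      rw [phi_zero hκ0 h] at h2
      exact lt_irrefl _ h2
    have h4 : ‖F y‖ < c ^ 2 := by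
      by_contra h5
      push Not at h5
      have h6 : δ ≤ v y - u y := hδ' y ⟨hy, h5⟩
      have h7 : phi F x₀ κ c y ≤ |M| + 1 := by
        have h8 := hM y hy
        rw [Real.norm_eq_abs] at h8
        have := le_abs_self (phi F x₀ κ c y)
        have := le_abs_self M
        linarith
      have h9 : τ * phi F x₀ κ c y ≤ τ * (|M| + 1) := by gcongr
      linarith
    have h5 : ‖y - x₀‖ ^ 2 < R ^ 2 := by
      have := phi_pos hκ0 hc0 h2 h4
      linarith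
    have h6 : y ∈ ball x₀ R := by
      rw [mem_ball, dist_eq_norm]
      exact lt_of_pow_lt_pow_left₀ 2 hR.le h5
    refine htouch n p Ω v (fun y => u y + τ * phi F x₀ κ c y) y hn hp hΩ hv (hΩ' hy)
      (hstr y hy h3 τ c hτ hc0.le hc1 h2) ?_
    filter_upwards [isOpen_ball.mem_nhds h6] with x hx
    exact hmax (ball_subset_closedBall hx)
  -- a lower bound for `v`
  have hlow : ∀ᶠ x in 𝓝[{x | F x ≠ 0}] x₀, u x₀ < v x := by
    have hord := (isLittleO_iff.1 (C.order κ hκk)) (show 0 < τ * c / 4 by positivity)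
    rw [eventually_nhdsWithin_iff] at hord ⊢
    filter_upwards [hord, closedBall_mem_nhds x₀ (show 0 < R / 2 by positivity)] with x h1 h2 h3
    have h4 := h1 h3
    have h5 : x ∈ closedBall x₀ R := closedBall_subset_closedBall (by linarith) h2
    have h6 := hcmp x h5
    have h7 : ‖x - x₀‖ ^ 2 ≤ c / 2 := by
      rw [mem_closedBall, dist_eq_norm] at h2
      have h8 : ‖x - x₀‖ ^ 2 ≤ (R / 2) ^ 2 := pow_le_pow_left₀ (norm_nonneg _) h2 2
      rw [hc]
      linarith [h8, show (R / 2) ^ 2 = R ^ 2 / 2 / 2 by ring]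
    have h8 : c / 2 * ‖F x‖ ^ κ ≤ phi F x₀ κ c x := phi_lower h7
    have h9 : 0 < ‖F x‖ ^ κ := Real.rpow_pos_of_pos (norm_pos_iff.2 h3) κ
    rw [Real.norm_eq_abs, Real.norm_eq_abs, abs_of_pos h9] at h4
    have h10 := (abs_le.1 h4).1
    have h11 : τ * (c / 2 * ‖F x‖ ^ κ) ≤ τ * phi F x₀ κ c x := by gcongr
    have h12 : 0 < τ * c * ‖F x‖ ^ κ := by positivity
    nlinarith
  rw [eventually_nhdsWithin_iff] at hlow
  obtain ⟨N, hN, hxN, hNW, -, hdense⟩ := hconn n x₀ F _ C.smooth C.zero C.iso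
    (inter_mem hlow (hΩ.mem_nhds hx₀))
  have hge : ∀ x ∈ N, u x₀ ≤ v x := by
    intro x hx
    by_contra hcon
    push Not at hcon
    have h1 : ContinuousAt v x := hv.1.continuousOn.continuousAt (hΩ.mem_nhds (hNW hx).2)
    have h2 : ∀ᶠ y in 𝓝 x, v y < u x₀ := h1.eventually (gt_mem_nhds hcon)
    have h3 := mem_closure_iff_nhds.1 (hdense hx) _ h2
    obtain ⟨y, hy1, hy2⟩ := h3
    have h4 : v y < u x₀ := hy1
    have h5 : u x₀ < v y := (hNW hy2.1).1 hy2.2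
    exact lt_asymm h4 h5
  have hsm := hsmp n p Ω v (u x₀) x₀ hn hp hΩ hv hx₀
    (Filter.mem_of_superset (hN.mem_nhds hxN) hge) h0.symm
  obtain ⟨y, hy1, hy2⟩ := mem_closure_iff_nhds.1 (hdense hxN) _ hsm
  have h4 : v y = u x₀ := hy1
  have h5 : u x₀ < v y := (hNW hy2.1).1 hy2.2
  exact absurd h4 h5.ne'

end Pool.Agent.SCP
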