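import Pool.Agent.SCP.Defs2

/-!
# The order of `u` at the submanifold
-/

set_option autoImplicit false

open Set MeasureTheory Filter Topology Asymptotics Metric
open scoped RealInnerProductSpace

namespace Pool.Agent.SCP

namespace ORDER_

variable {n : ℕ}

theorem norm_pk_le {L : E n →L[ℝ] E 2} (hL : Iso L) (y : E n) : ‖pk L y‖ ≤ ‖y‖ := by
  have h1 : ‖pk L y‖ ^ 2 = ‖y‖ ^ 2 - ‖L y‖ ^ 2 := by
    unfold pk
    rw [norm_sub_sq_real, norm_adjoint hL, ContinuousLinearMap.adjoint_inner_right,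
      real_inner_self_eq_norm_sq]
    ring
  have h2 : ‖pk L y‖ ^ 2 ≤ ‖y‖ ^ 2 := by
    rw [h1]
    nlinarith [sq_nonneg ‖L y‖]
  exact (pow_le_pow_iff_left₀ (norm_nonneg _) (norm_nonneg _) two_ne_zero).1 h2

theorem L_pk {L : E n →L[ℝ] E 2} (hL : Iso L) (y : E n) : L (pk L y) = 0 := by
  unfold pk
  rw [map_sub, hL, sub_self]

theorem continuousAt_gradient {Ω : Set (E n)} {u : E n → ℝ} (hΩ : IsOpen Ω)
    (hu : ContDiffOn ℝ 1 u Ω) {x : E n} (hx : x ∈ Ω) : ContinuousAt (gradient u) x := by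
  have h1 : ContDiffAt ℝ 1 u x := hu.contDiffAt (hΩ.mem_nhds hx)
  have h2 : ContinuousAt (fderiv ℝ u) x := (h1.fderiv_right (m := 0) (by norm_num)).continuousAt
  exact ((InnerProductSpace.toDual ℝ (E n)).symm.continuous.continuousAt).comp h2

theorem key (hRAY : T_RAY) {k κ : ℝ} {Ω : Set (E n)} {u : E n → ℝ} {x₀ : E n}
    {F : E n → E 2} {Ψ : E n → E n} (hΩ : IsOpen Ω) (hx₀ : x₀ ∈ Ω) (hu : ContDiffOn ℝ 1 u Ω)
    (hL : Iso (fderiv ℝ F x₀)) (h1 : 1 < κ) (h2 : κ < k) (hΨ2 : ContDiffAt ℝ 2 Ψ 0)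
    (hΨ0 : Ψ 0 = x₀) (hΨ' : fderiv ℝ Ψ 0 = ContinuousLinearMap.id ℝ (E n))
    (hΨF : ∀ᶠ y in 𝓝 0, F (Ψ y) = fderiv ℝ F x₀ y) (hΨN : ∀ N ∈ 𝓝 (0 : E n), Ψ '' N ∈ 𝓝 x₀)
    (hw : ∀ ε : ℝ, 0 < ε → ∀ᶠ y in 𝓝[{y | fderiv ℝ F x₀ y ≠ 0}] 0,
      DifferentiableAt ℝ (fun z => gradient u (Ψ z)) y ∧
      ‖fderiv ℝ (fun z => gradient u (Ψ z)) y
        (ContinuousLinearMap.adjoint (fderiv ℝ F x₀) (fderiv ℝ F x₀ y)) -
        (k - 1) • gradient u (Ψ y)‖ ≤ ε * ‖gradient u (Ψ y)‖) :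
    ∃ C : ℝ, ∀ᶠ x in 𝓝 x₀, ‖u x - u x₀‖ ≤ C * ‖F x‖ ^ κ := by
  set L := fderiv ℝ F x₀ with hLdef
  obtain ⟨C₀, hC₀⟩ := hRAY n k κ L _ hL h2 hw
  obtain ⟨C, hC0, hC⟩ : ∃ C : ℝ, 0 ≤ C ∧ ∀ᶠ y in 𝓝[{y | L y ≠ 0}] 0,
      ‖gradient u (Ψ y)‖ ≤ C * ‖L y‖ ^ (κ - 1) := by
    refine ⟨max C₀ 0, le_max_right _ _, ?_⟩
    filter_upwards [hC₀] with y hy
    refine hy.trans ?_
    gcongr
    exact le_max_left _ _
  rw [eventually_nhdsWithin_iff] at hC
  have hΨd : ∀ᶠ y in 𝓝 (0 : E n), DifferentiableAt ℝ Ψ y := by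
    filter_upwards [hΨ2.eventually (by simp)] with y hy
    exact hy.differentiableAt (by norm_num)
  have hΨc : ContinuousAt (fderiv ℝ Ψ) 0 :=
    (hΨ2.fderiv_right (m := 1) (by norm_num)).continuousAt
  have hΨn : ∀ᶠ y in 𝓝 (0 : E n), ‖fderiv ℝ Ψ y‖ < 2 := by
    have h3 : ‖fderiv ℝ Ψ 0‖ < 2 := by
      rw [hΨ']
      exact lt_of_le_of_lt ContinuousLinearMap.norm_id_le (by norm_num)
    exact hΨc.norm.eventually_lt continuousAt_const h3
  have hΨΩ : ∀ᶠ y in 𝓝 (0 : E n), Ψ y ∈ Ω :=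
    hΨ2.continuousAt.eventually_mem (by rw [hΨ0]; exact hΩ.mem_nhds hx₀)
  have hall := hC.and (hΨd.and (hΨn.and (hΨΩ.and hΨF)))
  obtain ⟨r, hr, hball⟩ := Metric.eventually_nhds_iff_ball.1 hall
  -- the gradient on the axis
  have haxis : ∀ s ∈ ball (0 : E n) r, L s = 0 → gradient u (Ψ s) = 0 := by
    intro s hs hLs
    obtain ⟨w, hw1⟩ : ∃ w : E 2, ‖w‖ = 1 := ⟨EuclideanSpace.single 0 1, by simp⟩
    have hcont : ContinuousAt (fun y => gradient u (Ψ y)) s :=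
      ContinuousAt.comp (f := Ψ) (g := gradient u)
        (continuousAt_gradient hΩ hu (hball s hs).2.2.2.1)
        (hball s hs).2.1.continuousAt
    have hpath : Tendsto (fun t : ℝ => s + t • ContinuousLinearMap.adjoint L w) (𝓝[>] 0)
        (𝓝 s) := by
      have : Tendsto (fun t : ℝ => s + t • ContinuousLinearMap.adjoint L w) (𝓝 0)
          (𝓝 (s + (0 : ℝ) • ContinuousLinearMap.adjoint L w)) := by
        apply Continuous.tendsto
        fun_prop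
      rw [zero_smul, add_zero] at this
      exact this.mono_left nhdsWithin_le_nhds
    have h3 := hcont.tendsto.comp hpath
    have h4 : Tendsto (fun t : ℝ => C * t ^ (κ - 1)) (𝓝[>] 0) (𝓝 0) := by
      have h5 : ContinuousAt (fun t : ℝ => t ^ (κ - 1)) 0 :=
        Real.continuousAt_rpow_const 0 (κ - 1) (Or.inr (by linarith))
      have h6 := h5.tendsto
      rw [Real.zero_rpow (by linarith)] at h6
      simpa using (h6.mono_left nhdsWithin_le_nhds).const_mul C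
    have h5 : Tendsto ((fun y => gradient u (Ψ y)) ∘ fun t : ℝ =>
        s + t • ContinuousLinearMap.adjoint L w) (𝓝[>] 0) (𝓝 0) := by
      apply squeeze_zero_norm' _ h4
      have h6 : ∀ᶠ t : ℝ in 𝓝[>] 0, s + t • ContinuousLinearMap.adjoint L w ∈ ball (0 : E n) r :=
        hpath.eventually (isOpen_ball.mem_nhds hs)
      filter_upwards [h6, self_mem_nhdsWithin] with t ht ht0
      have ht0' : (0 : ℝ) < t := ht0
      have h7 : L (s + t • ContinuousLinearMap.adjoint L w) = t • w := by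
        rw [map_add, map_smul, hL, hLs, zero_add]
      have h8 : ‖L (s + t • ContinuousLinearMap.adjoint L w)‖ = t := by
        rw [h7, norm_smul, hw1, mul_one, Real.norm_eq_abs, abs_of_pos ht0']
      have h9 := (hball _ ht).1 (by
        show L (s + t • ContinuousLinearMap.adjoint L w) ≠ 0
        intro h0
        rw [h0, norm_zero] at h8
        exact ht0'.ne h8)
      rw [h8] at h9
      exact h9
    exact tendsto_nhds_unique h3 h5
  have hgrad : ∀ y ∈ ball (0 : E n) r, ‖gradient u (Ψ y)‖ ≤ C * ‖L y‖ ^ (κ - 1) := by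
    intro y hy
    by_cases h0 : L y = 0
    · rw [haxis y hy h0, norm_zero]
      positivity
    · exact (hball y hy).1 h0
  have hdiff : ∀ y ∈ ball (0 : E n) r, DifferentiableAt ℝ (fun z => u (Ψ z)) y := by
    intro y hy
    have h3 : DifferentiableAt ℝ u (Ψ y) :=
      (hu.contDiffAt (hΩ.mem_nhds (hball y hy).2.2.2.1)).differentiableAt (by norm_num)
    exact h3.comp y (hball y hy).2.1
  have hbound : ∀ y ∈ ball (0 : E n) r,
      ‖fderiv ℝ (fun z => u (Ψ z)) y‖ ≤ 2 * (C * ‖L y‖ ^ (κ - 1)) := by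
    intro y hy
    have h3 : DifferentiableAt ℝ u (Ψ y) :=
      (hu.contDiffAt (hΩ.mem_nhds (hball y hy).2.2.2.1)).differentiableAt (by norm_num)
    have h4 : fderiv ℝ (fun z => u (Ψ z)) y = (fderiv ℝ u (Ψ y)).comp (fderiv ℝ Ψ y) :=
      fderiv_comp y h3 (hball y hy).2.1
    have h5 : ‖fderiv ℝ u (Ψ y)‖ = ‖gradient u (Ψ y)‖ := by
      rw [gradient_eq_symm, LinearIsometryEquiv.norm_map]
    rw [h4]
    calc ‖(fderiv ℝ u (Ψ y)).comp (fderiv ℝ Ψ y)‖ ≤ ‖fderiv ℝ u (Ψ y)‖ * ‖fderiv ℝ Ψ y‖ :=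
          ContinuousLinearMap.opNorm_comp_le _ _
      _ ≤ (C * ‖L y‖ ^ (κ - 1)) * 2 := by
          rw [h5]
          apply mul_le_mul (hgrad y hy) (hball y hy).2.2.1.le (norm_nonneg _)
          positivity
      _ = _ := by ring
  refine ⟨2 * C, ?_⟩
  filter_upwards [hΨN _ (ball_mem_nhds 0 hr)] with x hx
  obtain ⟨y, hy, rfl⟩ := hx
  have hy' : ‖y‖ < r := by simpa using hy
  have hpky : pk L y ∈ ball (0 : E n) r := by
    simpa using lt_of_le_of_lt (norm_pk_le hL y) hy'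
  have h0mem : (0 : E n) ∈ ball (0 : E n) r := mem_ball_self hr
  -- the first segment
  have hseg1 : ‖u (Ψ (pk L y)) - u (Ψ 0)‖ ≤ 0 * ‖pk L y - 0‖ := by
    apply (convex_segment (0 : E n) (pk L y)).norm_image_sub_le_of_norm_fderiv_le
      (𝕜 := ℝ) (f := fun z => u (Ψ z)) (s := segment ℝ (0 : E n) (pk L y))
    · intro z hz
      exact hdiff z ((convex_ball (0 : E n) r).segment_subset h0mem hpky hz)
    · intro z hz
      have hzb := (convex_ball (0 : E n) r).segment_subset h0mem hpky hz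
      have hLz : L z = 0 := by
        obtain ⟨a, b, _, _, _, rfl⟩ := hz
        rw [map_add, map_smul, map_smul, L_pk hL, map_zero, smul_zero, smul_zero, add_zero]
      have := hbound z hzb
      rw [hLz, norm_zero, Real.zero_rpow (by linarith), mul_zero, mul_zero] at this
      exact this
    · exact left_mem_segment ℝ _ _
    · exact right_mem_segment ℝ _ _
  have hseg2 : ‖u (Ψ y) - u (Ψ (pk L y))‖ ≤ (2 * (C * ‖L y‖ ^ (κ - 1))) * ‖y - pk L y‖ := by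
    apply (convex_segment (pk L y) y).norm_image_sub_le_of_norm_fderiv_le
      (𝕜 := ℝ) (f := fun z => u (Ψ z)) (s := segment ℝ (pk L y) y)
    · intro z hz
      exact hdiff z ((convex_ball (0 : E n) r).segment_subset hpky hy hz)
    · intro z hz
      have hzb := (convex_ball (0 : E n) r).segment_subset hpky hy hz
      have hLz : ‖L z‖ ≤ ‖L y‖ := by
        obtain ⟨a, b, ha, hb, hab, rfl⟩ := hz
        rw [map_add, map_smul, map_smul, L_pk hL, smul_zero, zero_add, norm_smul,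
          Real.norm_eq_abs, abs_of_nonneg hb]
        have : b ≤ 1 := by linarith
        nlinarith [norm_nonneg (L y)]
      refine (hbound z hzb).trans ?_
      have : ‖L z‖ ^ (κ - 1) ≤ ‖L y‖ ^ (κ - 1) :=
        Real.rpow_le_rpow (norm_nonneg _) hLz (by linarith)
      gcongr
    · exact left_mem_segment ℝ _ _
    · exact right_mem_segment ℝ _ _
  have hny : ‖y - pk L y‖ = ‖L y‖ := by
    unfold pk
    rw [sub_sub_cancel, norm_adjoint hL]
  rw [hny] at hseg2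
  rw [zero_mul] at hseg1
  have hFy : F (Ψ y) = L y := (hball y hy).2.2.2.2
  have hpow : ‖L y‖ ^ (κ - 1) * ‖L y‖ = ‖L y‖ ^ κ := by
    rcases eq_or_lt_of_le (norm_nonneg (L y)) with h | h
    · rw [← h, Real.zero_rpow (by linarith), Real.zero_rpow (by linarith), mul_zero]
    · rw [← Real.rpow_add_one h.ne', sub_add_cancel]
  rw [hFy, ← hΨ0]
  calc ‖u (Ψ y) - u (Ψ 0)‖ = ‖(u (Ψ y) - u (Ψ (pk L y))) + (u (Ψ (pk L y)) - u (Ψ 0))‖ := by
        congr 1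
        ring
    _ ≤ ‖u (Ψ y) - u (Ψ (pk L y))‖ + ‖u (Ψ (pk L y)) - u (Ψ 0)‖ := norm_add_le _ _
    _ ≤ (2 * (C * ‖L y‖ ^ (κ - 1))) * ‖L y‖ + 0 := add_le_add hseg2 hseg1
    _ = 2 * C * ‖L y‖ ^ κ := by
        rw [← hpow]
        ring

end ORDER_

open ORDER_ in
theorem order (hHBD : T_HBD) (hSTR : T_STR) (hWEST : T_WEST) (hRAY : T_RAY) : T_ORDER := by
  intro n p k Ω u x₀ F hp hΩ hx₀ hu1 hu2 hC
  obtain ⟨C, hCb⟩ := hHBD n p k u x₀ F hp hu2 hC
  obtain ⟨Ψ, hΨ2, hΨ0, hΨ', hΨF, hΨN⟩ := hSTR n x₀ F hC.smooth hC.zero hC.iso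
  have hw := hWEST n p k C u x₀ F Ψ hC (hu2.mono fun x hx => hx.1) hCb hΨ2 hΨ0 hΨ' hΨF
  refine ⟨hC.smooth, hC.zero, hC.iso, hC.one_lt, hC.range, hC.regular, hC.radial, hC.tang, ?_⟩
  intro κ hκ
  obtain ⟨κ₁, h1, h2, h3⟩ : ∃ κ₁ : ℝ, κ < κ₁ ∧ 1 < κ₁ ∧ κ₁ < k := by
    obtain ⟨κ₁, ha, hb⟩ := exists_between (max_lt hκ hC.one_lt)
    exact ⟨κ₁, (le_max_left _ _).trans_lt ha, (le_max_right _ _).trans_lt ha, hb⟩
  obtain ⟨C', hC'⟩ := key hRAY hΩ hx₀ hu1 hC.iso h2 h3 hΨ2 hΨ0 hΨ' hΨF hΨN hw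
  have hO : (fun x => u x - u x₀) =O[𝓝[{x | F x ≠ 0}] x₀] fun x => ‖F x‖ ^ κ₁ := by
    apply IsBigO.of_bound C'
    filter_upwards [hC'.filter_mono nhdsWithin_le_nhds] with x hx
    rwa [Real.norm_of_nonneg (Real.rpow_nonneg (norm_nonneg _) _)]
  refine hO.trans_isLittleO ?_
  have hF0 : Tendsto (fun x => ‖F x‖) (𝓝[{x | F x ≠ 0}] x₀) (𝓝 0) := by
    have := hC.smooth.continuousAt.norm.tendsto
    rw [hC.zero, norm_zero] at this
    exact this.mono_left nhdsWithin_le_nhds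
  have hp0 : Tendsto (fun x => ‖F x‖ ^ (κ₁ - κ)) (𝓝[{x | F x ≠ 0}] x₀) (𝓝 0) := by
    have h5 : ContinuousAt (fun t : ℝ => t ^ (κ₁ - κ)) 0 :=
      Real.continuousAt_rpow_const 0 (κ₁ - κ) (Or.inr (by linarith))
    have h6 := h5.tendsto
    rw [Real.zero_rpow (by linarith)] at h6
    exact h6.comp hF0
  have heq : (fun x => ‖F x‖ ^ κ₁) =ᶠ[𝓝[{x | F x ≠ 0}] x₀]
      fun x => ‖F x‖ ^ (κ₁ - κ) * ‖F x‖ ^ κ := by
    filter_upwards [self_mem_nhdsWithin] with x hx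
    rw [← Real.rpow_add (norm_pos_iff.2 hx), sub_add_cancel]
  refine heq.trans_isLittleO ?_
  have := ((isLittleO_one_iff ℝ).2 hp0).mul_isBigO
    (isBigO_refl (fun x => ‖F x‖ ^ κ) (𝓝[{x | F x ≠ 0}] x₀))
  simpa using this

end Pool.Agent.SCP

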