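import Pool.Agent.SCP.Targets

/-!
# The derivatives of the comparison function
-/

set_option autoImplicit false

open Set MeasureTheory Filter Topology Asymptotics Metric
open scoped RealInnerProductSpace

namespace Pool.Agent.SCP

namespace PHI1_

variable {n : ℕ}

/-- The derivative of `|F| ^ s`. -/
theorem hasFDerivAt_pow {F : E n → E 2} {F' : E n →L[ℝ] E 2} {y : E n} (hF : HasFDerivAt F F' y)
    (hne : F y ≠ 0) (s : ℝ) : HasFDerivAt (fun y => ‖F y‖ ^ s)
      ((s * ‖F y‖ ^ (s - 2)) • (innerSL ℝ (F y)).comp F') y := by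
  have hpos : 0 < ‖F y‖ := norm_pos_iff.2 hne
  have h1 := hF.norm_sq
  have h2 := h1.rpow_const (p := s / 2) (Or.inl (by positivity))
  have h3 : (fun y => ‖F y‖ ^ s) = fun y => (‖F y‖ ^ 2) ^ (s / 2) := by
    funext z
    rw [← Real.rpow_natCast, ← Real.rpow_mul (norm_nonneg _)]
    congr 1
    push_cast
    ring
  rw [h3]
  refine h2.congr_fderiv ?_
  have h4 : (‖F y‖ ^ 2) ^ (s / 2 - 1) = ‖F y‖ ^ (s - 2) := by
    rw [← Real.rpow_natCast, ← Real.rpow_mul (norm_nonneg _)]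
    congr 1
    push_cast
    ring
  rw [h4]
  ext v
  simp only [smul_apply, ContinuousLinearMap.comp_apply, innerSL_apply_apply, smul_eq_mul,
    nsmul_eq_mul]
  push_cast
  ring

theorem hasFDerivAt_sq (x₀ y : E n) :
    HasFDerivAt (fun y : E n => ‖y - x₀‖ ^ 2) ((2 : ℝ) • innerSL ℝ (y - x₀)) y := by
  have h1 := ((hasFDerivAt_id y).sub_const x₀).norm_sq
  refine h1.congr_fderiv ?_
  ext v
  simp only [id, smul_apply, ContinuousLinearMap.comp_apply, innerSL_apply_apply, smul_eq_mul,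
    nsmul_eq_mul, ContinuousLinearMap.id_apply]
  push_cast
  ring

/-- the coefficient of the first derivative -/
noncomputable def co (F : E n → E 2) (x₀ : E n) (κ c : ℝ) (y : E n) : ℝ :=
  κ * ‖F y‖ ^ (κ - 2) * (c - ‖y - x₀‖ ^ 2) + (κ + 1 / 2) * ‖F y‖ ^ (κ - 3 / 2)

theorem first {F : E n → E 2} {F' : E n →L[ℝ] E 2} {y : E n} (hF : HasFDerivAt F F' y)
    (hne : F y ≠ 0) (x₀ : E n) (κ c : ℝ) : HasFDerivAt (phi F x₀ κ c)
      (co F x₀ κ c y • (innerSL ℝ (F y)).comp F' - (2 * ‖F y‖ ^ κ) • innerSL ℝ (y - x₀)) y := by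
  have h1 := (hasFDerivAt_pow hF hne κ).mul ((hasFDerivAt_sq x₀ y).const_sub c)
  have h2 := hasFDerivAt_pow hF hne (κ + 1 / 2)
  refine (h1.add h2).congr_fderiv ?_
  have h3 : κ + 1 / 2 - 2 = κ - 3 / 2 := by ring
  rw [h3]
  ext v
  simp only [smul_apply, ContinuousLinearMap.comp_apply, innerSL_apply_apply, smul_eq_mul,
    add_apply, sub_apply, neg_apply, co]
  ring

/-- the derivative of the coefficient -/
theorem hasFDerivAt_co {F : E n → E 2} {F' : E n →L[ℝ] E 2} {y : E n} (hF : HasFDerivAt F F' y)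
    (hne : F y ≠ 0) (x₀ : E n) (κ c : ℝ) : HasFDerivAt (co F x₀ κ c)
      ((κ * (κ - 2) * ‖F y‖ ^ (κ - 4) * (c - ‖y - x₀‖ ^ 2) +
    (κ + 1 / 2) * (κ - 3 / 2) * ‖F y‖ ^ (κ - 7 / 2)) • (innerSL ℝ (F y)).comp F' -
      (2 * κ * ‖F y‖ ^ (κ - 2)) • innerSL ℝ (y - x₀)) y := by
  have h1 := ((hasFDerivAt_pow hF hne (κ - 2)).const_mul κ).mul
    ((hasFDerivAt_sq x₀ y).const_sub c)
  have h2 := (hasFDerivAt_pow hF hne (κ - 3 / 2)).const_mul (κ + 1 / 2)
  refine (h1.add h2).congr_fderiv ?_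
  have h3 : κ - 3 / 2 - 2 = κ - 7 / 2 := by ring
  have h4 : κ - 2 - 2 = κ - 4 := by ring
  rw [h3, h4]
  ext v
  simp only [smul_apply, ContinuousLinearMap.comp_apply, innerSL_apply_apply, smul_eq_mul,
    add_apply, sub_apply, neg_apply]
  ring

theorem contDiffAt_phi {F : E n → E 2} {x : E n} (hF : ContDiffAt ℝ 2 F x) (hne : F x ≠ 0)
    (x₀ : E n) (κ c : ℝ) : ContDiffAt ℝ 2 (phi F x₀ κ c) x := by
  have h1 : ∀ s : ℝ, ContDiffAt ℝ 2 (fun y => ‖F y‖ ^ s) x := fun s =>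
    (hF.norm ℝ hne).rpow_const_of_ne (norm_ne_zero_iff.2 hne)
  have h2 : ContDiffAt ℝ 2 (fun y : E n => ‖y - x₀‖ ^ 2) x := by
    have h : ContDiff ℝ 2 (fun y : E n => ‖y - x₀‖ ^ 2) :=
      (contDiff_id.sub contDiff_const).norm_sq ℝ
    exact h.contDiffAt
  exact ((h1 κ).mul (contDiffAt_const.sub h2)).add (h1 (κ + 1 / 2))

end PHI1_

open PHI1_

theorem phi1 : T_PHI1 := by
  intro n κ c x₀ x F hF hne a a' ha ha'
  have hC := contDiffAt_phi hF hne x₀ κ c
  have hFd : ∀ᶠ y in 𝓝 x, DifferentiableAt ℝ F y := by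
    filter_upwards [hF.eventually (by simp)] with y hy
    exact hy.differentiableAt two_ne_zero
  have hFne : ∀ᶠ y in 𝓝 x, F y ≠ 0 := hF.continuousAt.eventually_ne hne
  have hF1 : HasFDerivAt F (fderiv ℝ F x) x := (hF.differentiableAt two_ne_zero).hasFDerivAt
  have hco : a = co F x₀ κ c x := ha
  have hfirst := first hF1 hne x₀ κ c
  refine ⟨hC, fun h => ?_, fun h h' => ?_⟩
  · rw [inner_gradient_left, hfirst.fderiv, hco]
    simp only [smul_apply, ContinuousLinearMap.comp_apply, innerSL_apply_apply, smul_eq_mul,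
      sub_apply]
  · rw [inner_hs hC]
    have hD1 : DifferentiableAt ℝ (fderiv ℝ (phi F x₀ κ c)) x := by
      have h1 : ContDiffAt ℝ 1 (fderiv ℝ (phi F x₀ κ c)) x := hC.fderiv_right (by norm_num)
      exact h1.differentiableAt one_ne_zero
    have e1 : fderiv ℝ (fderiv ℝ (phi F x₀ κ c)) x h h' =
        fderiv ℝ (fun y => fderiv ℝ (phi F x₀ κ c) y h') x h := by
      have h1 := hD1.hasFDerivAt.clm_apply (hasFDerivAt_const h' x)
      rw [h1.fderiv]
      simp
    have e2 : (fun y => fderiv ℝ (phi F x₀ κ c) y h') =ᶠ[𝓝 x] fun y =>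
        co F x₀ κ c y * ⟪F y, fderiv ℝ F y h'⟫ - 2 * ‖F y‖ ^ κ * ⟪y - x₀, h'⟫ := by
      filter_upwards [hFd, hFne] with y h1 h2
      rw [(first h1.hasFDerivAt h2 x₀ κ c).fderiv]
      simp only [smul_apply, ContinuousLinearMap.comp_apply, innerSL_apply_apply, smul_eq_mul,
        sub_apply]
    have hD2 : HasFDerivAt (fderiv ℝ F) (fderiv ℝ (fderiv ℝ F) x) x := by
      have h1 : ContDiffAt ℝ 1 (fderiv ℝ F) x := hF.fderiv_right (by norm_num)
      exact (h1.differentiableAt one_ne_zero).hasFDerivAt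
    have hD3 := hD2.clm_apply (hasFDerivAt_const h' x)
    have hin := hF1.inner ℝ hD3
    have hin2 := ((hasFDerivAt_id x).sub_const x₀).inner ℝ (hasFDerivAt_const h' x)
    have hmain := ((hasFDerivAt_co hF1 hne x₀ κ c).mul hin).sub
      (((hasFDerivAt_pow hF1 hne κ).const_mul 2).mul hin2)
    have e3 : fderiv ℝ (fun y => co F x₀ κ c y * ⟪F y, fderiv ℝ F y h'⟫ -
        2 * ‖F y‖ ^ κ * ⟪y - x₀, h'⟫) x = _ := HasFDerivAt.fderiv hmain
    rw [e1, e2.fderiv_eq, e3]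
    simp only [smul_apply, ContinuousLinearMap.comp_apply, innerSL_apply_apply, smul_eq_mul,
      sub_apply, add_apply, id, ContinuousLinearMap.prod_apply, fderivInnerCLM_apply,
      ContinuousLinearMap.flip_apply, ContinuousLinearMap.id_apply,
      ContinuousLinearMap.comp_zero, zero_apply, inner_zero_right, zero_add]
    rw [← hco, ha']
    ring

end Pool.Agent.SCP
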