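import Pool.Agent.SCP.Targets

/-!
# PHI2: the asymptotics of the derivatives of the comparison function
-/

set_option autoImplicit false

open Set MeasureTheory Filter Topology Asymptotics Metric
open scoped RealInnerProductSpace

namespace Pool.Agent.SCP

namespace PHI2_

variable {n : ℕ}

theorem norm_le_of_inner {v : E n} {C : ℝ} (hC : 0 ≤ C) (h : ∀ w : E n, ⟪v, w⟫ ≤ C * ‖w‖) :
    ‖v‖ ≤ C := by
  have h1 := h v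
  rw [real_inner_self_eq_norm_sq] at h1
  rcases eq_or_lt_of_le (norm_nonneg v) with h2 | h2
  · rw [← h2]; exact hC
  · nlinarith

theorem norm_apply_le {L : E n →L[ℝ] E 2} (hL : Iso L) (h : E n) : ‖L h‖ ≤ ‖h‖ := by
  have h1 : ‖L h‖ ^ 2 = ⟪ContinuousLinearMap.adjoint L (L h), h⟫ := by
    rw [ContinuousLinearMap.adjoint_inner_left, real_inner_self_eq_norm_sq]
  have h2 := real_inner_le_norm (ContinuousLinearMap.adjoint L (L h)) h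
  rw [norm_adjoint hL, ← h1] at h2
  rcases eq_or_lt_of_le (norm_nonneg (L h)) with h3 | h3
  · rw [← h3]; exact norm_nonneg h
  · nlinarith

theorem ev_norm {Y Z : Type*} [NormedAddCommGroup Y] [NormedSpace ℝ Y] [NormedAddCommGroup Z]
    [NormedSpace ℝ Z] {f : Y → Z} {x₀ : Y} (h : ContDiffAt ℝ 0 f x₀) {K : ℝ} (hK : ‖f x₀‖ < K) :
    ∀ᶠ x in 𝓝 x₀, ‖f x‖ < K :=
  (h.continuousAt.norm).eventually (gt_mem_nhds hK)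

theorem rpow_split {ρ : ℝ} (hρ : 0 < ρ) {a b c : ℝ} (h : a = b + c) : ρ ^ a = ρ ^ b * ρ ^ c := by
  rw [h, Real.rpow_add hρ]

theorem rpow_split_nat {ρ : ℝ} (hρ : 0 < ρ) {a c : ℝ} (m : ℕ) (h : a = m + c) :
    ρ ^ a = ρ ^ m * ρ ^ c := by
  rw [h, Real.rpow_add hρ, Real.rpow_natCast]

/-- the scalar data -/
theorem scalars {κ c r ρ a a' : ℝ} (hκ : 1 < κ) (hρ : 0 < ρ)
    (hphi : 0 < ρ ^ κ * (c - r ^ 2) + ρ ^ (κ + 1 / 2))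
    (ha : a = κ * ρ ^ (κ - 2) * (c - r ^ 2) + (κ + 1 / 2) * ρ ^ (κ - 3 / 2))
    (ha' : a' = κ * (κ - 2) * ρ ^ (κ - 4) * (c - r ^ 2) +
      (κ + 1 / 2) * (κ - 3 / 2) * ρ ^ (κ - 7 / 2)) :
    ∃ b κ' : ℝ, 0 < b ∧ κ ≤ κ' ∧ κ' ≤ 2 * κ + 1 / 2 ∧ a * ρ = b ∧ a' * ρ ^ 3 = b * (κ' - 2) ∧
      ρ ^ κ ≤ 2 * b * ρ ^ (1 / 2 : ℝ) := by
  have hs : 0 < ρ ^ (κ - 1 / 2) := Real.rpow_pos_of_pos hρ _
  have hh : 0 < ρ ^ (1 / 2 : ℝ) := Real.rpow_pos_of_pos hρ _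
  have e1 : ρ ^ κ = ρ ^ 2 * ρ ^ (κ - 2) := rpow_split_nat hρ 2 (by push_cast; ring)
  have e2 : ρ ^ (κ + 1 / 2) = ρ * ρ ^ (κ - 1 / 2) := by
    have := rpow_split_nat hρ (a := κ + 1 / 2) (c := κ - 1 / 2) 1 (by push_cast; ring)
    rwa [pow_one] at this
  have e3 : ρ ^ (κ - 1 / 2) = ρ * ρ ^ (κ - 3 / 2) := by
    have := rpow_split_nat hρ (a := κ - 1 / 2) (c := κ - 3 / 2) 1 (by push_cast; ring)
    rwa [pow_one] at this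
  have e4 : ρ ^ (κ - 2) = ρ ^ 2 * ρ ^ (κ - 4) := rpow_split_nat hρ 2 (by push_cast; ring)
  have e5 : ρ ^ (κ - 3 / 2) = ρ ^ 2 * ρ ^ (κ - 7 / 2) := rpow_split_nat hρ 2 (by push_cast; ring)
  have e6 : ρ ^ κ = ρ ^ (κ - 1 / 2) * ρ ^ (1 / 2 : ℝ) := rpow_split hρ (by ring)
  set s := ρ ^ (κ - 1 / 2) with hsdef
  -- positivity
  have hz : -s < ρ * ρ ^ (κ - 2) * (c - r ^ 2) := by
    rw [e1, e2] at hphi
    have : 0 < ρ * (ρ * ρ ^ (κ - 2) * (c - r ^ 2) + s) := by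
      calc 0 < ρ ^ 2 * ρ ^ (κ - 2) * (c - r ^ 2) + ρ * s := hphi
        _ = _ := by ring
    have := (mul_pos_iff_of_pos_left hρ).1 this
    linarith
  have hb : a * ρ = κ * (ρ * ρ ^ (κ - 2) * (c - r ^ 2)) + (κ + 1 / 2) * s := by
    rw [ha, e3]; ring
  have hb0 : s / 2 < a * ρ := by
    rw [hb]
    nlinarith
  have hbpos : 0 < a * ρ := by linarith
  refine ⟨a * ρ, κ + (1 / 2) * (κ + 1 / 2) * s / (a * ρ), hbpos, ?_, ?_, rfl, ?_, ?_⟩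
  · have : 0 ≤ (1 / 2) * (κ + 1 / 2) * s / (a * ρ) := by positivity
    linarith
  · have : (1 / 2) * (κ + 1 / 2) * s / (a * ρ) ≤ κ + 1 / 2 := by
      rw [div_le_iff₀ hbpos]
      nlinarith
    linarith
  · have h1 : a * ρ * (κ + (1 / 2) * (κ + 1 / 2) * s / (a * ρ) - 2) =
        (κ - 2) * (a * ρ) + (1 / 2) * (κ + 1 / 2) * s := by
      generalize a * ρ = t at hbpos
      field_simp
      ring
    rw [h1, hb, ha', e3, e5, e4]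
    ring
  · rw [e6]
    nlinarith [mul_pos hs hh]

/-- the bound for the gradient -/
theorem grad_bound {δ b Q : ℝ} {L D : E n →L[ℝ] E 2} {f : E 2} {w G : E n}
    (hb : 0 < b) (hf : ‖f‖ = 1) (hD : ‖D - L‖ ≤ δ) (hw : ‖w‖ ≤ δ) (hQ0 : 0 ≤ Q) (hQ : Q ≤ 2 * b)
    (hδ : 0 ≤ δ) (hG : ∀ h, ⟪G, h⟫ = b * ⟪f, D h⟫ - 2 * Q * ⟪w, h⟫) :
    ‖G - b • ContinuousLinearMap.adjoint L f‖ ≤ 5 * δ * b := by
  refine norm_le_of_inner (by positivity) fun h => ?_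
  rw [inner_sub_left, real_inner_smul_left, hG, ContinuousLinearMap.adjoint_inner_left]
  have h1 : ⟪f, D h⟫ - ⟪f, L h⟫ = ⟪f, (D - L) h⟫ := by
    rw [← inner_sub_right]; rfl
  have h2 : ⟪f, (D - L) h⟫ ≤ δ * ‖h‖ := by
    calc ⟪f, (D - L) h⟫ ≤ ‖f‖ * ‖(D - L) h‖ := real_inner_le_norm _ _
      _ = ‖(D - L) h‖ := by rw [hf, one_mul]
      _ ≤ ‖D - L‖ * ‖h‖ := (D - L).le_opNorm h
      _ ≤ δ * ‖h‖ := by gcongr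
  have h3 : -⟪w, h⟫ ≤ δ * ‖h‖ := by
    have := abs_real_inner_le_norm w h
    have h4 : ‖w‖ * ‖h‖ ≤ δ * ‖h‖ := by gcongr
    linarith [neg_abs_le ⟪w, h⟫]
  have h4 : 0 ≤ δ * ‖h‖ := by positivity
  have h6 : b * ⟪f, D h⟫ - 2 * Q * ⟪w, h⟫ - b * ⟪f, L h⟫ =
      b * ⟪f, (D - L) h⟫ + 2 * Q * (-⟪w, h⟫) := by rw [← h1]; ring
  rw [h6]
  have h7 : b * ⟪f, (D - L) h⟫ ≤ b * (δ * ‖h‖) := by gcongr
  have h8 : 2 * Q * (-⟪w, h⟫) ≤ 2 * Q * (δ * ‖h‖) := by gcongr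
  have h9 : 2 * Q * (δ * ‖h‖) ≤ 2 * (2 * b) * (δ * ‖h‖) := by gcongr
  nlinarith

/-- the bound for the second derivative -/
theorem hs_bound {κ κ' k K δ b ρ Q : ℝ} {L D : E n →L[ℝ] E 2} {f : E 2} {w : E n}
    {H : E n →L[ℝ] E n} {S : E n →L[ℝ] E n →L[ℝ] E 2}
    (hL : Iso L) (hb : 0 < b) (hf : ‖f‖ = 1) (hD : ‖D - L‖ ≤ δ) (hS : ‖S‖ ≤ K) (hw : ‖w‖ ≤ δ)
    (hρ0 : 0 ≤ ρ) (hρ : ρ ≤ δ) (hQ0 : 0 ≤ Q) (hQ : Q ≤ 2 * b) (hδ : 0 ≤ δ) (hδ1 : δ ≤ 1)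
    (hκ1 : 1 < κ) (hκk : κ < k) (hκ : κ ≤ κ') (hκ' : κ' ≤ 2 * κ + 1 / 2) (hK : 0 ≤ K)
    (hH : ∀ h h', ⟪H h, h'⟫ = b * (⟪D h, D h'⟫ + ρ * ⟪f, S h h'⟫) +
      b * (κ' - 2) * (⟪f, D h⟫ * ⟪f, D h'⟫) -
      2 * κ * Q * (⟪f, D h⟫ * ⟪w, h'⟫ + ⟪w, h⟫ * ⟪f, D h'⟫) - 2 * (ρ * Q) * ⟪h, h'⟫) :
    ‖H - b • mdl L (ContinuousLinearMap.adjoint L f) κ'‖ ≤ (16 + K + 22 * k) * δ * b := by
  have hk : 0 < k := by linarith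
  refine ContinuousLinearMap.opNorm_le_bound _ (by positivity) fun h => ?_
  refine norm_le_of_inner (by positivity) fun h' => ?_
  have e1 : ⟪(H - b • mdl L (ContinuousLinearMap.adjoint L f) κ') h, h'⟫ =
      ⟪H h, h'⟫ - b * (⟪L h, L h'⟫ + (κ' - 2) * (⟪f, L h⟫ * ⟪f, L h'⟫)) := by
    simp only [mdl, sub_apply, smul_apply,
      add_apply, ContinuousLinearMap.comp_apply, ten_apply, inner_sub_left,
      inner_add_left, real_inner_smul_left, ContinuousLinearMap.adjoint_inner_left]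
  rw [e1, hH]
  -- basic bounds
  have hDL : ∀ x : E n, ‖D x - L x‖ ≤ δ * ‖x‖ := fun x => by
    calc ‖D x - L x‖ = ‖(D - L) x‖ := rfl
      _ ≤ ‖D - L‖ * ‖x‖ := (D - L).le_opNorm x
      _ ≤ δ * ‖x‖ := by gcongr
  have hDn : ∀ x : E n, ‖D x‖ ≤ 2 * ‖x‖ := fun x => by
    have h1 := norm_apply_le hL x
    have h2 := hDL x
    have h3 : ‖D x‖ ≤ ‖L x‖ + ‖D x - L x‖ := by
      calc ‖D x‖ = ‖L x + (D x - L x)‖ := by congr 1; abel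
        _ ≤ _ := norm_add_le _ _
    have h4 : δ * ‖x‖ ≤ 1 * ‖x‖ := by gcongr
    linarith
  have hfD : ∀ x : E n, |⟪f, D x⟫| ≤ 2 * ‖x‖ := fun x => by
    calc |⟪f, D x⟫| ≤ ‖f‖ * ‖D x‖ := abs_real_inner_le_norm _ _
      _ = ‖D x‖ := by rw [hf, one_mul]
      _ ≤ _ := hDn x
  have hfL : ∀ x : E n, |⟪f, L x⟫| ≤ ‖x‖ := fun x => by
    calc |⟪f, L x⟫| ≤ ‖f‖ * ‖L x‖ := abs_real_inner_le_norm _ _
      _ = ‖L x‖ := by rw [hf, one_mul]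
      _ ≤ _ := norm_apply_le hL x
  have hfDL : ∀ x : E n, |⟪f, D x⟫ - ⟪f, L x⟫| ≤ δ * ‖x‖ := fun x => by
    rw [← inner_sub_right]
    calc |⟪f, D x - L x⟫| ≤ ‖f‖ * ‖D x - L x‖ := abs_real_inner_le_norm _ _
      _ = ‖D x - L x‖ := by rw [hf, one_mul]
      _ ≤ _ := hDL x
  have hwx : ∀ x : E n, |⟪w, x⟫| ≤ δ * ‖x‖ := fun x => by
    calc |⟪w, x⟫| ≤ ‖w‖ * ‖x‖ := abs_real_inner_le_norm _ _
      _ ≤ _ := by gcongr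
  set X := ‖h‖ with hX
  set Y := ‖h'‖ with hY
  have hX0 : 0 ≤ X := norm_nonneg _
  have hY0 : 0 ≤ Y := norm_nonneg _
  have hXY : 0 ≤ X * Y := mul_nonneg hX0 hY0
  -- term 1
  have t1 : ⟪D h, D h'⟫ - ⟪L h, L h'⟫ ≤ 3 * δ * (X * Y) := by
    have e : ⟪D h, D h'⟫ - ⟪L h, L h'⟫ = ⟪D h - L h, D h'⟫ + ⟪L h, D h' - L h'⟫ := by
      rw [inner_sub_left, inner_sub_right]; ring
    have a1 : ⟪D h - L h, D h'⟫ ≤ (δ * X) * (2 * Y) := by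
      calc ⟪D h - L h, D h'⟫ ≤ ‖D h - L h‖ * ‖D h'‖ := real_inner_le_norm _ _
        _ ≤ _ := mul_le_mul (hDL h) (hDn h') (norm_nonneg _) (by positivity)
    have a2 : ⟪L h, D h' - L h'⟫ ≤ X * (δ * Y) := by
      calc ⟪L h, D h' - L h'⟫ ≤ ‖L h‖ * ‖D h' - L h'‖ := real_inner_le_norm _ _
        _ ≤ _ := mul_le_mul (norm_apply_le hL h) (hDL h') (norm_nonneg _) (by positivity)
    rw [e]
    nlinarith
  -- term 2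
  have t2 : ρ * ⟪f, S h h'⟫ ≤ δ * K * (X * Y) := by
    have a1 : ⟪f, S h h'⟫ ≤ K * (X * Y) := by
      calc ⟪f, S h h'⟫ ≤ ‖f‖ * ‖S h h'‖ := real_inner_le_norm _ _
        _ = ‖S h h'‖ := by rw [hf, one_mul]
        _ ≤ ‖S‖ * ‖h‖ * ‖h'‖ := S.le_opNorm₂ h h'
        _ ≤ K * ‖h‖ * ‖h'‖ := by gcongr
        _ = K * (X * Y) := by rw [hX, hY]; ring
    calc ρ * ⟪f, S h h'⟫ ≤ ρ * (K * (X * Y)) := by gcongr
      _ ≤ δ * (K * (X * Y)) := by gcongr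
      _ = _ := by ring
  -- term 3
  have t3 : (κ' - 2) * (⟪f, D h⟫ * ⟪f, D h'⟫ - ⟪f, L h⟫ * ⟪f, L h'⟫) ≤
      (2 * k + 3) * (3 * δ * (X * Y)) := by
    have e : ⟪f, D h⟫ * ⟪f, D h'⟫ - ⟪f, L h⟫ * ⟪f, L h'⟫ =
        (⟪f, D h⟫ - ⟪f, L h⟫) * ⟪f, D h'⟫ + ⟪f, L h⟫ * (⟪f, D h'⟫ - ⟪f, L h'⟫) := by ring
    have a1 : |⟪f, D h⟫ * ⟪f, D h'⟫ - ⟪f, L h⟫ * ⟪f, L h'⟫| ≤ 3 * δ * (X * Y) := by
      rw [e]
      calc |(⟪f, D h⟫ - ⟪f, L h⟫) * ⟪f, D h'⟫ + ⟪f, L h⟫ * (⟪f, D h'⟫ - ⟪f, L h'⟫)|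
          ≤ |(⟪f, D h⟫ - ⟪f, L h⟫) * ⟪f, D h'⟫| + |⟪f, L h⟫ * (⟪f, D h'⟫ - ⟪f, L h'⟫)| :=
            abs_add_le _ _
        _ = |⟪f, D h⟫ - ⟪f, L h⟫| * |⟪f, D h'⟫| + |⟪f, L h⟫| * |⟪f, D h'⟫ - ⟪f, L h'⟫| := by
            rw [abs_mul, abs_mul]
        _ ≤ (δ * X) * (2 * Y) + X * (δ * Y) := by
            gcongr
            · exact hfDL h
            · exact hfD h'
            · exact hfL h
            · exact hfDL h'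
        _ = _ := by ring
    have a2 : |κ' - 2| ≤ 2 * k + 3 := by
      rw [abs_le]; constructor <;> linarith
    calc (κ' - 2) * (⟪f, D h⟫ * ⟪f, D h'⟫ - ⟪f, L h⟫ * ⟪f, L h'⟫)
        ≤ |(κ' - 2) * (⟪f, D h⟫ * ⟪f, D h'⟫ - ⟪f, L h⟫ * ⟪f, L h'⟫)| := le_abs_self _
      _ = |κ' - 2| * |⟪f, D h⟫ * ⟪f, D h'⟫ - ⟪f, L h⟫ * ⟪f, L h'⟫| := abs_mul _ _
      _ ≤ _ := mul_le_mul a2 a1 (abs_nonneg _) (by positivity)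
  -- term 4
  have t4 : -(2 * κ * Q * (⟪f, D h⟫ * ⟪w, h'⟫ + ⟪w, h⟫ * ⟪f, D h'⟫)) ≤
      16 * k * b * (δ * (X * Y)) := by
    have a1 : |⟪f, D h⟫ * ⟪w, h'⟫ + ⟪w, h⟫ * ⟪f, D h'⟫| ≤ 4 * (δ * (X * Y)) := by
      calc |⟪f, D h⟫ * ⟪w, h'⟫ + ⟪w, h⟫ * ⟪f, D h'⟫|
          ≤ |⟪f, D h⟫ * ⟪w, h'⟫| + |⟪w, h⟫ * ⟪f, D h'⟫| := abs_add_le _ _
        _ = |⟪f, D h⟫| * |⟪w, h'⟫| + |⟪w, h⟫| * |⟪f, D h'⟫| := by rw [abs_mul, abs_mul]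
        _ ≤ (2 * X) * (δ * Y) + (δ * X) * (2 * Y) := by
            gcongr
            · exact hfD h
            · exact hwx h'
            · exact hwx h
            · exact hfD h'
        _ = _ := by ring
    have a2 : -(⟪f, D h⟫ * ⟪w, h'⟫ + ⟪w, h⟫ * ⟪f, D h'⟫) ≤ 4 * (δ * (X * Y)) := by
      linarith [neg_abs_le (⟪f, D h⟫ * ⟪w, h'⟫ + ⟪w, h⟫ * ⟪f, D h'⟫)]
    have a3 : 0 ≤ δ * (X * Y) := by positivity
    calc -(2 * κ * Q * (⟪f, D h⟫ * ⟪w, h'⟫ + ⟪w, h⟫ * ⟪f, D h'⟫))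
        = 2 * κ * Q * (-(⟪f, D h⟫ * ⟪w, h'⟫ + ⟪w, h⟫ * ⟪f, D h'⟫)) := by ring
      _ ≤ 2 * κ * Q * (4 * (δ * (X * Y))) := by gcongr
      _ ≤ 2 * k * (2 * b) * (4 * (δ * (X * Y))) := by gcongr
      _ = _ := by ring
  -- term 5
  have t5 : -(2 * (ρ * Q) * ⟪h, h'⟫) ≤ 4 * b * (δ * (X * Y)) := by
    have a1 : -⟪h, h'⟫ ≤ X * Y := by
      have := abs_real_inner_le_norm h h'
      linarith [neg_abs_le ⟪h, h'⟫]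
    calc -(2 * (ρ * Q) * ⟪h, h'⟫) = 2 * (ρ * Q) * (-⟪h, h'⟫) := by ring
      _ ≤ 2 * (ρ * Q) * (X * Y) := by gcongr
      _ ≤ 2 * (δ * (2 * b)) * (X * Y) := by gcongr
      _ = _ := by ring
  have hfin : b * (⟪D h, D h'⟫ + ρ * ⟪f, S h h'⟫) +
      b * (κ' - 2) * (⟪f, D h⟫ * ⟪f, D h'⟫) -
      2 * κ * Q * (⟪f, D h⟫ * ⟪w, h'⟫ + ⟪w, h⟫ * ⟪f, D h'⟫) - 2 * (ρ * Q) * ⟪h, h'⟫ -
      b * (⟪L h, L h'⟫ + (κ' - 2) * (⟪f, L h⟫ * ⟪f, L h'⟫)) =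
      b * (⟪D h, D h'⟫ - ⟪L h, L h'⟫) + b * (ρ * ⟪f, S h h'⟫) +
      b * ((κ' - 2) * (⟪f, D h⟫ * ⟪f, D h'⟫ - ⟪f, L h⟫ * ⟪f, L h'⟫)) +
      -(2 * κ * Q * (⟪f, D h⟫ * ⟪w, h'⟫ + ⟪w, h⟫ * ⟪f, D h'⟫)) +
      -(2 * (ρ * Q) * ⟪h, h'⟫) := by ring
  rw [hfin]
  have b1 := mul_le_mul_of_nonneg_left t1 hb.le
  have b2 := mul_le_mul_of_nonneg_left t2 hb.le
  have b3 := mul_le_mul_of_nonneg_left t3 hb.le
  calc _ ≤ b * (3 * δ * (X * Y)) + b * (δ * K * (X * Y)) + b * ((2 * k + 3) * (3 * δ * (X * Y))) +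
        16 * k * b * (δ * (X * Y)) + 4 * b * (δ * (X * Y)) := by linarith
    _ = (16 + K + 22 * k) * δ * b * X * Y := by ring
    _ ≤ _ := le_refl _

end PHI2_

open PHI2_ in
theorem phi2 (h1 : T_PHI1) : T_PHI2 := by
  intro n k x₀ F hk hF hF0 hL ε hε
  set L := fderiv ℝ F x₀ with hLdef
  have hDF : ContDiffAt ℝ 1 (fderiv ℝ F) x₀ := hF.fderiv_right (by norm_num)
  have hD2F : ContDiffAt ℝ 0 (fderiv ℝ (fderiv ℝ F)) x₀ := hDF.fderiv_right (by norm_num)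
  set K := ‖fderiv ℝ (fderiv ℝ F) x₀‖ + 1 with hK
  have hK0 : 0 ≤ K := by positivity
  set δ := min 1 (ε / (16 + K + 22 * k)) with hδ
  have hden : 0 < 16 + K + 22 * k := by positivity
  have hδ0 : 0 < δ := by
    rw [hδ]; exact lt_min one_pos (div_pos hε hden)
  have hδ1 : δ ≤ 1 := min_le_left _ _
  have hδ2 : (16 + K + 22 * k) * δ ≤ ε := by
    have : δ ≤ ε / (16 + K + 22 * k) := min_le_right _ _
    rw [le_div_iff₀ hden] at this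
    linarith
  have ev1 : ∀ᶠ x in 𝓝 x₀, ContDiffAt ℝ 2 F x := hF.eventually (by simp)
  have ev2 : ∀ᶠ x in 𝓝 x₀, ‖fderiv ℝ F x - L‖ < δ := by
    have h : Tendsto (fun x => ‖fderiv ℝ F x - L‖) (𝓝 x₀) (𝓝 ‖fderiv ℝ F x₀ - L‖) :=
      (hDF.continuousAt.sub continuousAt_const).norm
    refine h.eventually (gt_mem_nhds ?_)
    simp [hLdef, hδ0]
  have ev3 : ∀ᶠ x in 𝓝 x₀, ‖fderiv ℝ (fderiv ℝ F) x‖ < K := by
    exact ev_norm hD2F (by rw [hK]; linarith)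
  have ev4 : ∀ᶠ x in 𝓝 x₀, ‖F x‖ < δ := by
    have h : Tendsto (fun x => ‖F x‖) (𝓝 x₀) (𝓝 ‖F x₀‖) := hF.continuousAt.norm
    refine h.eventually (gt_mem_nhds ?_)
    rw [hF0]; simpa using hδ0
  have ev5 : ∀ᶠ x in 𝓝 x₀, ‖x - x₀‖ < δ := by
    have h : Tendsto (fun x : E n => ‖x - x₀‖) (𝓝 x₀) (𝓝 ‖x₀ - x₀‖) :=
      (continuousAt_id.sub continuousAt_const).norm
    refine h.eventually (gt_mem_nhds ?_)
    simpa using hδ0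
  have evw : ∀ᶠ x in 𝓝[{x | F x ≠ 0}] x₀, F x ≠ 0 := eventually_mem_nhdsWithin
  filter_upwards [nhdsWithin_le_nhds ev1, nhdsWithin_le_nhds ev2, nhdsWithin_le_nhds ev3,
    nhdsWithin_le_nhds ev4, nhdsWithin_le_nhds ev5, evw] with x c1 c2 c3 c4 c5 c6
  intro κ c hκ1 hκk hc0 hc1 hphi
  have hρ : 0 < ‖F x‖ := norm_pos_iff.2 c6
  have hρ1 : ‖F x‖ ≤ 1 := c4.le.trans hδ1
  obtain ⟨p1, p2, p3⟩ := h1 n κ c x₀ x F c1 c6 _ _ rfl rfl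
  obtain ⟨b, κ', q1, q2, q3, q4, q5, q6⟩ := scalars (κ := κ) (c := c) (r := ‖x - x₀‖)
    (ρ := ‖F x‖) hκ1 hρ hphi rfl rfl
  have hhat : ‖hat F x‖ = 1 := by
    rw [hat, norm_smul, norm_inv, norm_norm, inv_mul_cancel₀ hρ.ne']
  have hFh : F x = ‖F x‖ • hat F x := by
    rw [hat, smul_smul, mul_inv_cancel₀ hρ.ne', one_smul]
  have hin : ∀ y : E 2, ⟪F x, y⟫ = ‖F x‖ * ⟪hat F x, y⟫ := fun y => by
    conv_lhs => rw [hFh]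
    rw [real_inner_smul_left]
  have hQ0 : 0 ≤ ‖F x‖ ^ κ := Real.rpow_nonneg hρ.le _
  have hQ : ‖F x‖ ^ κ ≤ 2 * b := by
    have : ‖F x‖ ^ (1 / 2 : ℝ) ≤ 1 := Real.rpow_le_one hρ.le hρ1 (by norm_num)
    nlinarith
  refine ⟨p1, b, κ', q1, q2, q3, ?_, ?_⟩
  · refine (grad_bound (D := fderiv ℝ F x) (w := x - x₀) (Q := ‖F x‖ ^ κ) q1
      hhat c2.le c5.le hQ0 hQ hδ0.le ?_).trans ?_
    · intro h
      rw [p2, hin, ← q4]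
      ring
    · have h5 : 5 * δ ≤ ε := by
        have : 5 * δ ≤ (16 + K + 22 * k) * δ := by
          gcongr
          linarith
        linarith
      gcongr
  · refine (hs_bound (κ := κ) (k := k) (K := K) (ρ := ‖F x‖) (D := fderiv ℝ F x) (w := x - x₀)
      (Q := ‖F x‖ ^ κ) (S := fderiv ℝ (fderiv ℝ F) x) hL q1
      hhat c2.le c3.le c5.le hρ.le c4.le hQ0 hQ hδ0.le hδ1 hκ1 hκk q2 q3 hK0 ?_).trans ?_
    · intro h h'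
      have e7 : ‖F x‖ ^ κ = ‖F x‖ ^ 2 * ‖F x‖ ^ (κ - 2) := rpow_split_nat hρ 2 (by push_cast; ring)
      rw [smul_apply, real_inner_smul_left, p3, ← q5, hin, hin, hin, ← q4]
      have e8 : ‖F x‖ ^ κ = ‖F x‖ ^ κ := rfl
      rw [show (2 * κ * ‖F x‖ ^ κ : ℝ) = 2 * κ * (‖F x‖ ^ 2 * ‖F x‖ ^ (κ - 2)) by rw [← e7]]
      ring
    · gcongr

end Pool.Agent.SCP
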