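import Pool.Agent.SCP.Defs2

/-!
# Decay towards the kernel of `L`
-/

set_option autoImplicit false

open Set MeasureTheory Filter Topology Asymptotics
open scoped RealInnerProductSpace

namespace Pool.Agent.SCP

namespace RAY_

variable {n : ℕ}

/-- The point of the ray through `y`. -/
noncomputable def yt (L : E n →L[ℝ] E 2) (y : E n) (t : ℝ) : E n :=
  pk L y + t • ContinuousLinearMap.adjoint L (L y)

theorem L_pk {L : E n →L[ℝ] E 2} (hL : Iso L) (y : E n) : L (pk L y) = 0 := by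
  unfold pk
  rw [map_sub, hL, sub_self]

theorem L_yt {L : E n →L[ℝ] E 2} (hL : Iso L) (y : E n) (t : ℝ) : L (yt L y t) = t • L y := by
  unfold yt
  rw [map_add, L_pk hL, map_smul, hL, zero_add]

theorem yt_one (L : E n →L[ℝ] E 2) (y : E n) : yt L y 1 = y := by
  unfold yt pk
  rw [one_smul, sub_add_cancel]

theorem norm_le_of {L : E n →L[ℝ] E 2} (hL : Iso L) (z : E n) : ‖z‖ ≤ ‖pk L z‖ + ‖L z‖ := by
  calc ‖z‖ = ‖pk L z + ContinuousLinearMap.adjoint L (L z)‖ := by
        unfold pk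
        rw [sub_add_cancel]
    _ ≤ ‖pk L z‖ + ‖ContinuousLinearMap.adjoint L (L z)‖ := norm_add_le _ _
    _ = ‖pk L z‖ + ‖L z‖ := by rw [norm_adjoint hL]

theorem pk_yt {L : E n →L[ℝ] E 2} (hL : Iso L) (y : E n) (t : ℝ) : pk L (yt L y t) = pk L y := by
  have h : pk L (yt L y t) = yt L y t - ContinuousLinearMap.adjoint L (L (yt L y t)) := rfl
  rw [h, L_yt hL, map_smul]
  unfold yt
  rw [add_sub_cancel_right]

theorem continuous_pk (L : E n →L[ℝ] E 2) : Continuous (pk L) := by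
  unfold pk
  fun_prop

/-- The monotonicity along a ray. -/
theorem mono {L : E n →L[ℝ] E 2} (hL : Iso L) {w : E n → E n} {k κ δ r : ℝ}
    (hrδ : r + r < δ)
    (h : ∀ y : E n, ‖y‖ < δ → L y ≠ 0 → DifferentiableAt ℝ w y ∧
      ‖fderiv ℝ w y (ContinuousLinearMap.adjoint L (L y)) - (k - 1) • w y‖ ≤ (k - κ) * ‖w y‖)
    {y : E n} (hy0 : L y ≠ 0) (hy1 : ‖L y‖ ≤ r) (hy2 : ‖pk L y‖ ≤ r) :
    ‖w y‖ ^ 2 ≤ ‖w (yt L y (r / ‖L y‖))‖ ^ 2 * (r / ‖L y‖) ^ (-(2 * (κ - 1))) := by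
  have hpos : 0 < ‖L y‖ := norm_pos_iff.2 hy0
  set T := r / ‖L y‖ with hT
  have hT1 : 1 ≤ T := (one_le_div hpos).2 hy1
  set s := -(2 * (κ - 1)) with hs
  set v := ContinuousLinearMap.adjoint L (L y) with hv
  have hball : ∀ t ∈ Icc 1 T, ‖yt L y t‖ < δ ∧ L (yt L y t) ≠ 0 := by
    intro t ht
    have ht0 : 0 < t := one_pos.trans_le ht.1
    refine ⟨?_, ?_⟩
    · refine lt_of_le_of_lt (norm_le_of hL _) ?_
      rw [pk_yt hL, L_yt hL, norm_smul, Real.norm_of_nonneg ht0.le]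
      have h2 : t * ‖L y‖ ≤ r := by
        have := (le_div_iff₀ hpos).1 ht.2
        exact this
      linarith
    · rw [L_yt hL]
      exact smul_ne_zero ht0.ne' hy0
  have hder : ∀ t ∈ Icc 1 T, HasDerivAt (fun t => ‖w (yt L y t)‖ ^ 2 * t ^ s)
      (2 * ⟪w (yt L y t), fderiv ℝ w (yt L y t) v⟫ * t ^ s +
        ‖w (yt L y t)‖ ^ 2 * (s * t ^ (s - 1))) t := by
    intro t ht
    have ht0 : 0 < t := one_pos.trans_le ht.1
    obtain ⟨h1, h2⟩ := hball t ht
    have hw := (h _ h1 h2).1.hasFDerivAt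
    have hc : HasDerivAt (yt L y) v t := by
      have h3 := ((hasDerivAt_id t).smul_const v).const_add (pk L y)
      rw [one_smul] at h3
      exact h3
    have hcomp := (hw.comp_hasDerivAt t hc).norm_sq
    exact hcomp.mul (Real.hasDerivAt_rpow_const (Or.inl ht0.ne'))
  have hmono : MonotoneOn (fun t => ‖w (yt L y t)‖ ^ 2 * t ^ s) (Icc 1 T) := by
    refine monotoneOn_of_deriv_nonneg (convex_Icc 1 T) ?_ ?_ ?_
    · exact fun t ht => (hder t ht).continuousAt.continuousWithinAt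
    · exact fun t ht => (hder t (interior_subset ht)).differentiableAt.differentiableWithinAt
    · intro t ht
      have ht' := interior_subset ht
      have ht0 : 0 < t := one_pos.trans_le ht'.1
      obtain ⟨h1, h2⟩ := hball t ht'
      have hw := (h _ h1 h2).2
      rw [(hder t ht').deriv]
      set W := w (yt L y t) with hW
      have e1 : ContinuousLinearMap.adjoint L (L (yt L y t)) = t • v := by
        rw [L_yt hL, map_smul]
      rw [e1, map_smul] at hw
      have e2 : ⟪W, t • fderiv ℝ w (yt L y t) v⟫ ≥ (k - 1) * ‖W‖ ^ 2 - (k - κ) * ‖W‖ ^ 2 := by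
        have e3 : t • fderiv ℝ w (yt L y t) v =
            (k - 1) • W + (t • fderiv ℝ w (yt L y t) v - (k - 1) • W) := by abel
        rw [e3, inner_add_right, inner_smul_right, real_inner_self_eq_norm_sq]
        have e4 := abs_real_inner_le_norm W (t • fderiv ℝ w (yt L y t) v - (k - 1) • W)
        have e5 : ‖W‖ * ‖t • fderiv ℝ w (yt L y t) v - (k - 1) • W‖ ≤ ‖W‖ * ((k - κ) * ‖W‖) :=
          mul_le_mul_of_nonneg_left hw (norm_nonneg _)
        have e6 := neg_abs_le ⟪W, t • fderiv ℝ w (yt L y t) v - (k - 1) • W⟫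
        nlinarith
      rw [inner_smul_right] at e2
      have e7 : t ^ s = t ^ (s - 1) * t := by
        rw [← Real.rpow_add_one ht0.ne', sub_add_cancel]
      rw [e7]
      have e8 : 0 < t ^ (s - 1) := Real.rpow_pos_of_pos ht0 _
      have e9 : 2 * ⟪W, fderiv ℝ w (yt L y t) v⟫ * (t ^ (s - 1) * t) +
          ‖W‖ ^ 2 * (s * t ^ (s - 1)) = t ^ (s - 1) *
          (2 * (t * ⟪W, fderiv ℝ w (yt L y t) v⟫) + s * ‖W‖ ^ 2) := by ring
      rw [e9]
      refine mul_nonneg e8.le ?_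
      rw [hs]
      nlinarith
  have hfin := hmono (left_mem_Icc.2 hT1) (right_mem_Icc.2 hT1) hT1
  simpa only [yt_one, Real.one_rpow, mul_one] using hfin

end RAY_

open RAY_

theorem ray : T_RAY := by
  intro n k κ L w hL hκ hest
  have hev := hest (k - κ) (by linarith)
  rw [eventually_nhdsWithin_iff, Metric.eventually_nhds_iff] at hev
  obtain ⟨δ, hδ, hball⟩ := hev
  have h : ∀ y : E n, ‖y‖ < δ → L y ≠ 0 → DifferentiableAt ℝ w y ∧
      ‖fderiv ℝ w y (ContinuousLinearMap.adjoint L (L y)) - (k - 1) • w y‖ ≤ (k - κ) * ‖w y‖ := by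
    intro y hy hy0
    exact hball (by rwa [dist_zero_right]) hy0
  set r := δ / 4 with hr
  have hr0 : 0 < r := by positivity
  have hrδ : r + r < δ := by
    rw [hr]
    linarith
  -- the bound on the compact set
  set K : Set (E n) := {z | ‖L z‖ = r ∧ ‖pk L z‖ ≤ r} with hK
  have hKn : ∀ z ∈ K, ‖z‖ ≤ r + r := by
    intro z hz
    have := norm_le_of hL z
    rw [hz.1] at this
    linarith [hz.2]
  have hKc : IsCompact K := by
    refine Metric.isCompact_of_isClosed_isBounded ?_ ?_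
    · exact (isClosed_eq (L.continuous.norm) continuous_const).inter
        (isClosed_le (continuous_pk L).norm continuous_const)
    · refine (Metric.isBounded_closedBall (x := (0 : E n)) (r := r + r)).subset ?_
      intro z hz
      rw [mem_closedBall_zero_iff]
      exact hKn z hz
  have hcont : ContinuousOn w K := by
    intro z hz
    have h1 : L z ≠ 0 := by
      intro h0
      have := hz.1
      rw [h0, norm_zero] at this
      linarith
    exact (h z ((hKn z hz).trans_lt hrδ) h1).1.continuousAt.continuousWithinAt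
  obtain ⟨M, hM⟩ := hKc.exists_bound_of_continuousOn hcont
  refine ⟨M * r ^ (-(κ - 1)), ?_⟩
  have hev1 : ∀ᶠ y in 𝓝 (0 : E n), ‖L y‖ < r := by
    have h1 : Tendsto (fun y : E n => ‖L y‖) (𝓝 0) (𝓝 ‖L 0‖) := L.continuous.norm.tendsto 0
    rw [map_zero, norm_zero] at h1
    exact h1.eventually (gt_mem_nhds hr0)
  have hev2 : ∀ᶠ y in 𝓝 (0 : E n), ‖pk L y‖ < r := by
    have h1 : Tendsto (fun y : E n => ‖pk L y‖) (𝓝 0) (𝓝 ‖pk L 0‖) :=
      (continuous_pk L).norm.tendsto 0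
    have h2 : pk L 0 = 0 := by
      unfold pk
      simp
    rw [h2, norm_zero] at h1
    exact h1.eventually (gt_mem_nhds hr0)
  rw [eventually_nhdsWithin_iff]
  filter_upwards [hev1, hev2] with y hy1 hy2 hy0
  have hpos : 0 < ‖L y‖ := norm_pos_iff.2 hy0
  have hmain := mono hL hrδ h hy0 hy1.le hy2.le
  have hTpos : 0 < r / ‖L y‖ := by positivity
  have hyK : yt L y (r / ‖L y‖) ∈ K := by
    refine ⟨?_, ?_⟩
    · rw [L_yt hL, norm_smul, Real.norm_of_nonneg hTpos.le, div_mul_cancel₀ _ hpos.ne']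
    · rw [pk_yt hL]
      exact hy2.le
  have hMy := hM _ hyK
  have hM0 : 0 ≤ M := (norm_nonneg _).trans hMy
  have e1 : (r / ‖L y‖) ^ (-(2 * (κ - 1))) = ((r / ‖L y‖) ^ (-(κ - 1))) ^ 2 := by
    rw [← Real.rpow_natCast, ← Real.rpow_mul hTpos.le]
    congr 1
    push_cast
    ring
  rw [e1, ← mul_pow] at hmain
  have e2 : ‖w y‖ ≤ ‖w (yt L y (r / ‖L y‖))‖ * (r / ‖L y‖) ^ (-(κ - 1)) :=
    (pow_le_pow_iff_left₀ (norm_nonneg _) (by positivity) two_ne_zero).1 hmain
  have e3 : (r / ‖L y‖) ^ (-(κ - 1)) = r ^ (-(κ - 1)) * ‖L y‖ ^ (κ - 1) := by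
    rw [Real.div_rpow hr0.le hpos.le, div_eq_mul_inv, ← Real.rpow_neg hpos.le, neg_neg]
  calc ‖w y‖ ≤ ‖w (yt L y (r / ‖L y‖))‖ * (r / ‖L y‖) ^ (-(κ - 1)) := e2
    _ ≤ M * (r / ‖L y‖) ^ (-(κ - 1)) := mul_le_mul_of_nonneg_right hMy (by positivity)
    _ = M * r ^ (-(κ - 1)) * ‖L y‖ ^ (κ - 1) := by rw [e3, mul_assoc]

end Pool.Agent.SCP
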