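import Pool.Agent.SCP.Targets

/-!
# The algebraic inequality in real numbers
-/

set_option autoImplicit false

open Set MeasureTheory Filter Topology Asymptotics Metric
open scoped RealInnerProductSpace

namespace Pool.Agent.SCP

namespace REAL_

/-- a quadratic form in two variables -/
theorem quad {Bd S X x : ℝ} (hB : 0 < Bd) (hS : 0 ≤ S) (h : S ≤ 4 * Bd) :
    0 ≤ Bd * X ^ 2 + S * x * X + S * x ^ 2 := by
  have h1 : 4 * Bd * (Bd * X ^ 2 + S * x * X + S * x ^ 2) =
      (2 * Bd * X + S * x) ^ 2 + S * x ^ 2 * (4 * Bd - S) := by ring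
  have h2 : 0 ≤ 4 * Bd * (Bd * X ^ 2 + S * x * X + S * x ^ 2) := by
    rw [h1]
    have : 0 ≤ S * x ^ 2 * (4 * Bd - S) := by
      apply mul_nonneg (mul_nonneg hS (sq_nonneg x))
      linarith
    positivity
  by_contra h3
  push Not at h3
  have : 4 * Bd * (Bd * X ^ 2 + S * x * X + S * x ^ 2) < 0 :=
    mul_neg_of_pos_of_neg (by linarith) h3
  linarith

theorem coef {P l : ℝ} (hP : 0 < P) (hl : 0 < l) (h : 0 < P + l * (2 * P - 1)) :
    (P - 1) ^ 2 * l ≤ 4 * (P * (1 + P * l)) := by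
  rcases le_or_gt (1 / 3) P with h1 | h1
  · have h2 : (P - 1) ^ 2 ≤ 4 * P ^ 2 := by nlinarith
    have h3 := mul_le_mul_of_nonneg_right h2 hl.le
    nlinarith [mul_pos hP hl]
  · have h2 : 0 ≤ P ^ 2 * l := by positivity
    nlinarith

end REAL_

open REAL_ in
theorem real : T_REAL := by
  intro P l x y b μ d hP hl hE hb hd h0 heq hX
  by_cases hz : x ^ 2 + y ^ 2 = 0
  · have hμ := h0 hz
    have hx : x = 0 := by nlinarith [sq_nonneg x, sq_nonneg y]
    have hy : y = 0 := by nlinarith [sq_nonneg x, sq_nonneg y]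
    subst hμ hx hy
    have hb2 : 0 < b ^ 2 := by simpa using hX
    have h1 : 0 < b ^ 2 * (1 + P * (l + d)) := by positivity
    nlinarith
  · have hpos : 0 < x ^ 2 + y ^ 2 := lt_of_le_of_ne (by positivity) (Ne.symm hz)
    have hD : 0 < x ^ 2 + P * y ^ 2 := by
      rcases eq_or_ne x 0 with rfl | hx
      · have hy : 0 < y ^ 2 := by simpa using hpos
        have : 0 < P * y ^ 2 := by positivity
        simpa using this
      · have : 0 < x ^ 2 := by positivity
        have : 0 ≤ P * y ^ 2 := by positivity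
        linarith
    have hB2 : 0 < 1 + P * l := by positivity
    have hkey : (x ^ 2 + P * y ^ 2) * (2 * x * (l * x + μ) + b * (l * x + μ) +
        ((x + b) ^ 2 + y ^ 2) * (l + 1 + d) +
        (P - 1) * (2 * l * (x ^ 2 + y ^ 2) + b * l * x +
        ((x + b) ^ 2 + y ^ 2 + (l + 1 + d - 2) * (x + b) ^ 2))) =
        (x ^ 2 + P * y ^ 2) * (d * (P * (x + b) ^ 2 + y ^ 2)) +
        ((1 + P * l) * (x ^ 2 + P * y ^ 2) * (x + b) ^ 2 +
          ((P - 1) ^ 2 * l * y ^ 2) * x * (x + b) + ((P - 1) ^ 2 * l * y ^ 2) * x ^ 2) +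
        y ^ 2 * ((P + l * (2 * P - 1)) * (x ^ 2 + P * y ^ 2)) := by
      linear_combination (2 * x + b) * heq
    have hS0 : 0 ≤ (P - 1) ^ 2 * l * y ^ 2 := by positivity
    have hS : (P - 1) ^ 2 * l * y ^ 2 ≤ 4 * ((1 + P * l) * (x ^ 2 + P * y ^ 2)) := by
      have h1 := mul_le_mul_of_nonneg_right (coef hP hl hE) (sq_nonneg y)
      have h2 : 0 ≤ (1 + P * l) * x ^ 2 := by positivity
      nlinarith
    have hq := quad (X := x + b) (x := x) (mul_pos hB2 hD) hS0 hS
    have hd' : 0 ≤ (x ^ 2 + P * y ^ 2) * (d * (P * (x + b) ^ 2 + y ^ 2)) := by positivity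
    have hpos2 : 0 < (x ^ 2 + P * y ^ 2) * (2 * x * (l * x + μ) + b * (l * x + μ) +
        ((x + b) ^ 2 + y ^ 2) * (l + 1 + d) +
        (P - 1) * (2 * l * (x ^ 2 + y ^ 2) + b * l * x +
        ((x + b) ^ 2 + y ^ 2 + (l + 1 + d - 2) * (x + b) ^ 2))) := by
      rw [hkey]
      rcases eq_or_ne y 0 with rfl | hy
      · have hX2 : 0 < (x + b) ^ 2 := by simpa using hX
        have h4 : 0 < (1 + P * l) * (x ^ 2 + P * 0 ^ 2) * (x + b) ^ 2 :=
          mul_pos (mul_pos hB2 hD) hX2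
        nlinarith
      · have h5 : 0 < y ^ 2 * ((P + l * (2 * P - 1)) * (x ^ 2 + P * y ^ 2)) :=
          mul_pos (by positivity) (mul_pos hE hD)
        linarith
    exact (pos_iff_pos_of_mul_pos hpos2).1 hD

end Pool.Agent.SCP
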