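import Pool.Agent.SCP.Targets

/-!
# REGDIV: the divergence of the regularised field of a strict subsolution
-/

set_option autoImplicit false

open Set MeasureTheory Filter Topology Asymptotics Metric
open scoped RealInnerProductSpace

namespace Pool.Agent.SCP

namespace REGDIV_

variable {n : ℕ}

/-- the quadratic expression -/
noncomputable def Q (q : ℝ) (B : E n →L[ℝ] E n) (a : E n) : ℝ := tr B + q * ⟪B a, a⟫

theorem continuous_Q (q : ℝ) : Continuous fun z : (E n →L[ℝ] E n) × E n => Q q z.1 z.2 := by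
  unfold Q
  exact (continuous_tr.comp continuous_fst).add
    (continuous_const.mul ((continuous_fst.clm_apply continuous_snd).inner continuous_snd))

theorem gradient_sq (y x : E n) : gradient (fun z => ‖z - y‖ ^ 2) x = (2 : ℝ) • (x - y) := by
  have h : HasFDerivAt (fun z : E n => ‖z - y‖ ^ 2)
      (2 • (innerSL ℝ (x - y)).comp (ContinuousLinearMap.id ℝ (E n))) x :=
    ((hasFDerivAt_id x).sub_const y).norm_sq
  rw [gradient_eq_symm, h.fderiv]
  rw [LinearIsometryEquiv.symm_apply_eq]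
  ext z
  simp [InnerProductSpace.toDual_apply_apply, inner_smul_left]

theorem contDiff_sq (y : E n) {k : WithTop ℕ∞} : ContDiff ℝ k fun z : E n => ‖z - y‖ ^ 2 :=
  (contDiff_id.sub contDiff_const).norm_sq ℝ

theorem hs_sq (y x : E n) : hs (fun z => ‖z - y‖ ^ 2) x =
    (2 : ℝ) • ContinuousLinearMap.id ℝ (E n) := by
  unfold hs
  have h : gradient (fun z => ‖z - y‖ ^ 2) = fun x : E n => (2 : ℝ) • (x - y) := by
    funext z
    exact gradient_sq y z
  rw [h]
  exact (((hasFDerivAt_id x).sub_const y).const_smul (2 : ℝ)).fderiv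

theorem eq_add (H : E n → ℝ) (y : E n) (ε : ℝ) :
    (fun z => H z - ε * ‖z - y‖ ^ 2) = fun z => H z + (-ε) * ‖z - y‖ ^ 2 := by
  funext z
  ring

theorem contDiffAt_sub {H : E n → ℝ} {x : E n} (y : E n) (ε : ℝ) (h : ContDiffAt ℝ 2 H x) :
    ContDiffAt ℝ 2 (fun z => H z - ε * ‖z - y‖ ^ 2) x :=
  h.sub (contDiffAt_const.mul (contDiff_sq y).contDiffAt)

theorem gradient_at {H : E n → ℝ} {y : E n} (ε : ℝ) (h : ContDiffAt ℝ 2 H y) :
    gradient (fun z => H z - ε * ‖z - y‖ ^ 2) y = gradient H y := by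
  have h1 : DifferentiableAt ℝ (fun z : E n => ‖z - y‖ ^ 2) y :=
    ((contDiff_sq (k := 1) y).contDiffAt).differentiableAt (by norm_num)
  rw [eq_add, gradient_add' (h.differentiableAt (by norm_num)) (h1.const_mul _),
    gradient_const_mul _ h1, gradient_sq]
  simp

theorem hs_at {H : E n → ℝ} {y : E n} (ε : ℝ) (h : ContDiffAt ℝ 2 H y) :
    hs (fun z => H z - ε * ‖z - y‖ ^ 2) y =
      hs H y - (2 * ε) • ContinuousLinearMap.id ℝ (E n) := by
  have h1 : ContDiffAt ℝ 2 (fun z : E n => ‖z - y‖ ^ 2) y := (contDiff_sq y).contDiffAt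
  rw [eq_add, hs_add h (contDiffAt_const.mul h1), hs_const_mul _ h1, hs_sq, smul_smul]
  have e : -ε * 2 = -(2 * ε) := by ring
  rw [e, sub_eq_add_neg]
  congr 1
  ext1 z
  simp

theorem sum_inner {ι : Type*} [Fintype ι] (b : OrthonormalBasis ι ℝ (E n)) (u v : E n) :
    ∑ i, ⟪b i, u⟫ * ⟪v, b i⟫ = ⟪v, u⟫ := by
  rw [← b.sum_inner_mul_inner v u]
  exact Finset.sum_congr rfl fun i _ => mul_comm _ _

/-- the divergence -/
theorem dv_comp (hV : T_VREG) {p κ : ℝ} (hp : 1 < p) (hκ : 0 < κ) {K : E n → ℝ} {x : E n}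
    (hK : ContDiffAt ℝ 2 K x) :
    dv (fun w => Vr p κ (gradient K w)) x =
      (‖gradient K x‖ ^ 2 + κ ^ 2) ^ ((p - 2) / 2) *
        Q (p - 2) (hs K x) ((√(‖gradient K x‖ ^ 2 + κ ^ 2))⁻¹ • gradient K x) := by
  obtain ⟨h1, h2, -, -⟩ := hV n p hp
  have hd : HasFDerivAt (gradient K) (hs K x) x :=
    ((contDiffAt_gradient hK).differentiableAt (by norm_num)).hasFDerivAt
  have hc : HasFDerivAt (fun w => Vr p κ (gradient K w))
      ((fderiv ℝ (Vr p κ) (gradient K x)).comp (hs K x)) x :=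
    (((h1 κ hκ).differentiable (by norm_num)) (gradient K x)).hasFDerivAt.comp x hd
  rw [dv, hc.fderiv]
  set ξ := gradient K x with hξ
  set B := hs K x with hB
  set s := ‖ξ‖ ^ 2 + κ ^ 2 with hs'
  have hs0 : 0 < s := by positivity
  have hss : √s * √s = s := Real.mul_self_sqrt hs0.le
  have hsne : √s ≠ 0 := (Real.sqrt_pos.2 hs0).ne'
  set c := s ^ ((p - 2) / 2) with hcdef
  let b := EuclideanSpace.basisFun (Fin n) ℝ
  rw [tr_eq_sum _ b, Q, tr_eq_sum B b]
  have e : ∀ i, ⟪b i, ((fderiv ℝ (Vr p κ) ξ).comp B) (b i)⟫ =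
      c * ⟪b i, B (b i)⟫ + c * ((p - 2) / s) * (⟪b i, ξ⟫ * ⟪ξ, B (b i)⟫) := by
    intro i
    rw [ContinuousLinearMap.comp_apply, h2 κ hκ, inner_smul_right, inner_add_right,
      inner_smul_right]
    ring
  rw [Finset.sum_congr rfl fun i _ => e i, Finset.sum_add_distrib, ← Finset.mul_sum,
    ← Finset.mul_sum]
  have e2 : ∑ i, ⟪b i, ξ⟫ * ⟪ξ, B (b i)⟫ = ⟪B ξ, ξ⟫ := by
    have e3 : ∀ i, ⟪ξ, B (b i)⟫ = ⟪ContinuousLinearMap.adjoint B ξ, b i⟫ := fun i =>
      (ContinuousLinearMap.adjoint_inner_left B (b i) ξ).symm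
    simp only [e3]
    rw [sum_inner b, ContinuousLinearMap.adjoint_inner_left, real_inner_comm]
  rw [e2, map_smul, inner_smul_left, inner_smul_right]
  simp only [conj_trivial]
  have e4 : (√s)⁻¹ * ((√s)⁻¹ * ⟪B ξ, ξ⟫) = ⟪B ξ, ξ⟫ / s := by
    rw [← mul_assoc, ← mul_inv, hss]
    ring
  rw [e4]
  ring

theorem norm_le_one (ξ : E n) {κ : ℝ} (hκ : 0 < κ) :
    ‖(√(‖ξ‖ ^ 2 + κ ^ 2))⁻¹ • ξ‖ ≤ 1 := by
  have h0 : 0 < √(‖ξ‖ ^ 2 + κ ^ 2) := Real.sqrt_pos.2 (by positivity)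
  rw [norm_smul, norm_inv, Real.norm_of_nonneg h0.le, inv_mul_le_iff₀ h0, mul_one]
  exact Real.le_sqrt_of_sq_le (by nlinarith [sq_nonneg κ])

/-- in the degenerate case the expression is positive on the unit ball -/
theorem pos_ball {p : ℝ} (hn : 1 ≤ n) (hp : 1 < p) {A : E n →L[ℝ] E n}
    (h : ∀ ω : E n, ‖ω‖ = 1 → 0 < Q (p - 2) A ω) {a : E n} (ha : ‖a‖ ≤ 1) :
    0 < Q (p - 2) A a := by
  let b := EuclideanSpace.basisFun (Fin n) ℝ
  have htr : 0 < tr A := by
    have h1 : 0 < ∑ i, Q (p - 2) A (b i) := by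
      refine Finset.sum_pos (fun i _ => h _ (b.norm_eq_one i)) ?_
      exact ⟨⟨0, hn⟩, Finset.mem_univ _⟩
    have h2 : ∑ i, Q (p - 2) A (b i) = (n + (p - 2)) * tr A := by
      simp only [Q]
      rw [Finset.sum_add_distrib, ← Finset.mul_sum]
      have h3 : ∑ i, ⟪A (b i), b i⟫ = tr A := by
        rw [tr_eq_sum A b]
        exact Finset.sum_congr rfl fun i _ => real_inner_comm _ _
      rw [h3]
      simp
      ring
    rw [h2] at h1
    have h4 : (0 : ℝ) < n + (p - 2) := by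
      have : (1 : ℝ) ≤ n := by exact_mod_cast hn
      linarith
    exact pos_of_mul_pos_right h1 h4.le
  by_cases h0 : a = 0
  · rw [h0, Q]
    simpa using htr
  · have hna : 0 < ‖a‖ := norm_pos_iff.2 h0
    have h1 := h (‖a‖⁻¹ • a) (by rw [norm_smul, norm_inv, norm_norm, inv_mul_cancel₀ hna.ne'])
    rw [Q, map_smul, inner_smul_left, inner_smul_right] at h1
    simp only [conj_trivial] at h1
    have h2 : Q (p - 2) A a = (1 - ‖a‖ ^ 2) * tr A +
        ‖a‖ ^ 2 * (tr A + (p - 2) * (‖a‖⁻¹ * (‖a‖⁻¹ * ⟪A a, a⟫))) := by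
      rw [Q]
      field_simp
      ring
    rw [h2]
    have h3 : ‖a‖ ^ 2 ≤ 1 := by nlinarith
    have h4 : 0 ≤ (1 - ‖a‖ ^ 2) * tr A := mul_nonneg (by linarith) htr.le
    have h5 : 0 < ‖a‖ ^ 2 * (tr A + (p - 2) * (‖a‖⁻¹ * (‖a‖⁻¹ * ⟪A a, a⟫))) := by positivity
    linarith

end REGDIV_

open REGDIV_

theorem regdiv (hV : T_VREG) : T_REGDIV := by
  intro n p H y hn hp hH
  obtain ⟨hC, hst⟩ := hH
  -- the number ε
  have hA' : Tendsto (fun ε : ℝ => hs H y - (2 * ε) • ContinuousLinearMap.id ℝ (E n)) (𝓝[>] 0)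
      (𝓝 (hs H y)) := by
    have : Continuous fun ε : ℝ => hs H y - (2 * ε) • ContinuousLinearMap.id ℝ (E n) := by
      fun_prop
    have h2 := this.tendsto 0
    have h3 : hs H y - (2 * (0 : ℝ)) • ContinuousLinearMap.id ℝ (E n) = hs H y := by
      ext1 z
      simp
    rw [h3] at h2
    exact h2.mono_left nhdsWithin_le_nhds
  -- neighbourhood of `y` in which `H` is `C²`
  obtain ⟨r₁, hr₁, hr₁'⟩ : ∃ r₁ > 0, ∀ x ∈ ball y r₁, ContDiffAt ℝ 2 H x := by
    obtain ⟨r₁, h1, h2⟩ := Metric.eventually_nhds_iff_ball.1 (hC.eventually (by simp))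
    exact ⟨r₁, h1, h2⟩
  have hcont : ∀ r, r ≤ r₁ → ContDiffOn ℝ 2 H (ball y r) := fun r hr x hx =>
    (hr₁' x (ball_subset_ball hr hx)).contDiffWithinAt
  have hhs : ∀ ε : ℝ, ContinuousAt (hs (fun z => H z - ε * ‖z - y‖ ^ 2)) y := by
    intro ε
    have h1 := contDiffAt_gradient (contDiffAt_sub y ε hC)
    exact (h1.fderiv_right (m := 0) (by norm_num)).continuousAt
  have hgc : ∀ ε : ℝ, ContinuousAt (gradient (fun z => H z - ε * ‖z - y‖ ^ 2)) y := fun ε =>
    (contDiffAt_gradient (contDiffAt_sub y ε hC)).continuousAt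
  have key : ∃ ε r κ₀ : ℝ, 0 < ε ∧ 0 < r ∧ 0 < κ₀ ∧ ∀ κ, 0 < κ → κ < κ₀ → ∀ x ∈ ball y r,
      0 ≤ Q (p - 2) (hs (fun z => H z - ε * ‖z - y‖ ^ 2) x)
        ((√(‖gradient (fun z => H z - ε * ‖z - y‖ ^ 2) x‖ ^ 2 + κ ^ 2))⁻¹ •
          gradient (fun z => H z - ε * ‖z - y‖ ^ 2) x) := by
    by_cases hg : gradient H y = 0
    · -- degenerate case
      have hQ : ∀ a ∈ closedBall (0 : E n) 1, 0 < Q (p - 2) (hs H y) a := by
        intro a ha
        refine pos_ball hn hp (fun ω hω => ?_) (by simpa using ha)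
        exact hst ω 0 hω le_rfl (by rw [hg, zero_smul])
      have hev : ∀ᶠ B in 𝓝 (hs H y), ∀ a ∈ closedBall (0 : E n) 1, 0 < Q (p - 2) B a := by
        refine (isCompact_closedBall (0 : E n) 1).eventually_forall_of_forall_eventually
          fun a ha => ?_
        exact (continuous_Q (p - 2)).continuousAt.eventually_const_lt (hQ a ha)
      obtain ⟨U, hU, hUo, hUy⟩ := _root_.eventually_nhds_iff.1 hev
      obtain ⟨ε, hε, hεU⟩ : ∃ ε : ℝ, 0 < ε ∧
          hs H y - (2 * ε) • ContinuousLinearMap.id ℝ (E n) ∈ U := by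
        have h1 := hA'.eventually (hUo.mem_nhds hUy)
        obtain ⟨ε, h2, h3⟩ := (h1.and self_mem_nhdsWithin).exists
        exact ⟨ε, h3, h2⟩
      have h2 : ∀ᶠ x in 𝓝 y, hs (fun z => H z - ε * ‖z - y‖ ^ 2) x ∈ U := by
        refine (hhs ε).eventually (hUo.mem_nhds ?_)
        rw [hs_at ε hC]
        exact hεU
      obtain ⟨r, hr, h3⟩ := Metric.eventually_nhds_iff_ball.1 h2
      refine ⟨ε, r, 1, hε, hr, one_pos, fun κ hκ _ x hx => ?_⟩
      refine (hU _ (h3 x hx) _ ?_).le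
      rw [mem_closedBall_zero_iff]
      exact norm_le_one _ hκ
    · -- nondegenerate case
      have hgn : 0 < ‖gradient H y‖ := norm_pos_iff.2 hg
      have hQ : 0 < Q (p - 2) (hs H y) (‖gradient H y‖⁻¹ • gradient H y) := by
        refine hst _ ‖gradient H y‖ ?_ hgn.le ?_
        · rw [norm_smul, norm_inv, norm_norm, inv_mul_cancel₀ hgn.ne']
        · rw [smul_smul, mul_inv_cancel₀ hgn.ne', one_smul]
      have hev : ∀ᶠ B in 𝓝 (hs H y), 0 < Q (p - 2) B (‖gradient H y‖⁻¹ • gradient H y) := by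
        have : Continuous fun B : E n →L[ℝ] E n =>
            Q (p - 2) B (‖gradient H y‖⁻¹ • gradient H y) :=
          (continuous_Q (p - 2)).comp (continuous_id.prodMk continuous_const)
        exact this.continuousAt.eventually_const_lt hQ
      obtain ⟨ε, h2, hε⟩ := ((hA'.eventually hev).and self_mem_nhdsWithin).exists
      have hcq : ContinuousAt (fun z : E n × ℝ =>
          Q (p - 2) (hs (fun z => H z - ε * ‖z - y‖ ^ 2) z.1)
            ((√(‖gradient (fun z => H z - ε * ‖z - y‖ ^ 2) z.1‖ ^ 2 + z.2 ^ 2))⁻¹ •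
              gradient (fun z => H z - ε * ‖z - y‖ ^ 2) z.1)) (y, 0) := by
        have c1 : ContinuousAt (fun z : E n × ℝ =>
            hs (fun z => H z - ε * ‖z - y‖ ^ 2) z.1) (y, 0) :=
          ContinuousAt.comp (g := hs (fun z => H z - ε * ‖z - y‖ ^ 2)) (f := Prod.fst)
            (x := (y, (0 : ℝ))) (hhs ε) continuousAt_fst
        have c2 : ContinuousAt (fun z : E n × ℝ =>
            gradient (fun z => H z - ε * ‖z - y‖ ^ 2) z.1) (y, 0) :=
          ContinuousAt.comp (g := gradient (fun z => H z - ε * ‖z - y‖ ^ 2)) (f := Prod.fst)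
            (x := (y, (0 : ℝ))) (hgc ε) continuousAt_fst
        have c3 : ContinuousAt (fun z : E n × ℝ =>
            √(‖gradient (fun z => H z - ε * ‖z - y‖ ^ 2) z.1‖ ^ 2 + z.2 ^ 2)) (y, 0) :=
          Real.continuous_sqrt.continuousAt.comp
            ((c2.norm.pow 2).add (continuousAt_snd.pow 2))
        have c4 : ContinuousAt (fun z : E n × ℝ =>
            (√(‖gradient (fun z => H z - ε * ‖z - y‖ ^ 2) z.1‖ ^ 2 + z.2 ^ 2))⁻¹ •
              gradient (fun z => H z - ε * ‖z - y‖ ^ 2) z.1) (y, 0) := by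
          refine (c3.inv₀ ?_).smul c2
          rw [gradient_at ε hC]
          simp only [ne_eq, OfNat.ofNat_ne_zero, not_false_eq_true, zero_pow, add_zero]
          rw [Real.sqrt_sq hgn.le]
          exact hgn.ne'
        exact (continuous_Q (p - 2)).continuousAt.comp (c1.prodMk c4)
      have hval : 0 < Q (p - 2) (hs (fun z => H z - ε * ‖z - y‖ ^ 2) y)
          ((√(‖gradient (fun z => H z - ε * ‖z - y‖ ^ 2) y‖ ^ 2 + (0 : ℝ) ^ 2))⁻¹ •
              gradient (fun z => H z - ε * ‖z - y‖ ^ 2) y) := by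
        rw [gradient_at ε hC, hs_at ε hC]
        simp only [ne_eq, OfNat.ofNat_ne_zero, not_false_eq_true, zero_pow, add_zero]
        rw [Real.sqrt_sq hgn.le]
        exact h2
      have h3 := hcq.eventually_const_lt hval
      obtain ⟨r, hr, h4⟩ := Metric.eventually_nhds_iff_ball.1 h3
      refine ⟨ε, r, r, hε, hr, hr, fun κ hκ hκr x hx => ?_⟩
      refine (h4 (x, κ) ?_).le
      rw [mem_ball, Prod.dist_eq]
      refine max_lt hx ?_
      rw [Real.dist_eq, sub_zero, abs_of_pos hκ]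
      exact hκr
  obtain ⟨ε, r, κ₀, hε, hr, hκ₀, hkey⟩ := key
  refine ⟨ε, min r r₁, κ₀, hε, lt_min hr hr₁, hκ₀, hcont _ (min_le_right _ _),
    fun κ hκ hκκ x hx => ?_⟩
  have hx1 : x ∈ ball y r := ball_subset_ball (min_le_left _ _) hx
  have hx2 : x ∈ ball y r₁ := ball_subset_ball (min_le_right _ _) hx
  rw [dv_comp hV hp hκ (contDiffAt_sub y ε (hr₁' x hx2))]
  refine mul_nonneg ?_ (hkey κ hκ hκκ x hx1)
  exact Real.rpow_nonneg (by positivity) _

end Pool.Agent.SCP
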