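import Pool.Agent.SCP.Defs2

/-!
# STR: straightening of the submanifold
-/

set_option autoImplicit false

open Set MeasureTheory Filter Topology Asymptotics
open scoped RealInnerProductSpace

namespace Pool.Agent.SCP

theorem str : T_STR := by
  intro n x₀ F hF h0 hiso
  set L : E n →L[ℝ] E 2 := fderiv ℝ F x₀ with hL
  set A : E 2 →L[ℝ] E n := ContinuousLinearMap.adjoint L with hA
  have hFd : HasFDerivAt F L x₀ := (hF.differentiableAt (by norm_num)).hasFDerivAt
  set Φ : E n → E n := fun x => A (F x) + ((x - x₀) - A (L (x - x₀))) with hΦ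
  have hΦc : ContDiffAt ℝ 2 Φ x₀ := by
    refine ContDiffAt.add (A.contDiff.contDiffAt.comp x₀ hF) ?_
    refine ContDiffAt.sub (contDiffAt_id.sub contDiffAt_const) ?_
    exact A.contDiff.contDiffAt.comp x₀
      (L.contDiff.contDiffAt.comp x₀ (contDiffAt_id.sub contDiffAt_const))
  have hΦ0 : Φ x₀ = 0 := by
    simp only [hΦ, h0, sub_self, map_zero, add_zero]
  have hΦd : HasFDerivAt Φ ((ContinuousLinearEquiv.refl ℝ (E n) : E n ≃L[ℝ] E n) : E n →L[ℝ] E n)
      x₀ := by
    have h1 : HasFDerivAt (fun x => A (F x)) (A.comp L) x₀ := A.hasFDerivAt.comp x₀ hFd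
    have h2 : HasFDerivAt (fun x : E n => x - x₀) (ContinuousLinearMap.id ℝ (E n)) x₀ :=
      (hasFDerivAt_id x₀).sub_const x₀
    have h3 : HasFDerivAt (fun x : E n => A (L (x - x₀))) (A.comp L) x₀ := by
      have := (A.comp L).hasFDerivAt.comp x₀ h2
      rw [ContinuousLinearMap.comp_id] at this
      exact this
    have h4 := h1.add (h2.sub h3)
    refine h4.congr_fderiv ?_
    ext v
    simp
  have hs : HasStrictFDerivAt Φ ((ContinuousLinearEquiv.refl ℝ (E n) : E n ≃L[ℝ] E n) :
      E n →L[ℝ] E n) x₀ := hΦc.hasStrictFDerivAt' hΦd (by norm_num)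
  have hn : (2 : WithTop ℕ∞) ≠ 0 := by norm_num
  refine ⟨hΦc.localInverse hΦd hn, ?_, ?_, ?_, ?_, ?_⟩
  · have := hΦc.to_localInverse hΦd hn
    rwa [hΦ0] at this
  · have := hΦc.localInverse_apply_image hΦd hn
    rwa [hΦ0] at this
  · have h1 := hs.to_localInverse
    rw [hΦ0] at h1
    have h2 : HasFDerivAt (hΦc.localInverse hΦd hn) (ContinuousLinearMap.id ℝ (E n)) 0 :=
      h1.hasFDerivAt
    exact h2.fderiv
  · have h1 := hs.eventually_right_inverse
    rw [hΦ0] at h1
    refine h1.mono fun y hy => ?_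
    have h2 : Φ (hΦc.localInverse hΦd hn y) = y := hy
    set z := hΦc.localInverse hΦd hn y with hz
    have h3 : L (Φ z) = F z := by
      show L (A (F z) + ((z - x₀) - A (L (z - x₀)))) = F z
      rw [map_add, map_sub L (z - x₀), hiso, hiso, sub_self, add_zero]
    rw [← h3, h2]
  · intro N hN
    have h1 := hs.to_localInverse.map_nhds_eq_of_equiv
    rw [hΦ0] at h1
    have h2 : hs.localInverse Φ _ x₀ 0 = x₀ := by
      have := hs.localInverse_apply_image
      rwa [hΦ0] at this
    rw [h2] at h1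
    rw [← h1]
    exact image_mem_map hN

end Pool.Agent.SCP
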