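import Pool.Agent.SCP.Targets

/-!
# The comparison function is a strict subsolution
-/

set_option autoImplicit false

open Set MeasureTheory Filter Topology Asymptotics Metric
open scoped RealInnerProductSpace

namespace Pool.Agent.SCP

namespace STRICT_

variable {n : ℕ}

/-- normalised data at one point at which strictness fails -/
structure Dat (p k κ δ : ℝ) (L : E n →L[ℝ] E 2) (f : E 2) (g η ω : E n)
    (A B : E n →L[ℝ] E n) (θ β γ κ' : ℝ) : Prop where
  norm_f : ‖f‖ = 1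
  norm_g : ‖g‖ = 1
  symm : ∀ a b : E n, ⟪A a, b⟫ = ⟪a, A b⟫
  radial : ‖A (ContinuousLinearMap.adjoint L f) - (k - 1) • g‖ ≤ δ
  ker : ∀ s : E n, L s = 0 → ‖A s‖ ≤ δ * ‖s‖
  eqn : tr A + (p - 2) * ⟪A g, g⟫ = 0
  θ0 : 0 ≤ θ
  β0 : 0 < β
  sum : θ + β = 1
  κ1 : κ ≤ κ'
  κ2 : κ' ≤ 2 * k + 1
  hη : ‖η - ContinuousLinearMap.adjoint L f‖ ≤ δ
  hB : ‖B - mdl L (ContinuousLinearMap.adjoint L f) κ'‖ ≤ δ
  norm_ω : ‖ω‖ = 1
  γ0 : 0 ≤ γ
  grad : θ • g + β • η = γ • ω
  fail : tr (θ • A + β • B) + (p - 2) * ⟪(θ • A + β • B) ω, ω⟫ ≤ 0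

theorem brk_identity (q b : ℝ) (g η : E n) (A B : E n →L[ℝ] E n)
    (hA : ∀ a b : E n, ⟪A a, b⟫ = ⟪a, A b⟫) :
    ‖g + b • η‖ ^ 2 * tr (A + b • B) + q * ⟪(A + b • B) (g + b • η), g + b • η⟫ =
      (‖g‖ ^ 2 * tr A + q * ⟪A g, g⟫) + b * brk q b g η A B := by
  have h1 : ‖g + b • η‖ ^ 2 = ‖g‖ ^ 2 + 2 * b * ⟪g, η⟫ + b ^ 2 * ‖η‖ ^ 2 := by
    rw [norm_add_sq_real, norm_smul, mul_pow, inner_smul_right, Real.norm_eq_abs, sq_abs]
    ring
  have h2 : ⟪A (g + b • η), g + b • η⟫ = ⟪A g, g⟫ + 2 * b * ⟪A g, η⟫ + b ^ 2 * ⟪A η, η⟫ := by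
    have h3 : ⟪A η, g⟫ = ⟪A g, η⟫ := by rw [hA η g, real_inner_comm]
    simp only [map_add, map_smul, inner_add_left, inner_add_right, inner_smul_left,
      inner_smul_right, RCLike.conj_to_real]
    rw [h3]
    ring
  have h4 : ⟪(A + b • B) (g + b • η), g + b • η⟫ =
      ⟪A (g + b • η), g + b • η⟫ + b * ⟪B (g + b • η), g + b • η⟫ := by
    rw [add_apply, inner_add_left, smul_apply,
      inner_smul_left, RCLike.conj_to_real]
  rw [h4, h2, tr_add, tr_smul]
  unfold brk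
  rw [h1]
  ring

/-- the bracket is nonpositive if strictness fails -/
theorem Dat.brk_nonpos {p k κ δ : ℝ} {L : E n →L[ℝ] E 2} {f : E 2} {g η ω : E n}
    {A B : E n →L[ℝ] E n} {θ β γ κ' : ℝ} (h : Dat p k κ δ L f g η ω A B θ β γ κ') :
    brk (p - 2) β (θ • g) η (θ • A) B ≤ 0 := by
  have hsymm : ∀ a b : E n, ⟪(θ • A) a, b⟫ = ⟪a, (θ • A) b⟫ := by
    intro a b
    rw [smul_apply, smul_apply, inner_smul_left,
      inner_smul_right, h.symm, RCLike.conj_to_real]
  have h1 := brk_identity (p - 2) β (θ • g) η (θ • A) B hsymm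
  have h2 : ‖θ • g‖ ^ 2 * tr (θ • A) + (p - 2) * ⟪(θ • A) (θ • g), θ • g⟫ = 0 := by
    rw [norm_smul, h.norm_g, tr_smul, smul_apply, map_smul, inner_smul_left,
      inner_smul_left, inner_smul_right, Real.norm_eq_abs, mul_one, sq_abs]
    simp only [RCLike.conj_to_real]
    linear_combination θ ^ 3 * h.eqn
  rw [h2, zero_add, h.grad] at h1
  have h3 : ‖γ • ω‖ ^ 2 * tr (θ • A + β • B) +
      (p - 2) * ⟪(θ • A + β • B) (γ • ω), γ • ω⟫ ≤ 0 := by
    rw [norm_smul, h.norm_ω, map_smul, inner_smul_left, inner_smul_right, Real.norm_eq_abs,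
      mul_one, sq_abs]
    simp only [RCLike.conj_to_real]
    have := mul_nonneg_of_nonpos_of_nonpos (neg_nonpos.2 (sq_nonneg γ)) h.fail
    nlinarith [this]
  rw [h1] at h3
  by_contra hc
  push Not at hc
  have := mul_pos h.β0 hc
  linarith

theorem continuous_ten : Continuous (ten : E n → E n →L[ℝ] E n) := by
  rw [continuous_clm_apply]
  intro y
  simp only [ten_apply]
  fun_prop

theorem tendsto_apply {l : Filter ℕ} {A : ℕ → E n →L[ℝ] E n} {A' : E n →L[ℝ] E n}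
    {s : ℕ → E n} {s' : E n} (hA : Tendsto A l (𝓝 A')) (hs : Tendsto s l (𝓝 s')) :
    Tendsto (fun j => A j (s j)) l (𝓝 (A' s')) :=
  (isBoundedBilinearMap_apply.continuous.tendsto (A', s')).comp (hA.prodMk_nhds hs)

/-- the limit -/
theorem limit_false (hBDD : T_BDD) (hA : T_ALGA) (hB : T_ALGB) (p k : ℝ) (hp : 1 < p)
    (hk : 1 < k) (hr : 0 < (p - 1) + (k - 1) * (2 * p - 3)) (L : E n →L[ℝ] E 2) (hL : Iso L)
    (κ δ : ℕ → ℝ) (hκ : Tendsto κ atTop (𝓝 k)) (hκ0 : ∀ j, 0 ≤ κ j)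
    (hδ : Tendsto δ atTop (𝓝 0)) (hδ1 : ∀ j, δ j ≤ 1)
    (f : ℕ → E 2) (g η ω : ℕ → E n) (A B : ℕ → E n →L[ℝ] E n) (θ β γ κ' : ℕ → ℝ)
    (h : ∀ j, Dat p k (κ j) (δ j) L (f j) (g j) (η j) (ω j) (A j) (B j) (θ j) (β j) (γ j)
      (κ' j)) : False := by
  obtain ⟨C, hC⟩ := hBDD n p (k - 1) L hp hL
  obtain ⟨𝒰, h𝒰⟩ : ∃ 𝒰 : Ultrafilter ℕ, (𝒰 : Filter ℕ) ≤ atTop :=
    ⟨Ultrafilter.of atTop, Ultrafilter.of_le atTop⟩
  have lim : ∀ {X : Type} [TopologicalSpace X] (K : Set X) (s : ℕ → X), IsCompact K →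
      (∀ j, s j ∈ K) → ∃ a ∈ K, Tendsto s 𝒰 (𝓝 a) := by
    intro X _ K s hK hs
    obtain ⟨a, ha, hl⟩ := hK.ultrafilter_le_nhds (𝒰.map s) (by
      rw [le_principal_iff]
      exact (Filter.Eventually.of_forall hs : ∀ᶠ j in (𝒰 : Filter ℕ), s j ∈ K))
    exact ⟨a, ha, hl⟩
  have hγ2 : ∀ j, γ j ≤ 2 := by
    intro j
    have h1 : ‖γ j • ω j‖ = γ j := by
      rw [norm_smul, (h j).norm_ω, mul_one, Real.norm_eq_abs, abs_of_nonneg (h j).γ0]
    have h2 : ‖η j‖ ≤ 2 := by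
      have h3 : ‖η j‖ ≤ ‖η j - ContinuousLinearMap.adjoint L (f j)‖ +
          ‖ContinuousLinearMap.adjoint L (f j)‖ := by
        have := norm_add_le (η j - ContinuousLinearMap.adjoint L (f j))
          (ContinuousLinearMap.adjoint L (f j))
        rwa [sub_add_cancel] at this
      rw [norm_adjoint hL, (h j).norm_f] at h3
      have := (h j).hη
      have := hδ1 j
      linarith
    rw [← h1, ← (h j).grad]
    calc ‖θ j • g j + β j • η j‖ ≤ ‖θ j • g j‖ + ‖β j • η j‖ := norm_add_le _ _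
      _ = θ j + β j * ‖η j‖ := by
        rw [norm_smul, norm_smul, (h j).norm_g, Real.norm_eq_abs, Real.norm_eq_abs,
          abs_of_nonneg (h j).θ0, abs_of_nonneg (h j).β0.le, mul_one]
      _ ≤ 2 := by
        have := (h j).θ0
        have := (h j).β0
        have := (h j).sum
        nlinarith [norm_nonneg (η j)]
  obtain ⟨f', hf', hfl⟩ := lim (sphere (0 : E 2) 1) f (isCompact_sphere _ _)
    (fun j => by simpa using (h j).norm_f)
  obtain ⟨g', hg', hgl⟩ := lim (sphere (0 : E n) 1) g (isCompact_sphere _ _)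
    (fun j => by simpa using (h j).norm_g)
  obtain ⟨ω', hω', hωl⟩ := lim (sphere (0 : E n) 1) ω (isCompact_sphere _ _)
    (fun j => by simpa using (h j).norm_ω)
  obtain ⟨A', -, hAl⟩ := lim (closedBall (0 : E n →L[ℝ] E n) C) A (isCompact_closedBall _ _)
    (fun j => by
      have := hC (f j) _ (g j) (A j) (h j).norm_f rfl (h j).norm_g (h j).symm
        ((h j).radial.trans (hδ1 j)) (fun s hs => ((h j).ker s hs).trans (by
          have := mul_le_mul_of_nonneg_right (hδ1 j) (norm_nonneg s)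
          linarith)) (h j).eqn
      simpa using this)
  obtain ⟨θ', hθ', hθl⟩ := lim (Icc (0 : ℝ) 1) θ isCompact_Icc
    (fun j => ⟨(h j).θ0, by linarith [(h j).β0, (h j).sum]⟩)
  obtain ⟨β', hβ', hβl⟩ := lim (Icc (0 : ℝ) 1) β isCompact_Icc
    (fun j => ⟨(h j).β0.le, by linarith [(h j).θ0, (h j).sum]⟩)
  obtain ⟨γ', hγ', hγl⟩ := lim (Icc (0 : ℝ) 2) γ isCompact_Icc (fun j => ⟨(h j).γ0, hγ2 j⟩)
  obtain ⟨κ'', hκ'', hκl⟩ := lim (Icc (0 : ℝ) (2 * k + 1)) κ' isCompact_Icc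
    (fun j => ⟨(hκ0 j).trans (h j).κ1, (h j).κ2⟩)
  have hδl : Tendsto δ 𝒰 (𝓝 0) := hδ.mono_left h𝒰
  have hel : Tendsto (fun j => ContinuousLinearMap.adjoint L (f j)) 𝒰
      (𝓝 (ContinuousLinearMap.adjoint L f')) :=
    ((ContinuousLinearMap.adjoint L).continuous.tendsto f').comp hfl
  have hηl : Tendsto η 𝒰 (𝓝 (ContinuousLinearMap.adjoint L f')) := by
    have h1 : Tendsto (fun j => η j - ContinuousLinearMap.adjoint L (f j)) 𝒰 (𝓝 0) :=
      squeeze_zero_norm (fun j => (h j).hη) hδl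
    have h2 := h1.add hel
    simpa using h2
  have hml : Tendsto (fun j => mdl L (ContinuousLinearMap.adjoint L (f j)) (κ' j)) 𝒰
      (𝓝 (mdl L (ContinuousLinearMap.adjoint L f') κ'')) := by
    unfold mdl
    exact tendsto_const_nhds.add ((hκl.sub_const 2).smul ((continuous_ten.tendsto _).comp hel))
  have hBl : Tendsto B 𝒰 (𝓝 (mdl L (ContinuousLinearMap.adjoint L f') κ'')) := by
    have h1 : Tendsto (fun j => B j - mdl L (ContinuousLinearMap.adjoint L (f j)) (κ' j)) 𝒰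
        (𝓝 0) := squeeze_zero_norm (fun j => (h j).hB) hδl
    have h2 := h1.add hml
    simpa using h2
  have happ : ∀ {s : ℕ → E n} {s' : E n}, Tendsto s 𝒰 (𝓝 s') →
      Tendsto (fun j => A j (s j)) 𝒰 (𝓝 (A' s')) := fun hs => tendsto_apply hAl hs
  have htr : Tendsto (fun j => tr (A j)) 𝒰 (𝓝 (tr A')) := (continuous_tr.tendsto _).comp hAl
  have hLim : Limit p k L f' (ContinuousLinearMap.adjoint L f') g' A' := by
    refine ⟨hL, by simpa using hf', rfl, by simpa using hg', ?_, ?_, ?_, ?_⟩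
    · intro a b
      have h1 : Tendsto (fun j => ⟪A j a, b⟫) 𝒰 (𝓝 ⟪A' a, b⟫) :=
        (happ tendsto_const_nhds).inner tendsto_const_nhds
      have h2 : Tendsto (fun j => ⟪a, A j b⟫) 𝒰 (𝓝 ⟪a, A' b⟫) :=
        tendsto_const_nhds.inner (happ tendsto_const_nhds)
      have h3 : (fun j => ⟪A j a, b⟫) = fun j => ⟪a, A j b⟫ := by
        funext j
        exact (h j).symm a b
      rw [h3] at h1
      exact tendsto_nhds_unique h1 h2
    · intro s hs
      have h1 : Tendsto (fun j => A j s) 𝒰 (𝓝 (A' s)) := happ tendsto_const_nhds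
      have h2 : Tendsto (fun j => A j s) 𝒰 (𝓝 0) := by
        apply squeeze_zero_norm (fun j => (h j).ker s hs)
        simpa using hδl.mul_const ‖s‖
      exact tendsto_nhds_unique h1 h2
    · have h1 : Tendsto (fun j => A j (ContinuousLinearMap.adjoint L (f j)) - (k - 1) • g j) 𝒰
          (𝓝 (A' (ContinuousLinearMap.adjoint L f') - (k - 1) • g')) :=
        (happ hel).sub (hgl.const_smul (k - 1))
      have h2 : Tendsto (fun j => A j (ContinuousLinearMap.adjoint L (f j)) - (k - 1) • g j) 𝒰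
          (𝓝 0) := squeeze_zero_norm (fun j => (h j).radial) hδl
      exact sub_eq_zero.1 (tendsto_nhds_unique h1 h2)
    · have h1 : Tendsto (fun j => tr (A j) + (p - 2) * ⟪A j (g j), g j⟫) 𝒰
          (𝓝 (tr A' + (p - 2) * ⟪A' g', g'⟫)) :=
        htr.add (((happ hgl).inner hgl).const_mul _)
      have h2 : (fun j => tr (A j) + (p - 2) * ⟪A j (g j), g j⟫) = fun _ => 0 := by
        funext j
        exact (h j).eqn
      rw [h2] at h1
      exact (tendsto_nhds_unique h1 tendsto_const_nhds)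
  have hsum : θ' + β' = 1 := by
    have h1 : Tendsto (fun j => θ j + β j) 𝒰 (𝓝 (θ' + β')) := hθl.add hβl
    have h2 : (fun j => θ j + β j) = fun _ => 1 := by
      funext j
      exact (h j).sum
    rw [h2] at h1
    exact (tendsto_nhds_unique h1 tendsto_const_nhds)
  have hκk : k ≤ κ'' := le_of_tendsto_of_tendsto (hκ.mono_left h𝒰) hκl
    (Filter.Eventually.of_forall fun j => (h j).κ1)
  have hgrad : θ' • g' + β' • ContinuousLinearMap.adjoint L f' = γ' • ω' := by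
    have h1 : Tendsto (fun j => θ j • g j + β j • η j) 𝒰
        (𝓝 (θ' • g' + β' • ContinuousLinearMap.adjoint L f')) :=
      (hθl.smul hgl).add (hβl.smul hηl)
    have h2 : (fun j => θ j • g j + β j • η j) = fun j => γ j • ω j := by
      funext j
      exact (h j).grad
    rw [h2] at h1
    exact tendsto_nhds_unique h1 (hγl.smul hωl)
  by_cases h0 : θ' • g' + β' • ContinuousLinearMap.adjoint L f' = 0
  · have h1 := hB n p k κ'' θ' β' L f' _ g' ω' A' hp hk hLim hθ'.1 hβ'.1 hsum hκk h0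
      (by simpa using hω')
    have hsl : Tendsto (fun j => θ j • A j + β j • B j) 𝒰
        (𝓝 (θ' • A' + β' • mdl L (ContinuousLinearMap.adjoint L f') κ'')) :=
      (hθl.smul hAl).add (hβl.smul hBl)
    have h2 : Tendsto (fun j => tr (θ j • A j + β j • B j) +
        (p - 2) * ⟪(θ j • A j + β j • B j) (ω j), ω j⟫) 𝒰
        (𝓝 (tr (θ' • A' + β' • mdl L (ContinuousLinearMap.adjoint L f') κ'') +
          (p - 2) * ⟪(θ' • A' + β' • mdl L (ContinuousLinearMap.adjoint L f') κ'') ω', ω'⟫)) :=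
      ((continuous_tr.tendsto _).comp hsl).add
        ((((tendsto_apply hsl hωl)).inner hωl).const_mul _)
    have h3 := le_of_tendsto h2 (Filter.Eventually.of_forall fun j => (h j).fail)
    linarith
  · have h1 := hA n p k κ'' θ' β' L f' _ g' A' hp hk hr hLim hθ'.1 hβ'.1 hsum hκk h0
    have hG : Tendsto (fun j => θ j • g j) 𝒰 (𝓝 (θ' • g')) := hθl.smul hgl
    have hAA : Tendsto (fun j => θ j • A j) 𝒰 (𝓝 (θ' • A')) := hθl.smul hAl
    have hGG : Tendsto (fun j => θ j • g j + β j • η j) 𝒰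
        (𝓝 (θ' • g' + β' • ContinuousLinearMap.adjoint L f')) := hG.add (hβl.smul hηl)
    have htA : Tendsto (fun j => tr (θ j • A j)) 𝒰 (𝓝 (tr (θ' • A'))) :=
      (continuous_tr.tendsto _).comp hAA
    have htB : Tendsto (fun j => tr (B j)) 𝒰
        (𝓝 (tr (mdl L (ContinuousLinearMap.adjoint L f') κ''))) :=
      (continuous_tr.tendsto _).comp hBl
    have h2 : Tendsto (fun j => brk (p - 2) (β j) (θ j • g j) (η j) (θ j • A j) (B j)) 𝒰
        (𝓝 (brk (p - 2) β' (θ' • g') (ContinuousLinearMap.adjoint L f') (θ' • A')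
          (mdl L (ContinuousLinearMap.adjoint L f') κ''))) := by
      unfold brk
      exact ((((hG.inner hηl).const_mul 2).mul htA).add
        ((hβl.mul (hηl.norm.pow 2)).mul htA)).add ((hGG.norm.pow 2).mul htB) |>.add
        ((((((tendsto_apply hAA hG).inner hηl).const_mul 2).add
          (hβl.mul ((tendsto_apply hAA hηl).inner hηl))).add
          ((tendsto_apply hBl hGG).inner hGG)).const_mul _)
    have h3 := le_of_tendsto h2 (Filter.Eventually.of_forall fun j => (h j).brk_nonpos)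
    linarith

/-- the data at a point at which strictness fails -/
theorem step {p k κ δ τ b κ' : ℝ} {u φ : E n → ℝ} {x₀ x : E n} {F : E n → E 2}
    (hF : F x ≠ 0) (hG : gradient u x ≠ 0) (hu : ContDiffAt ℝ 2 u x) (heq : Eqn p u x)
    (hrad : ‖hs u x (ContinuousLinearMap.adjoint (fderiv ℝ F x₀) (F x)) -
      (k - 1) • gradient u x‖ ≤ δ * ‖gradient u x‖)
    (htang : ∀ s : E n, fderiv ℝ F x₀ s = 0 →
      ‖F x‖ * ‖hs u x s‖ ≤ δ * ‖s‖ * ‖gradient u x‖)
    (hφ : ContDiffAt ℝ 2 φ x) (hb : 0 < b) (h1 : κ ≤ κ') (h2 : κ' ≤ 2 * κ + 1 / 2)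
    (hκ : κ ≤ k)
    (h3 : ‖gradient φ x - b • ContinuousLinearMap.adjoint (fderiv ℝ F x₀) (hat F x)‖ ≤ δ * b)
    (h4 : ‖‖F x‖ • hs φ x - b • mdl (fderiv ℝ F x₀)
      (ContinuousLinearMap.adjoint (fderiv ℝ F x₀) (hat F x)) κ'‖ ≤ δ * b)
    (hτ : 0 < τ) (hS : ¬ Strict p (fun y => u y + τ * φ y) x) :
    ∃ (g η ω : E n) (A B : E n →L[ℝ] E n) (θ β γ κ' : ℝ),
      Dat p k κ δ (fderiv ℝ F x₀) (hat F x) g η ω A B θ β γ κ' := by
  set L := fderiv ℝ F x₀ with hL
  have hρ : 0 < ‖F x‖ := norm_pos_iff.2 hF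
  have ha : 0 < ‖gradient u x‖ := norm_pos_iff.2 hG
  have hgr : gradient (fun y => u y + τ * φ y) x = gradient u x + τ • gradient φ x := by
    rw [gradient_add' (hu.differentiableAt (by norm_num))
      ((hφ.differentiableAt (by norm_num)).const_mul τ),
      gradient_const_mul τ (hφ.differentiableAt (by norm_num))]
  have hhs : hs (fun y => u y + τ * φ y) x = hs u x + τ • hs φ x := by
    rw [hs_add hu (contDiffAt_const.mul hφ), hs_const_mul τ hφ]
  have hS' : ∃ (ω : E n) (Γ : ℝ), ‖ω‖ = 1 ∧ 0 ≤ Γ ∧ gradient u x + τ • gradient φ x = Γ • ω ∧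
      tr (hs u x + τ • hs φ x) + (p - 2) * ⟪(hs u x + τ • hs φ x) ω, ω⟫ ≤ 0 := by
    by_contra hc
    push Not at hc
    apply hS
    refine ⟨hu.add (contDiffAt_const.mul hφ), fun ω Γ ho hΓ hg => ?_⟩
    rw [hhs]
    exact hc ω Γ ho hΓ (by rw [← hgr]; exact hg)
  obtain ⟨ω, Γ, ho, hΓ, hgo, hfail⟩ := hS'
  have hb' : 0 < τ * b := mul_pos hτ hb
  have hm : 0 < ‖gradient u x‖ + τ * b := by positivity
  refine ⟨‖gradient u x‖⁻¹ • gradient u x, b⁻¹ • gradient φ x, ω,
    (‖F x‖ / ‖gradient u x‖) • hs u x, (‖F x‖ / b) • hs φ x,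
    ‖gradient u x‖ / (‖gradient u x‖ + τ * b), (τ * b) / (‖gradient u x‖ + τ * b),
    Γ / (‖gradient u x‖ + τ * b), κ', ?_⟩
  refine
    { norm_f := ?_
      norm_g := ?_
      symm := ?_
      radial := ?_
      ker := ?_
      eqn := ?_
      θ0 := by positivity
      β0 := by positivity
      sum := by field_simp
      κ1 := h1
      κ2 := by linarith
      hη := ?_
      hB := ?_
      norm_ω := ho
      γ0 := by positivity
      grad := ?_
      fail := ?_ }
  · rw [hat, norm_smul, norm_inv, norm_norm, inv_mul_cancel₀ hρ.ne']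
  · rw [norm_smul, norm_inv, norm_norm, inv_mul_cancel₀ ha.ne']
  · intro a b
    rw [smul_apply, smul_apply, inner_smul_left, inner_smul_right, hs_symm hu,
      RCLike.conj_to_real]
  · have e1 : ((‖F x‖ / ‖gradient u x‖) • hs u x) (ContinuousLinearMap.adjoint L (hat F x)) -
        (k - 1) • (‖gradient u x‖⁻¹ • gradient u x) =
        ‖gradient u x‖⁻¹ • (hs u x (ContinuousLinearMap.adjoint L (F x)) -
          (k - 1) • gradient u x) := by
      rw [smul_apply, hat, map_smul, map_smul, smul_smul, smul_sub, smul_comm (k - 1)]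
      congr 2
      field_simp
    rw [e1, norm_smul, norm_inv, norm_norm, inv_mul_le_iff₀ ha]
    linarith
  · intro s hs0
    rw [smul_apply, norm_smul, Real.norm_eq_abs, abs_of_pos (by positivity), div_mul_eq_mul_div,
      div_le_iff₀ ha]
    exact htang s hs0
  · rw [tr_smul, smul_apply, map_smul, inner_smul_left, inner_smul_left, inner_smul_right]
    simp only [RCLike.conj_to_real]
    have h5 : ‖gradient u x‖ ^ 2 * tr (hs u x) +
      (p - 2) * ⟪hs u x (gradient u x), gradient u x⟫ = 0 := heq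
    have h6 : ‖F x‖ / ‖gradient u x‖ * tr (hs u x) + (p - 2) * (‖F x‖ / ‖gradient u x‖ *
        (‖gradient u x‖⁻¹ * (‖gradient u x‖⁻¹ * ⟪hs u x (gradient u x), gradient u x⟫))) =
        ‖F x‖ / ‖gradient u x‖ ^ 3 * (‖gradient u x‖ ^ 2 * tr (hs u x) +
          (p - 2) * ⟪hs u x (gradient u x), gradient u x⟫) := by
      field_simp
    rw [h5, mul_zero] at h6
    linarith [h6]
  · have e1 : b⁻¹ • gradient φ x - ContinuousLinearMap.adjoint L (hat F x) =
        b⁻¹ • (gradient φ x - b • ContinuousLinearMap.adjoint L (hat F x)) := by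
      rw [smul_sub, smul_smul, inv_mul_cancel₀ hb.ne', one_smul]
    rw [e1, norm_smul, norm_inv, Real.norm_eq_abs, abs_of_pos hb, inv_mul_le_iff₀ hb]
    linarith
  · have e1 : (‖F x‖ / b) • hs φ x - mdl L (ContinuousLinearMap.adjoint L (hat F x)) κ' =
        b⁻¹ • (‖F x‖ • hs φ x - b • mdl L (ContinuousLinearMap.adjoint L (hat F x)) κ') := by
      rw [smul_sub, smul_smul, smul_smul, inv_mul_cancel₀ hb.ne', one_smul, inv_mul_eq_div]
    rw [e1, norm_smul, norm_inv, Real.norm_eq_abs, abs_of_pos hb, inv_mul_le_iff₀ hb]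
    linarith
  · have e1 : (‖gradient u x‖ / (‖gradient u x‖ + τ * b)) • ‖gradient u x‖⁻¹ • gradient u x +
        (τ * b / (‖gradient u x‖ + τ * b)) • b⁻¹ • gradient φ x =
        (‖gradient u x‖ + τ * b)⁻¹ • (gradient u x + τ • gradient φ x) := by
      rw [smul_add, smul_smul, smul_smul, smul_smul]
      congr 2
      · field_simp
      · field_simp
    rw [e1, hgo, smul_smul, inv_mul_eq_div]
  · have e1 : (‖gradient u x‖ / (‖gradient u x‖ + τ * b)) •
        ((‖F x‖ / ‖gradient u x‖) • hs u x) +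
        (τ * b / (‖gradient u x‖ + τ * b)) • ((‖F x‖ / b) • hs φ x) =
        (‖F x‖ / (‖gradient u x‖ + τ * b)) • (hs u x + τ • hs φ x) := by
      rw [smul_add, smul_smul, smul_smul, smul_smul]
      congr 2
      · field_simp
      · field_simp
    rw [e1, tr_smul, smul_apply, inner_smul_left, RCLike.conj_to_real]
    have h5 : 0 < ‖F x‖ / (‖gradient u x‖ + τ * b) := by positivity
    have h6 := mul_nonpos_of_nonneg_of_nonpos h5.le hfail
    linarith [h6]

end STRICT_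

open STRICT_ in
theorem strict (hPHI : T_PHI2) (hBDD : T_BDD) (hUNIF : T_UNIF) (hA : T_ALGA) (hB : T_ALGB) :
    T_STRICT := by
  intro n p k u x₀ F hp hu hC
  by_contra hcon
  push Not at hcon
  have hk := hC.one_lt
  -- the eventual properties
  have hreg : ∀ᶠ x in 𝓝[{x | F x ≠ 0}] x₀, F x ≠ 0 ∧ gradient u x ≠ 0 := by
    have h1 : ∀ᶠ x in 𝓝[{x | F x ≠ 0}] x₀, F x ≠ 0 := self_mem_nhdsWithin
    filter_upwards [h1, hC.regular.filter_mono nhdsWithin_le_nhds] with x hx hx2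
    exact ⟨hx, hx2 hx⟩
  have key : ∀ j : ℕ, ∃ (f : E 2) (g η ω : E n) (A B : E n →L[ℝ] E n) (θ β γ κ' : ℝ),
      Dat p k (k - (k - 1) / ((j : ℝ) + 2)) (1 / ((j : ℝ) + 1)) (fderiv ℝ F x₀) f g η ω A B θ β γ
        κ' := by
    intro j
    have hj : (0 : ℝ) < 1 / ((j : ℝ) + 1) := by positivity
    have hκ1 : 1 < k - (k - 1) / ((j : ℝ) + 2) := by
      have : (k - 1) / ((j : ℝ) + 2) < k - 1 := by
        rw [div_lt_iff₀ (by positivity)]
        have : (0 : ℝ) ≤ j := Nat.cast_nonneg j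
        nlinarith
      linarith
    have hκ2 : k - (k - 1) / ((j : ℝ) + 2) < k := by
      have : 0 < (k - 1) / ((j : ℝ) + 2) := div_pos (by linarith) (by positivity)
      linarith
    have hfr := hcon _ hκ1 hκ2
    have hrad := hC.radial.def hj
    have htang := hUNIF n p k u x₀ F hC _ hj
    have hphi := hPHI n k x₀ F hk hC.smooth hC.zero hC.iso _ hj
    obtain ⟨x, ⟨τ, c, hτ, hc0, hc1, hφ, hS⟩, ⟨hF, hG⟩, ⟨hu2, heq⟩, hr, ht, hph⟩ :=
      (hfr.and_eventually (hreg.and (hu.and (hrad.and (htang.and hphi))))).exists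
    obtain ⟨hφ2, b, κ', hb, hκ'1, hκ'2, hg1, hg2⟩ := hph _ c hκ1 hκ2 hc0 hc1 hφ
    obtain ⟨g, η, ω, A, B, θ, β, γ, κ'', hD⟩ := step (k := k) hF hG hu2 heq hr ht hφ2 hb hκ'1
      hκ'2 hκ2.le hg1 hg2 hτ hS
    exact ⟨_, g, η, ω, A, B, θ, β, γ, κ'', hD⟩
  choose f g η ω A B θ β γ κ' hD using key
  refine limit_false hBDD hA hB p k hp hk hC.range (fderiv ℝ F x₀) hC.iso _ _ ?_ ?_ ?_ ?_ f g η ω
    A B θ β γ κ' hD
  · have h1 : Tendsto (fun j : ℕ => (k - 1) / ((j : ℝ) + 2)) atTop (𝓝 0) :=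
      tendsto_const_nhds.div_atTop
        (tendsto_atTop_add_const_right _ _ tendsto_natCast_atTop_atTop)
    simpa using h1.const_sub k
  · intro j
    have : (k - 1) / ((j : ℝ) + 2) ≤ k - 1 := by
      rw [div_le_iff₀ (by positivity)]
      have : (0 : ℝ) ≤ j := Nat.cast_nonneg j
      nlinarith
    linarith
  · exact tendsto_one_div_add_atTop_nhds_zero_nat
  · intro j
    rw [div_le_one (by positivity)]
    have : (0 : ℝ) ≤ j := Nat.cast_nonneg j
    linarith

end Pool.Agent.SCP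

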