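import Pool.Agent.SCP.Targets

/-!
# SUBREG: a strict subsolution at `y`, slightly perturbed, is a weak subsolution near `y`
-/

set_option autoImplicit false

open Set MeasureTheory Filter Topology Asymptotics Metric
open scoped RealInnerProductSpace

namespace Pool.Agent.SCP

namespace SUBREG_

variable {n : ℕ}

lemma measurable_gradient (h : E n → ℝ) : Measurable (gradient h) := by
  have h1 : Measurable (fderiv ℝ h) := measurable_fderiv ℝ h
  exact (InnerProductSpace.toDual ℝ (E n)).symm.continuous.measurable.comp h1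

lemma contDiffOn_gradient {h : E n → ℝ} {G : Set (E n)} (hG : IsOpen G)
    (hh : ContDiffOn ℝ 2 h G) : ContDiffOn ℝ 1 (gradient h) G := by
  intro x hx
  exact (contDiffAt_gradient (hh.contDiffAt (hG.mem_nhds hx))).contDiffWithinAt

lemma sub_of_dv {p : ℝ} (hp : 1 < p) (hI : T_IBP) (hV : T_VREG) {G : Set (E n)} (hG : IsOpen G)
    {h : E n → ℝ} (hh : ContDiffOn ℝ 2 h G) {κ₀ : ℝ} (hκ₀ : 0 < κ₀)
    (hd : ∀ κ, 0 < κ → κ < κ₀ → ∀ x ∈ G, 0 ≤ dv (fun w => Vr p κ (gradient h w)) x) :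
    Sub p G h := by
  obtain ⟨v1, -, v3, v4⟩ := hV n p hp
  refine ⟨hh.of_le (by norm_num), fun ψ hψ hc hs h0 => ?_⟩
  have hgr := contDiffOn_gradient hG hh
  have hfd : ∀ x, x ∉ tsupport ψ → fderiv ℝ ψ x = 0 := by
    intro x hx
    have h1 : ψ =ᶠ[𝓝 x] fun _ => (0 : ℝ) := notMem_tsupport_iff_eventuallyEq.mp hx
    rw [h1.fderiv_eq]
    simp
  -- the inequality for the regularised field
  have hle : ∀ κ, 0 < κ → κ < κ₀ → ∫ x, fderiv ℝ ψ x (Vr p κ (gradient h x)) ≤ 0 := by
    intro κ hκ hκ'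
    have h1 : ContDiffOn ℝ 1 (fun w => Vr p κ (gradient h w)) G :=
      (v1 κ hκ).comp_contDiffOn hgr
    rw [hI n G _ ψ hG h1 hψ hc hs]
    rw [neg_nonpos]
    refine integral_nonneg fun x => ?_
    show 0 ≤ ψ x * dv (fun w => Vr p κ (gradient h w)) x
    by_cases hx : x ∈ G
    · exact mul_nonneg (h0 x) (hd κ hκ hκ' x hx)
    · have h2 : x ∉ tsupport ψ := fun h3 => hx (hs h3)
      rw [image_eq_zero_of_notMem_tsupport h2, zero_mul]
  -- the bound
  have hcont : ContinuousOn (fun x => (‖gradient h x‖ ^ 2 + 1) ^ ((p - 1) / 2)) (tsupport ψ) := by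
    have h1 : ContinuousOn (gradient h) (tsupport ψ) := hgr.continuousOn.mono hs
    refine ContinuousOn.rpow_const ((h1.norm.pow 2).add continuousOn_const) fun x _ => ?_
    left
    positivity
  obtain ⟨C, hC⟩ := hc.isCompact.exists_bound_of_continuousOn hcont
  have hfc : Continuous (fderiv ℝ ψ) := hψ.continuous_fderiv (by norm_num)
  have hfs : HasCompactSupport (fderiv ℝ ψ) := hc.fderiv ℝ
  have hint : Integrable (fun x => ‖fderiv ℝ ψ x‖ * C) volume :=
    (hfc.norm.integrable_of_hasCompactSupport hfs.norm).mul_const C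
  have hlim : Tendsto (fun κ : ℝ => ∫ x, fderiv ℝ ψ x (Vr p κ (gradient h x))) (𝓝[>] 0)
      (𝓝 (∫ x, flux p h ψ x)) := by
    refine tendsto_integral_filter_of_dominated_convergence (fun x => ‖fderiv ℝ ψ x‖ * C) ?_ ?_
      hint ?_
    · filter_upwards [self_mem_nhdsWithin] with κ hκ
      have m1 : Measurable fun x => Vr p κ (gradient h x) :=
        (v1 κ hκ).continuous.measurable.comp (measurable_gradient h)
      have m2 : (fun x => fderiv ℝ ψ x (Vr p κ (gradient h x))) =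
          fun x => ⟪gradient ψ x, Vr p κ (gradient h x)⟫ := by
        funext x
        rw [inner_gradient_left]
      rw [m2]
      exact ((measurable_gradient ψ).inner m1).aestronglyMeasurable
    · have h1 : ∀ᶠ κ : ℝ in 𝓝[>] 0, κ ≤ 1 :=
        nhdsWithin_le_nhds (Iic_mem_nhds one_pos)
      filter_upwards [self_mem_nhdsWithin, h1] with κ hκ hκ1
      refine Eventually.of_forall fun x => ?_
      by_cases hx : x ∈ tsupport ψ
      · calc ‖fderiv ℝ ψ x (Vr p κ (gradient h x))‖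
            ≤ ‖fderiv ℝ ψ x‖ * ‖Vr p κ (gradient h x)‖ := ContinuousLinearMap.le_opNorm _ _
          _ ≤ ‖fderiv ℝ ψ x‖ * C := by
            refine mul_le_mul_of_nonneg_left ?_ (norm_nonneg _)
            refine (v3 κ hκ hκ1 _).trans ?_
            exact (le_abs_self _).trans (hC x hx)
      · rw [hfd x hx]
        simp
    · refine Eventually.of_forall fun x => ?_
      rw [flux_eq]
      exact ((fderiv ℝ ψ x).continuous.tendsto _).comp (v4 (gradient h x))
  refine le_of_tendsto hlim ?_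
  have h1 : ∀ᶠ κ : ℝ in 𝓝[>] 0, κ < κ₀ := nhdsWithin_le_nhds (Iio_mem_nhds hκ₀)
  filter_upwards [self_mem_nhdsWithin, h1] with κ hκ hκ'
  exact hle κ hκ hκ'

end SUBREG_

open SUBREG_ in
theorem subreg (hI : T_IBP) (hV : T_VREG) (hR : T_REGDIV) : T_SUBREG := by
  intro n p H y hn hp hs
  obtain ⟨ε, r, κ₀, hε, hr, hκ₀, hH, hd⟩ := hR n p H y hn hp hs
  refine ⟨ε, r, hε, hr, sub_of_dv hp hI hV isOpen_ball ?_ hκ₀ hd⟩
  refine hH.sub ?_
  have h1 : ContDiff ℝ 2 fun z : E n => ε * ‖z - y‖ ^ 2 :=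
    contDiff_const.mul ((contDiff_id.sub contDiff_const).norm_sq ℝ)
  exact h1.contDiffOn

end Pool.Agent.SCP
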