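import Pool.Agent.SCP.Targets

/-!
# TOUCH, NEG, PT
-/

set_option autoImplicit false

open Set MeasureTheory Filter Topology Asymptotics Metric
open scoped RealInnerProductSpace

namespace Pool.Agent.SCP

namespace TOUCH_

variable {n : ℕ}

theorem gradient_neg' (u : E n → ℝ) (x : E n) :
    gradient (fun x => - u x) x = - gradient u x := by
  rw [gradient_eq_symm, gradient_eq_symm, ← map_neg]
  congr 1
  exact fderiv_fun_neg

theorem hs_neg' (u : E n → ℝ) (x : E n) : hs (fun x => - u x) x = - hs u x := by
  have h : gradient (fun x => - u x) = fun x => - gradient u x := by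
    funext y
    exact gradient_neg' u y
  unfold hs
  rw [h]
  exact fderiv_fun_neg

theorem strict_of_pos {p : ℝ} {u : E n → ℝ} {x : E n} (h : ContDiffAt ℝ 2 u x)
    (hT : 0 < ‖gradient u x‖ ^ 2 * tr (hs u x) +
      (p - 2) * ⟪hs u x (gradient u x), gradient u x⟫) : Strict p u x := by
  refine ⟨h, fun ω Γ hω hΓ hg => ?_⟩
  have h1 : ‖gradient u x‖ ^ 2 * tr (hs u x) +
      (p - 2) * ⟪hs u x (gradient u x), gradient u x⟫ =
      Γ ^ 2 * (tr (hs u x) + (p - 2) * ⟪hs u x ω, ω⟫) := by
    rw [hg, map_smul, inner_smul_left, inner_smul_right, norm_smul, hω, Real.norm_eq_abs, mul_one,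
      sq_abs]
    simp only [conj_trivial]
    ring
  rw [h1] at hT
  by_contra hcon
  exact absurd hT (not_lt.2 (mul_nonpos_of_nonneg_of_nonpos (sq_nonneg Γ) (not_lt.1 hcon)))

end TOUCH_

open TOUCH_

/-- TOUCH -/
theorem touch (h1 : T_SUBREG) (h2 : T_CMPSUB) : T_TOUCH := by
  intro n p Ω v H y hn hp hΩ hv hy hH hev
  obtain ⟨ε, r, hε, hr, hsub⟩ := h1 n p H y hn hp hH
  obtain ⟨s, hs, hs'⟩ := Metric.eventually_nhds_iff_ball.1 (hev.and (hΩ.mem_nhds hy))
  set t := min r s with ht
  have ht0 : 0 < t := lt_min hr hs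
  have htr : ball y t ⊆ ball y r := ball_subset_ball (min_le_left _ _)
  have hts : ball y t ⊆ ball y s := ball_subset_ball (min_le_right _ _)
  have hc := h2 n p (ball y t) (closedBall y (t / 2))
    (fun z => (H z - ε * ‖z - y‖ ^ 2) + (ε * (t / 2) ^ 2 - (H y - v y))) v hn hp isOpen_ball
    ((hsub.mono htr).add_const _) (hv.mono fun z hz => (hs' z (hts hz)).2)
    (isCompact_closedBall _ _) (closedBall_subset_ball (by linarith)) (by
      intro x hx hx'
      have e1 := (hs' x (hts hx)).1
      have e2 : t / 2 < ‖x - y‖ := by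
        rw [mem_closedBall, dist_eq_norm, not_le] at hx'
        exact hx'
      have e3 : (t / 2) ^ 2 ≤ ‖x - y‖ ^ 2 := by
        apply pow_le_pow_left₀ (by linarith) e2.le
      have e4 := mul_le_mul_of_nonneg_left e3 hε.le
      linarith) y (mem_ball_self ht0)
  simp only [sub_self, norm_zero] at hc
  have : 0 < ε * (t / 2) ^ 2 := by positivity
  linarith

/-- NEG -/
theorem neg : T_NEG := by
  intro n p k Ω u
  refine ⟨?_, ?_, fun x => gradient_neg' u x⟩
  · rintro ⟨h1, h2⟩
    refine ⟨h1.neg, fun φ a b c => ?_⟩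
    have h3 := h2 φ a b c
    have h4 : (fun x => ‖gradient (fun x => - u x) x‖ ^ (p - 2) *
        (fderiv ℝ φ x (gradient (fun x => - u x) x))) =
        fun x => - (‖gradient u x‖ ^ (p - 2) * (fderiv ℝ φ x (gradient u x))) := by
      funext x
      rw [gradient_neg', norm_neg, map_neg, mul_neg]
    rw [h4, integral_neg, h3, neg_zero]
  · intro x₀ F h
    refine ⟨h.smooth, h.zero, h.iso, h.one_lt, h.range, ?_, ?_, ?_, ?_⟩
    · filter_upwards [h.regular] with x hx hFx
      rw [gradient_neg']
      exact neg_ne_zero.2 (hx hFx)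
    · have h4 : (fun x => hs (fun x => - u x) x
          (ContinuousLinearMap.adjoint (fderiv ℝ F x₀) (F x)) -
          (k - 1) • gradient (fun x => - u x) x) =
          fun x => - (hs u x (ContinuousLinearMap.adjoint (fderiv ℝ F x₀) (F x)) -
            (k - 1) • gradient u x) := by
        funext x
        rw [gradient_neg', hs_neg', _root_.neg_apply, smul_neg]
        abel
      have h5 : gradient (fun x => - u x) = fun x => - gradient u x := by
        funext x
        exact gradient_neg' u x
      rw [h4, h5]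
      exact (h.radial.neg_left).neg_right
    · intro s hs0
      have h4 : (fun x => ‖F x‖ • hs (fun x => - u x) x s) =
          fun x => - (‖F x‖ • hs u x s) := by
        funext x
        rw [hs_neg', _root_.neg_apply, smul_neg]
      have h5 : gradient (fun x => - u x) = fun x => - gradient u x := by
        funext x
        exact gradient_neg' u x
      rw [h4, h5]
      exact ((h.tang s hs0).neg_left).neg_right
    · intro κ hκ
      have h4 : (fun x => - u x - - u x₀) = fun x => - (u x - u x₀) := by
        funext x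
        ring
      rw [h4]
      exact (h.order κ hκ).neg_left

/-- PT -/
theorem pt (h1 : T_TOUCH) (h2 : T_NEG) : T_PT := by
  intro n p Ω u x hn hp hΩ hu hx hc hg
  unfold Eqn
  rcases lt_trichotomy (‖gradient u x‖ ^ 2 * tr (hs u x) +
      (p - 2) * ⟪hs u x (gradient u x), gradient u x⟫) 0 with h | h | h
  · exfalso
    have h3 : 0 < ‖gradient (fun x => - u x) x‖ ^ 2 * tr (hs (fun x => - u x) x) +
      (p - 2) * ⟪hs (fun x => - u x) x (gradient (fun x => - u x) x),
        gradient (fun x => - u x) x⟫ := by
      rw [gradient_neg', hs_neg', norm_neg, _root_.neg_apply, map_neg, neg_neg,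
        inner_neg_right]
      have h4 : tr (- hs u x) = - tr (hs u x) := by
        unfold tr
        have h5 : ((- hs u x : E n →L[ℝ] E n) : E n →ₗ[ℝ] E n) =
            - ((hs u x : E n →L[ℝ] E n) : E n →ₗ[ℝ] E n) := rfl
        rw [h5, map_neg]
      rw [h4]
      linarith
    have h4 := strict_of_pos (p := p) hc.neg h3
    exact h1 n p Ω (fun x => - u x) (fun x => - u x) x hn hp hΩ ((h2 n p 0 Ω u).1 hu) hx h4
      (Eventually.of_forall fun z => by simp)
  · exact h
  · exfalso
    exact h1 n p Ω u u x hn hp hΩ hu hx (strict_of_pos hc h)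
      (Eventually.of_forall fun z => by simp)

end Pool.Agent.SCP
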