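import Pool.Agent.SCP.Targets

/-!
# UNIF: the condition `tang` in a uniform form
-/

set_option autoImplicit false

open Set MeasureTheory Filter Topology Asymptotics Metric
open scoped RealInnerProductSpace

namespace Pool.Agent.SCP

theorem unif : T_UNIF := by
  intro n p k u x₀ F hc ε hε
  set L := fderiv ℝ F x₀ with hL
  set t : Fin n → E n := fun i => EuclideanSpace.single i (1 : ℝ) -
    ContinuousLinearMap.adjoint L (L (EuclideanSpace.single i (1 : ℝ))) with ht
  have hLt : ∀ i, L (t i) = 0 := by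
    intro i
    simp only [ht, map_sub]
    rw [hc.iso, sub_self]
  set δ : ℝ := ε / (n + 1) with hδ
  have hδ0 : 0 < δ := by positivity
  have hev : ∀ᶠ x in 𝓝[{x | F x ≠ 0}] x₀, ∀ i : Fin n,
      ‖‖F x‖ • hs u x (t i)‖ ≤ δ * ‖gradient u x‖ := by
    rw [eventually_all]
    intro i
    exact (hc.tang (t i) (hLt i)).bound hδ0
  filter_upwards [hev] with x hx s hs0
  have hsum : s = ∑ i, s i • t i := by
    have h1 : s = ∑ i, s i • EuclideanSpace.single i (1 : ℝ) := by
      ext j
      simp [Finset.sum_apply, Pi.single_apply]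
    have h2 : ∑ i, s i • t i = s - ContinuousLinearMap.adjoint L (L s) := by
      conv_rhs => rw [h1]
      simp only [ht, smul_sub, Finset.sum_sub_distrib, map_sum, map_smul]
    rw [h2, hs0, map_zero, sub_zero]
  have h3 : ‖F x‖ • hs u x s = ∑ i, s i • (‖F x‖ • hs u x (t i)) := by
    conv_lhs => rw [hsum]
    rw [map_sum, Finset.smul_sum]
    refine Finset.sum_congr rfl fun i _ => ?_
    rw [map_smul, smul_comm]
  have h4 : ‖F x‖ * ‖hs u x s‖ = ‖‖F x‖ • hs u x s‖ := by
    rw [norm_smul, norm_norm]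
  rw [h4, h3]
  calc ‖∑ i, s i • (‖F x‖ • hs u x (t i))‖ ≤ ∑ i, ‖s i • (‖F x‖ • hs u x (t i))‖ :=
        norm_sum_le _ _
    _ ≤ ∑ _i : Fin n, ‖s‖ * (δ * ‖gradient u x‖) := by
        refine Finset.sum_le_sum fun i _ => ?_
        rw [norm_smul]
        exact mul_le_mul (PiLp.norm_apply_le s i) (hx i) (norm_nonneg _) (norm_nonneg _)
    _ = (n * δ) * ‖s‖ * ‖gradient u x‖ := by
        rw [Finset.sum_const, Finset.card_univ, Fintype.card_fin, nsmul_eq_mul]; ring
    _ ≤ ε * ‖s‖ * ‖gradient u x‖ := by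
        have : n * δ ≤ ε := by
          rw [hδ, mul_div_assoc', div_le_iff₀ (by positivity)]
          nlinarith
        gcongr

end Pool.Agent.SCP
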