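import Pool.Agent.SCP.Targets

/-!
# The regularised field
-/

set_option autoImplicit false

open Set MeasureTheory Filter Topology Asymptotics Metric
open scoped RealInnerProductSpace

namespace Pool.Agent.SCP

namespace VREG_

variable {n : ℕ}

theorem base_pos {κ : ℝ} (hκ : 0 < κ) (ξ : E n) : 0 < ‖ξ‖ ^ 2 + κ ^ 2 := by positivity

theorem contDiff_base (κ : ℝ) : ContDiff ℝ 1 (fun ξ : E n => ‖ξ‖ ^ 2 + κ ^ 2) :=
  (contDiff_norm_sq ℝ).add contDiff_const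

theorem contDiff_pow {κ : ℝ} (hκ : 0 < κ) (s : ℝ) :
    ContDiff ℝ 1 (fun ξ : E n => (‖ξ‖ ^ 2 + κ ^ 2) ^ s) :=
  (contDiff_base κ).rpow_const_of_ne fun ξ => (base_pos hκ ξ).ne'

theorem hasFDerivAt_pow {κ : ℝ} (hκ : 0 < κ) (s : ℝ) (ξ : E n) :
    HasFDerivAt (fun ξ : E n => (‖ξ‖ ^ 2 + κ ^ 2) ^ s)
      ((s * (‖ξ‖ ^ 2 + κ ^ 2) ^ (s - 1)) • (2 • (innerSL ℝ ξ))) ξ := by
  have h1 : HasFDerivAt (fun ξ : E n => ‖ξ‖ ^ 2 + κ ^ 2) (2 • (innerSL ℝ ξ)) ξ :=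
    (hasStrictFDerivAt_norm_sq ξ).hasFDerivAt.add_const _
  exact h1.rpow_const (Or.inl (base_pos hκ ξ).ne')

end VREG_

open VREG_ in
theorem vreg : T_VREG := by
  intro n p hp
  refine ⟨fun κ hκ => ?_, fun κ hκ ξ h => ?_, fun κ hκ hκ1 ξ => ?_, fun ξ => ?_⟩
  · exact (contDiff_pow hκ _).smul contDiff_id
  · have h1 := (hasFDerivAt_pow hκ ((p - 2) / 2) ξ).smul (hasFDerivAt_id ξ)
    have h2 : HasFDerivAt (Vr p κ) _ ξ := h1
    rw [h2.fderiv]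
    have hb := base_pos hκ ξ
    simp only [add_apply, smul_apply,
      ContinuousLinearMap.smulRight_apply, ContinuousLinearMap.id_apply, id_eq,
      innerSL_apply_apply, smul_add, smul_eq_mul, nsmul_eq_mul, Nat.cast_ofNat]
    congr 1
    rw [smul_smul]
    congr 1
    rw [Real.rpow_sub_one hb.ne']
    field_simp
  · unfold Vr
    have hb := base_pos hκ ξ
    rw [norm_smul, Real.norm_of_nonneg (Real.rpow_nonneg hb.le _)]
    have h1 : ‖ξ‖ ≤ (‖ξ‖ ^ 2 + κ ^ 2) ^ (1 / 2 : ℝ) := by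
      rw [← Real.sqrt_eq_rpow]
      apply Real.le_sqrt_of_sq_le
      nlinarith
    calc (‖ξ‖ ^ 2 + κ ^ 2) ^ ((p - 2) / 2) * ‖ξ‖
        ≤ (‖ξ‖ ^ 2 + κ ^ 2) ^ ((p - 2) / 2) * (‖ξ‖ ^ 2 + κ ^ 2) ^ (1 / 2 : ℝ) :=
          mul_le_mul_of_nonneg_left h1 (Real.rpow_nonneg hb.le _)
      _ = (‖ξ‖ ^ 2 + κ ^ 2) ^ ((p - 1) / 2) := by
          rw [← Real.rpow_add hb]
          congr 1
          ring
      _ ≤ (‖ξ‖ ^ 2 + 1) ^ ((p - 1) / 2) := by
          apply Real.rpow_le_rpow hb.le _ (by linarith)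
          nlinarith
  · unfold Vr V
    rcases eq_or_ne ξ 0 with rfl | hξ
    · simp
    · apply Tendsto.smul_const
      have hn : 0 < ‖ξ‖ := norm_pos_iff.mpr hξ
      have h1 : ‖ξ‖ ^ (p - 2) = (‖ξ‖ ^ 2 + 0 ^ 2) ^ ((p - 2) / 2) := by
        rw [← Real.rpow_natCast ‖ξ‖ 2]
        norm_num
        rw [← Real.rpow_natCast ‖ξ‖ 2, ← Real.rpow_mul hn.le]
        congr 1
        push_cast
        ring
      rw [h1]
      have h2 : ContinuousAt (fun κ : ℝ => (‖ξ‖ ^ 2 + κ ^ 2) ^ ((p - 2) / 2)) 0 := by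
        apply ContinuousAt.rpow_const
        · fun_prop
        · left
          positivity
      exact h2.tendsto.mono_left nhdsWithin_le_nhds

end Pool.Agent.SCP
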