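import Pool.Agent.SCP.Defs2

/-!
# WEST: the radial condition in the straightened coordinates
-/

set_option autoImplicit false

open Set MeasureTheory Filter Topology Asymptotics
open scoped RealInnerProductSpace

namespace Pool.Agent.SCP

/-- WEST -/
theorem west : T_WEST := by
  intro n p k C u x₀ F Ψ hcp hC2 hB hΨ hΨ0 hΨ1 hF ε hε
  have hL : Iso (fderiv ℝ F x₀) := hcp.iso
  have hcont : Tendsto Ψ (𝓝 0) (𝓝 x₀) := by
    have := hΨ.continuousAt
    unfold ContinuousAt at this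
    rwa [hΨ0] at this
  have htend : Tendsto Ψ (𝓝[{y | fderiv ℝ F x₀ y ≠ 0}] 0) (𝓝[{x | F x ≠ 0}] x₀) := by
    rw [tendsto_nhdsWithin_iff]
    refine ⟨hcont.mono_left nhdsWithin_le_nhds, ?_⟩
    filter_upwards [hF.filter_mono nhdsWithin_le_nhds, self_mem_nhdsWithin] with y hy hy'
    rw [hy]
    exact hy'
  have hδ : 0 < ε / (2 * (|C| + 1)) := by positivity
  have hrad := hcp.radial.bound (half_pos hε)
  have hdΨ : ∀ᶠ y in 𝓝 (0 : E n), ‖fderiv ℝ Ψ y - ContinuousLinearMap.id ℝ (E n)‖ <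
      ε / (2 * (|C| + 1)) := by
    have h1 : ContDiffAt ℝ 1 (fderiv ℝ Ψ) 0 := hΨ.fderiv_right (by norm_num)
    have h2 := h1.continuousAt
    unfold ContinuousAt at h2
    rw [hΨ1] at h2
    have h3 := (h2.sub_const (ContinuousLinearMap.id ℝ (E n))).norm
    rw [sub_self, norm_zero] at h3
    exact h3.eventually_lt_const hδ
  filter_upwards [htend.eventually hC2, htend.eventually hB, htend.eventually hrad,
    hdΨ.filter_mono nhdsWithin_le_nhds, hF.filter_mono nhdsWithin_le_nhds,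
    (hΨ.eventually (by simp)).filter_mono nhdsWithin_le_nhds] with y h1 h2 h3 h4 h5 h6
  have hd1 : DifferentiableAt ℝ (gradient u) (Ψ y) :=
    (contDiffAt_gradient h1).differentiableAt (by norm_num)
  have hd2 : DifferentiableAt ℝ Ψ y := h6.differentiableAt (by norm_num)
  have hcomp : HasFDerivAt (fun z => gradient u (Ψ z))
      ((hs u (Ψ y)).comp (fderiv ℝ Ψ y)) y := by
    exact hd1.hasFDerivAt.comp y hd2.hasFDerivAt
  refine ⟨hcomp.differentiableAt, ?_⟩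
  rw [hcomp.fderiv]
  set v := ContinuousLinearMap.adjoint (fderiv ℝ F x₀) (fderiv ℝ F x₀ y) with hv
  have hnv : ‖v‖ = ‖F (Ψ y)‖ := by
    rw [hv, norm_adjoint hL, h5]
  rw [h5] at h3
  have e1 : ((hs u (Ψ y)).comp (fderiv ℝ Ψ y)) v - (k - 1) • gradient u (Ψ y) =
      (hs u (Ψ y) v - (k - 1) • gradient u (Ψ y)) +
        hs u (Ψ y) ((fderiv ℝ Ψ y - ContinuousLinearMap.id ℝ (E n)) v) := by
    simp only [ContinuousLinearMap.comp_apply, sub_apply, ContinuousLinearMap.id_apply, map_sub]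
    abel
  have e2 : ‖hs u (Ψ y) ((fderiv ℝ Ψ y - ContinuousLinearMap.id ℝ (E n)) v)‖ ≤
      ε / 2 * ‖gradient u (Ψ y)‖ := by
    calc ‖hs u (Ψ y) ((fderiv ℝ Ψ y - ContinuousLinearMap.id ℝ (E n)) v)‖
        ≤ ‖hs u (Ψ y)‖ * ‖(fderiv ℝ Ψ y - ContinuousLinearMap.id ℝ (E n)) v‖ :=
          ContinuousLinearMap.le_opNorm _ _
      _ ≤ ‖hs u (Ψ y)‖ * (‖fderiv ℝ Ψ y - ContinuousLinearMap.id ℝ (E n)‖ * ‖v‖) := by
          gcongr
          exact ContinuousLinearMap.le_opNorm _ _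
      _ ≤ ‖hs u (Ψ y)‖ * (ε / (2 * (|C| + 1)) * ‖v‖) := by
          gcongr
      _ = ε / (2 * (|C| + 1)) * (‖F (Ψ y)‖ * ‖hs u (Ψ y)‖) := by
          rw [hnv]
          ring
      _ ≤ ε / (2 * (|C| + 1)) * (C * ‖gradient u (Ψ y)‖) := by
          gcongr
      _ ≤ ε / (2 * (|C| + 1)) * ((|C| + 1) * ‖gradient u (Ψ y)‖) := by
          gcongr
          linarith [le_abs_self C]
      _ = ε / 2 * ‖gradient u (Ψ y)‖ := by
          field_simp
  rw [e1]
  refine (norm_add_le _ _).trans ?_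
  have e3 : ‖hs u (Ψ y) v - (k - 1) • gradient u (Ψ y)‖ ≤ ε / 2 * ‖gradient u (Ψ y)‖ := h3
  linarith

end Pool.Agent.SCP
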