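import Pool.Agent.SCP.TEST
import Pool.Agent.SCP.IBP
import Pool.Agent.SCP.MONO
import Pool.Agent.SCP.VREG
import Pool.Agent.SCP.REGDIV
import Pool.Agent.SCP.SUBREG
import Pool.Agent.SCP.CMPSUB
import Pool.Agent.SCP.TOUCH
import Pool.Agent.SCP.CMP
import Pool.Agent.SCP.HOPF
import Pool.Agent.SCP.BARD
import Pool.Agent.SCP.BARU
import Pool.Agent.SCP.NONCRIT
import Pool.Agent.SCP.PHI1
import Pool.Agent.SCP.PHI2
import Pool.Agent.SCP.REAL
import Pool.Agent.SCP.ALG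
import Pool.Agent.SCP.BDD
import Pool.Agent.SCP.UNIF
import Pool.Agent.SCP.STRICT
import Pool.Agent.SCP.CONN
import Pool.Agent.SCP.NOTOUCH
import Pool.Agent.SCP.CON2
import Pool.Agent.SCP.GLOBAL
import Pool.Agent.SCP.HOMOG
import Pool.Agent.SCP.MAIN
import Pool.Agent.SCP.HBD
import Pool.Agent.SCP.STR
import Pool.Agent.SCP.WEST
import Pool.Agent.SCP.RAY
import Pool.Agent.SCP.ORDER

/-!
# The theorem
-/

set_option autoImplicit false

open Set MeasureTheory Filter Topology Asymptotics Metric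
open scoped RealInnerProductSpace

namespace Pool.Agent.SCP

theorem touch_ : T_TOUCH := touch (subreg ibp vreg (regdiv vreg)) (cmpsub mono test)

theorem pt_ : T_PT := pt touch_ neg

theorem noncrit_ : T_NONCRIT := noncrit (hopf touch_) (baru bard) pt_

theorem smp_ : T_SMP := smp (hopf touch_) (barc bard)

theorem strict_ : T_STRICT := strict (phi2 phi1) bdd unif (alga real) algb

theorem con2_ : T_CON2 := con2 (notouch touch_ strict_ smp_ pt_ conn) noncrit_ conn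

theorem main_ : T_MAIN := main noncrit_ con2_ (global (cmp test (cmpsub mono test))) neg

theorem order_ : T_ORDER := order (hbd bdd) str west ray

theorem final : T_FINAL := by
  intro n p Ω B u v hn hp hΩ hc hu hv huv hx hreg hB hcon
  apply main_ n p Ω B u v hn hp hΩ hc hu hv huv hx hreg hB
  intro x hx hg hxB
  obtain ⟨k, F, hC⟩ := hcon x hx hg hxB
  refine ⟨k, F, order_ n p k Ω u x F hp hΩ hx hu.1 ?_ hC⟩
  have h1 : ∀ᶠ y in 𝓝[{y | F y ≠ 0}] x, F y ≠ 0 := self_mem_nhdsWithin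
  filter_upwards [h1, hC.regular.filter_mono nhdsWithin_le_nhds,
    (hΩ.eventually_mem hx).filter_mono nhdsWithin_le_nhds] with y hy1 hy2 hy3
  have h2 := hreg y hy3 (hy2 hy1)
  exact ⟨h2, pt_ n p Ω u y (by omega) hp hΩ hu hy3 h2 (hy2 hy1)⟩

/-- the case of homogeneous functions of two variables -/
theorem final_homog (n : ℕ) (p k : ℝ) (Ω : Set (E n)) (L : E n →L[ℝ] E 2) (A : E 2 → ℝ)
    (a : E n) (c : ℝ) (v : E n → ℝ) (hn : 2 ≤ n) (hp : 1 < p) (hΩ : IsOpen Ω)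
    (hc : IsConnected Ω) (hL : Iso L) (hk : 1 < k)
    (hr : 0 < (p - 1) + (k - 1) * (2 * p - 3)) (hA2 : ∀ z, z ≠ 0 → ContDiffAt ℝ 2 A z)
    (hA1 : ∀ z, z ≠ 0 → gradient A z ≠ 0)
    (hAk : ∀ t : ℝ, 0 < t → ∀ z, A (t • z) = t ^ k * A z)
    (hu : PHarm p Ω fun x => A (L (x - a)) + c) (hv : PHarm p Ω v)
    (huv : (∀ x ∈ Ω, A (L (x - a)) + c ≤ v x) ∨ ∀ x ∈ Ω, v x ≤ A (L (x - a)) + c)
    (hx : ∃ x ∈ Ω, A (L (x - a)) + c = v x) : ∀ x ∈ Ω, A (L (x - a)) + c = v x :=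
  main_homog main_ homog n p k Ω L A a c v hn hp hΩ hc hL hk hr hA2 hA1 hAk hu hv huv hx

end Pool.Agent.SCP
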