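import Pool.Agent.SCP.Targets

/-!
# The inequalities in the limit: linear algebra
-/

set_option autoImplicit false

open Set MeasureTheory Filter Topology Asymptotics Metric
open scoped RealInnerProductSpace

namespace Pool.Agent.SCP

namespace ALG_

variable {n : ℕ}

/-- A unit vector orthogonal to a unit vector of the plane, with its expansion and trace formula. -/
theorem exists_perp (f : E 2) (hf : ‖f‖ = 1) : ∃ f' : E 2, ‖f'‖ = 1 ∧ ⟪f, f'⟫ = 0 ∧
    (∀ w : E 2, w = ⟪f, w⟫ • f + ⟪f', w⟫ • f') ∧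
    ∀ B : E 2 →L[ℝ] E 2, tr B = ⟪f, B f⟫ + ⟪f', B f'⟫ := by
  have h1 : f 0 ^ 2 + f 1 ^ 2 = 1 := by
    have := EuclideanSpace.real_norm_sq_eq f
    rw [hf, Fin.sum_univ_two] at this
    linarith
  set f' : E 2 := !₂[-f 1, f 0] with hf'
  have e0 : f' 0 = - f 1 := by simp [hf']
  have e1 : f' 1 = f 0 := by simp [hf']
  have hin : ∀ a b : E 2, ⟪a, b⟫ = a 0 * b 0 + a 1 * b 1 := by
    intro a b
    rw [EuclideanSpace.inner_eq_star_dotProduct]
    simp [dotProduct, Fin.sum_univ_two, mul_comm]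
  have h2 : ⟪f', f'⟫ = 1 := by rw [hin, e0, e1]; nlinarith
  have h3 : ⟪f, f'⟫ = 0 := by rw [hin, e0, e1]; ring
  have h4 : ‖f'‖ = 1 := by
    have : ‖f'‖ ^ 2 = 1 := by rw [← real_inner_self_eq_norm_sq, h2]
    nlinarith [norm_nonneg f']
  have h5 : ∀ w : E 2, w = ⟪f, w⟫ • f + ⟪f', w⟫ • f' := by
    intro w
    ext i
    fin_cases i
    · simp only [Fin.zero_eta, PiLp.add_apply, PiLp.smul_apply, smul_eq_mul]
      rw [hin, hin, e0, e1]
      linear_combination (- w 0) * h1
    · simp only [Fin.mk_one, PiLp.add_apply, PiLp.smul_apply, smul_eq_mul]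
      rw [hin, hin, e0, e1]
      linear_combination (- w 1) * h1
  refine ⟨f', h4, h3, h5, fun B => ?_⟩
  have hon : Orthonormal ℝ ![f, f'] := by
    rw [orthonormal_iff_ite]
    intro i j
    fin_cases i <;> fin_cases j
    · simp [hf]
    · simpa using h3
    · simpa [real_inner_comm] using h3
    · simp [h4]
  have hsp : ⊤ ≤ Submodule.span ℝ (Set.range ![f, f']) := by
    intro w _
    rw [h5 w]
    refine Submodule.add_mem _ (Submodule.smul_mem _ _ (Submodule.subset_span ⟨0, rfl⟩))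
      (Submodule.smul_mem _ _ (Submodule.subset_span ⟨1, rfl⟩))
  rw [tr_eq_sum B (OrthonormalBasis.mk hon hsp), Fin.sum_univ_two]
  simp

/-- The frame at a conical point in the limit. -/
theorem frame {p k : ℝ} {L : E n →L[ℝ] E 2} {f : E 2} {e g : E n} {A : E n →L[ℝ] E n}
    (h : Limit p k L f e g A) (hk : 1 < k) : ∃ t : E n, ⟪e, e⟫ = 1 ∧ ⟪t, t⟫ = 1 ∧ ⟪e, t⟫ = 0 ∧
      tr A = ⟪A e, e⟫ + ⟪A t, t⟫ ∧ g = ⟪e, g⟫ • e + ⟪t, g⟫ • t ∧
      (∀ w : E n, ‖L w‖ ^ 2 = ⟪e, w⟫ ^ 2 + ⟪t, w⟫ ^ 2) ∧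
      ∀ w : E n, A w = ⟪e, w⟫ • A e + ⟪t, w⟫ • A t := by
  obtain ⟨f', hf1, hf2, hf3, hf4⟩ := exists_perp f h.norm_f
  have hL := h.iso
  have he := h.e_eq
  set t : E n := ContinuousLinearMap.adjoint L f' with ht
  have hew : ∀ w : E n, ⟪e, w⟫ = ⟪f, L w⟫ := fun w => by
    rw [he, ContinuousLinearMap.adjoint_inner_left]
  have htw : ∀ w : E n, ⟪t, w⟫ = ⟪f', L w⟫ := fun w => by
    rw [ht, ContinuousLinearMap.adjoint_inner_left]
  have hLL : ∀ w : E n, ContinuousLinearMap.adjoint L (L w) = ⟪e, w⟫ • e + ⟪t, w⟫ • t := by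
    intro w
    rw [hew, htw, he, ht, ← map_smul, ← map_smul, ← map_add, ← hf3]
  have hker : ∀ w : E n, L (w - ContinuousLinearMap.adjoint L (L w)) = 0 := by
    intro w
    rw [map_sub, hL, sub_self]
  have hA : ∀ w : E n, A w = A (ContinuousLinearMap.adjoint L (L w)) := by
    intro w
    have := h.ker _ (hker w)
    rw [map_sub, sub_eq_zero] at this
    exact this
  refine ⟨t, ?_, ?_, ?_, ?_, ?_, ?_, ?_⟩
  · rw [he, inner_adjoint hL, real_inner_self_eq_norm_sq, h.norm_f]; norm_num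
  · rw [ht, inner_adjoint hL, real_inner_self_eq_norm_sq, hf1]; norm_num
  · rw [he, ht, inner_adjoint hL, hf2]
  · have h1 : A = A.comp ((ContinuousLinearMap.adjoint L).comp L) := by
      ext1 w
      exact hA w
    rw [h1, tr_comp_adjoint, hf4]
    have h2 : ∀ w : E n, (A.comp ((ContinuousLinearMap.adjoint L).comp L)) w = A w := fun w =>
      (hA w).symm
    rw [h2, h2]
    have h3 : ∀ z w : E 2, ⟪z, L.comp (A.comp (ContinuousLinearMap.adjoint L)) w⟫
        = ⟪A (ContinuousLinearMap.adjoint L w), ContinuousLinearMap.adjoint L z⟫ := by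
      intro z w
      simp only [ContinuousLinearMap.comp_apply]
      rw [← ContinuousLinearMap.adjoint_inner_left, real_inner_comm]
    rw [h3, h3, ← he, ← ht]
  · rw [← hLL g]
    set s : E n := g - ContinuousLinearMap.adjoint L (L g) with hs
    have hLs : L s = 0 := hker g
    have h1 : ⟪g, s⟫ = 0 := by
      have h2 : (k - 1) * ⟪g, s⟫ = 0 := by
        rw [← real_inner_smul_left, ← h.radial, h.symm, h.ker s hLs, inner_zero_right]
      rcases mul_eq_zero.1 h2 with h3 | h3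
      · linarith
      · exact h3
    have h2 : ⟪ContinuousLinearMap.adjoint L (L g), s⟫ = 0 := by
      rw [ContinuousLinearMap.adjoint_inner_left, hLs, inner_zero_right]
    have h3 : ⟪s, s⟫ = 0 := by
      nth_rw 1 [hs]
      rw [inner_sub_left, h1, h2, sub_zero]
    have h4 : s = 0 := inner_self_eq_zero.1 h3
    exact sub_eq_zero.1 h4
  · intro w
    rw [hew, htw]
    have h1 := hf3 (L w)
    have h2 : ‖L w‖ ^ 2 = ⟪L w, ⟪f, L w⟫ • f + ⟪f', L w⟫ • f'⟫ := by
      rw [← h1, real_inner_self_eq_norm_sq]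
    rw [h2, inner_add_right, inner_smul_right, inner_smul_right, real_inner_comm f,
      real_inner_comm f']
    ring
  · intro w
    rw [hA w, hLL w, map_add, map_smul, map_smul]

theorem tr_mdl {L : E n →L[ℝ] E 2} {e : E n} (hL : Iso L) (he : ⟪e, e⟫ = 1) (κ' : ℝ) :
    tr (mdl L e κ') = κ' := by
  unfold mdl
  rw [tr_add, tr_smul, tr_ten, tr_adjoint_comp hL, ← real_inner_self_eq_norm_sq, he]
  ring

theorem inner_mdl (L : E n →L[ℝ] E 2) (e : E n) (κ' : ℝ) (v : E n) :
    ⟪mdl L e κ' v, v⟫ = ‖L v‖ ^ 2 + (κ' - 2) * ⟪e, v⟫ ^ 2 := by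
  unfold mdl
  rw [add_apply, smul_apply, inner_add_left,
    real_inner_smul_left, ten_apply, real_inner_smul_left, ContinuousLinearMap.comp_apply,
    ContinuousLinearMap.adjoint_inner_left, real_inner_self_eq_norm_sq]
  ring

theorem pos_aux {p t : ℝ} (hp : 1 < p) (h0 : 0 ≤ t) (h1 : t ≤ 1) : 0 < 1 + (p - 2) * t := by
  rcases h1.lt_or_eq with h | h
  · have : 0 ≤ (p - 1) * t := mul_nonneg (by linarith) h0
    linarith
  · rw [h]; linarith

end ALG_

open ALG_ in
/-- The linearised inequality in the limit. -/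
theorem alga (hreal : T_REAL) : T_ALGA := by
  intro n p k κ' θ β L f e g A hp hk hrange h hθ hβ hsum hκ hne
  obtain ⟨t, hee, htt, het, htr, hg, hLw, hAw⟩ := frame h hk
  set X := ⟪e, g⟫ with hX
  set Y := ⟪t, g⟫ with hY
  set m := ⟪A t, t⟫ with hm
  have hXY : X ^ 2 + Y ^ 2 = 1 := by
    have h1 : ⟪g, g⟫ = 1 := by rw [real_inner_self_eq_norm_sq, h.norm_g]; norm_num
    have h2 : ⟪g, g⟫ = X * ⟪e, g⟫ + Y * ⟪t, g⟫ := by
      nth_rw 1 [hg]
      rw [inner_add_left, real_inner_smul_left, real_inner_smul_left]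
    rw [← hX, ← hY, h1] at h2
    linarith
  have hge : ⟪g, e⟫ = X := real_inner_comm _ _
  have hgt : ⟪g, t⟫ = Y := real_inner_comm _ _
  have hAee : ⟪A e, e⟫ = (k - 1) * X := by rw [h.radial, real_inner_smul_left, hge]
  have hAet : ⟪A e, t⟫ = (k - 1) * Y := by rw [h.radial, real_inner_smul_left, hgt]
  have hAeg : ⟪A e, g⟫ = k - 1 := by
    rw [h.radial, real_inner_smul_left, real_inner_self_eq_norm_sq, h.norm_g]; ring
  have hAte : ⟪A t, e⟫ = (k - 1) * Y := by rw [h.symm, real_inner_comm, hAet]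
  have hAtg : ⟪A t, g⟫ = X * ((k - 1) * Y) + Y * m := by
    nth_rw 1 [hg]
    rw [inner_add_right, real_inner_smul_right, real_inner_smul_right, hAte]
  have hAgg : ⟪A g, g⟫ = X * (k - 1) + Y * (X * ((k - 1) * Y) + Y * m) := by
    nth_rw 1 [hAw g]
    rw [inner_add_left, real_inner_smul_left, real_inner_smul_left, hAeg, hAtg]
  have hAge : ⟪A g, e⟫ = k - 1 := by rw [h.symm, real_inner_comm, hAeg]
  have heqn := h.eqn
  rw [htr, hAee, hAgg] at heqn
  have hv : θ • g + β • e = (θ * X + β) • e + (θ * Y) • t := by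
    nth_rw 1 [hg]
    rw [smul_add, smul_smul, smul_smul, add_smul]
    abel
  have hve : ⟪e, θ • g + β • e⟫ = θ * X + β := by
    rw [inner_add_right, real_inner_smul_right, real_inner_smul_right, hee]
    ring
  have hvt : ⟪t, θ • g + β • e⟫ = θ * Y := by
    rw [inner_add_right, real_inner_smul_right, real_inner_smul_right, real_inner_comm e t, het]
    ring
  have hvv : ‖θ • g + β • e‖ ^ 2 = (θ * X + β) ^ 2 + (θ * Y) ^ 2 := by
    rw [← real_inner_self_eq_norm_sq]
    nth_rw 1 [hv]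
    rw [inner_add_left, real_inner_smul_left, real_inner_smul_left, hve, hvt]
    ring
  have hpos : 0 < (θ * X + β) ^ 2 + (θ * Y) ^ 2 := by
    rw [← hvv]
    have := norm_pos_iff.2 hne
    positivity
  have key := hreal (p - 1) (k - 1) (θ * X) (θ * Y) β (θ * m) (κ' - k) (by linarith) (by linarith)
    (by linarith) hβ (by linarith)
    (by
      intro h0
      have : θ ^ 2 = 0 := by nlinarith
      have : θ = 0 := by nlinarith
      rw [this, zero_mul])
    (by
      have e1 : (k - 1) * X * ((p - 1) * X ^ 2 + (2 * (p - 1) - 1) * Y ^ 2) +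
          m * (X ^ 2 + (p - 1) * Y ^ 2) = 0 := by
        have hX2 : X ^ 2 = 1 - Y ^ 2 := by linarith
        rw [hX2]
        linear_combination heqn
      linear_combination θ ^ 3 * e1)
    hpos
  unfold brk
  rw [tr_mdl h.iso hee, inner_mdl, hLw, hve, hvt, hvv, tr_smul, htr, hAee,
    ← real_inner_self_eq_norm_sq, hee, real_inner_smul_left, hge, map_smul,
    smul_apply, smul_apply, real_inner_smul_left,
    real_inner_smul_left, real_inner_smul_left, hAge, hAee]
  have h2 : (θ * X) ^ 2 + (θ * Y) ^ 2 = θ * θ := by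
    linear_combination θ ^ 2 * hXY
  rw [h2] at key
  nlinarith [key]

open ALG_ in
/-- The degenerate inequality in the limit. -/
theorem algb : T_ALGB := by
  intro n p k κ' θ β L f e g ω A hp hk h hθ hβ hsum hκ hzero hω
  obtain ⟨t, hee, htt, het, htr, hg, hLw, hAw⟩ := frame h hk
  have hne : ‖e‖ = 1 := by
    have : ‖e‖ ^ 2 = 1 := by rw [← real_inner_self_eq_norm_sq, hee]
    nlinarith [norm_nonneg e]
  have hθβ : θ = β := by
    have h1 : θ • g = -(β • e) := eq_neg_of_add_eq_zero_left hzero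
    have h2 : ‖θ • g‖ = ‖β • e‖ := by rw [h1, norm_neg]
    rwa [norm_smul, norm_smul, h.norm_g, hne, Real.norm_of_nonneg hθ, Real.norm_of_nonneg hβ,
      mul_one, mul_one] at h2
  have hβ2 : β = 1 / 2 := by linarith
  have hθ2 : θ = 1 / 2 := by linarith
  have hge : g = - e := by
    rw [hθ2, hβ2, ← smul_add] at hzero
    rcases smul_eq_zero.1 hzero with h1 | h1
    · norm_num at h1
    · exact eq_neg_of_add_eq_zero_left h1
  subst hge
  have hAe : A e = (-(k - 1)) • e := by rw [h.radial, smul_neg, neg_smul]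
  have hAee : ⟪A e, e⟫ = -(k - 1) := by rw [hAe, real_inner_smul_left, hee]; ring
  set m := ⟪A t, t⟫ with hm
  have hAneg : ⟪A (-e), -e⟫ = -(k - 1) := by rw [map_neg, inner_neg_neg, hAee]
  have heqn := h.eqn
  rw [htr, hAee, hAneg] at heqn
  have hmval : m = (k - 1) * (p - 1) := by linear_combination heqn
  have hAte : ⟪A t, e⟫ = 0 := by
    rw [h.symm, hAe, real_inner_smul_right, real_inner_comm e t, het, mul_zero]
  set a := ⟪e, ω⟫ with ha
  set b := ⟪t, ω⟫ with hb
  have hab : ‖L ω‖ ^ 2 = a ^ 2 + b ^ 2 := hLw ω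
  have hAωω : ⟪A ω, ω⟫ = -(k - 1) * a ^ 2 + m * b ^ 2 := by
    have h1 : ⟪A ω, e⟫ = -(k - 1) * a := by
      rw [h.symm, hAe, real_inner_smul_right, real_inner_comm e ω]
    have h2 : ⟪A ω, t⟫ = m * b := by
      rw [hAw ω, inner_add_left, real_inner_smul_left, real_inner_smul_left]
      have : ⟪A e, t⟫ = 0 := by rw [hAe, real_inner_smul_left, het, mul_zero]
      rw [this, ← hm]
      ring
    have h3 : ⟪A ω, ω⟫ = a * ⟪A ω, e⟫ + b * ⟪A ω, t⟫ := by
      have h4 : ⟪A ω, ω⟫ = ⟪ω, a • A e + b • A t⟫ := by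
        rw [← hAw ω]
        exact real_inner_comm _ _
      rw [h4, inner_add_right, real_inner_smul_right, real_inner_smul_right, ← h.symm, ← h.symm]
    rw [h3, h1, h2]
    ring
  have ha1 : a ^ 2 ≤ 1 := by
    have := abs_real_inner_le_norm e ω
    rw [hne, hω, mul_one] at this
    have h2 := sq_abs a
    nlinarith [abs_nonneg a]
  have hb1 : b ^ 2 ≤ 1 := by
    have hnt : ‖t‖ = 1 := by
      have : ‖t‖ ^ 2 = 1 := by rw [← real_inner_self_eq_norm_sq, htt]
      nlinarith [norm_nonneg t]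
    have := abs_real_inner_le_norm t ω
    rw [hnt, hω, mul_one] at this
    have h2 := sq_abs b
    nlinarith [abs_nonneg b]
  rw [hθ2, hβ2, tr_add, tr_smul, tr_smul, tr_mdl h.iso hee, htr, hAee,
    add_apply, smul_apply, smul_apply,
    inner_add_left, real_inner_smul_left, real_inner_smul_left, inner_mdl, hab, hAωω, ← ha]
  have hfin : 0 < (κ' - k) * (1 + (p - 2) * a ^ 2) + (1 + m) * (1 + (p - 2) * b ^ 2) := by
    have h1 : 0 < 1 + (p - 2) * b ^ 2 := pos_aux hp (sq_nonneg b) hb1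
    have h2 : 0 < 1 + (p - 2) * a ^ 2 := pos_aux hp (sq_nonneg a) ha1
    have h3 : 0 < 1 + m := by rw [hmval]; nlinarith
    have h4 : 0 ≤ (κ' - k) * (1 + (p - 2) * a ^ 2) := mul_nonneg (by linarith) h2.le
    have h5 := mul_pos h3 h1
    linarith
  nlinarith [hfin]

end Pool.Agent.SCP
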