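import Pool.Agent.SCP.Defs

/-!
# Working definitions
-/

set_option autoImplicit false

open Set MeasureTheory Filter Topology Asymptotics Metric
open scoped RealInnerProductSpace

namespace Pool.Agent.SCP

variable {n : ℕ}

/-- The trace. -/
noncomputable def tr (A : E n →L[ℝ] E n) : ℝ := LinearMap.trace ℝ (E n) (A : E n →ₗ[ℝ] E n)

/-- The divergence. -/
noncomputable def dv (W : E n → E n) (x : E n) : ℝ := tr (fderiv ℝ W x)

/-- The integrand of the weak equation. -/
noncomputable def flux (p : ℝ) (u φ : E n → ℝ) (x : E n) : ℝ :=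
  ‖gradient u x‖ ^ (p - 2) * (fderiv ℝ φ x (gradient u x))

/-- The field `|ξ|^(p-2) ξ`. -/
noncomputable def V (p : ℝ) (ξ : E n) : E n := ‖ξ‖ ^ (p - 2) • ξ

/-- The regularised field. -/
noncomputable def Vr (p κ : ℝ) (ξ : E n) : E n := (‖ξ‖ ^ 2 + κ ^ 2) ^ ((p - 2) / 2) • ξ

/-- Weak subsolutions. -/
def Sub (p : ℝ) (G : Set (E n)) (h : E n → ℝ) : Prop :=
  ContDiffOn ℝ 1 h G ∧ ∀ ψ : E n → ℝ, ContDiff ℝ 1 ψ → HasCompactSupport ψ → tsupport ψ ⊆ G →
    (∀ x, 0 ≤ ψ x) → ∫ x, flux p h ψ x ≤ 0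

/-- `H` is a strict subsolution at `y`, also in the degenerate sense: if the gradient vanishes the
inequality holds for all directions `ω`. -/
def Strict (p : ℝ) (H : E n → ℝ) (y : E n) : Prop :=
  ContDiffAt ℝ 2 H y ∧ ∀ (ω : E n) (Γ : ℝ), ‖ω‖ = 1 → 0 ≤ Γ → gradient H y = Γ • ω →
    0 < tr (hs H y) + (p - 2) * ⟪hs H y ω, ω⟫

/-- The equation in points in which the second derivative exists. -/
def Eqn (p : ℝ) (u : E n → ℝ) (x : E n) : Prop :=
  ‖gradient u x‖ ^ 2 * tr (hs u x) + (p - 2) * ⟪hs u x (gradient u x), gradient u x⟫ = 0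

/-- The barrier. -/
noncomputable def bar (u : E n → ℝ) (x₂ ν : E n) (α β ε : ℝ) (y : E n) : ℝ :=
  u y + ε * (⟪y - x₂, ν⟫ + α * ⟪y - x₂, ν⟫ ^ 2 - β * ‖y - x₂‖ ^ 2)

/-- The barrier property of `u` at `x₂`. -/
def Barrier (p : ℝ) (u : E n → ℝ) (x₂ : E n) : Prop :=
  ∀ ν : E n, ‖ν‖ = 1 → ∀ β : ℝ, 0 < β → ∃ α r₀ ε₀ : ℝ, 0 < α ∧ 0 < r₀ ∧ 0 < ε₀ ∧
    ∀ ε, 0 < ε → ε < ε₀ → ∀ x ∈ ball x₂ r₀, Strict p (bar u x₂ ν α β ε) x

/-- The comparison function at a conical point. -/
noncomputable def phi (F : E n → E 2) (x₀ : E n) (κ c : ℝ) (x : E n) : ℝ :=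
  ‖F x‖ ^ κ * (c - ‖x - x₀‖ ^ 2) + ‖F x‖ ^ (κ + 1 / 2)

/-- The unit vector `F / |F|`. -/
noncomputable def hat (F : E n → E 2) (x : E n) : E 2 := ‖F x‖⁻¹ • F x

/-- The operator `e ⊗ e`. -/
noncomputable def ten (e : E n) : E n →L[ℝ] E n := (innerSL ℝ e).smulRight e

/-- `L L* = 1`. -/
def Iso (L : E n →L[ℝ] E 2) : Prop := ∀ w : E 2, L (ContinuousLinearMap.adjoint L w) = w

/-- The second derivative of `|L y| ^ κ'`, up to a factor. -/
noncomputable def mdl (L : E n →L[ℝ] E 2) (e : E n) (κ' : ℝ) : E n →L[ℝ] E n :=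
  (ContinuousLinearMap.adjoint L).comp L + (κ' - 2) • ten e

/-- The difference quotient of `|g|² tr A + q ⟪A g, g⟫` in the direction `(η, B)`. -/
noncomputable def brk (q b : ℝ) (g η : E n) (A B : E n →L[ℝ] E n) : ℝ :=
  2 * ⟪g, η⟫ * tr A + b * ‖η‖ ^ 2 * tr A + ‖g + b • η‖ ^ 2 * tr B +
    q * (2 * ⟪A g, η⟫ + b * ⟪A η, η⟫ + ⟪B (g + b • η), g + b • η⟫)

/-- The data at a conical point in the limit: `f` and `e = L* f` are the direction, `g` is the
direction of the gradient and `A` the second derivative divided by the size of the gradient. -/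
structure Limit (p k : ℝ) (L : E n →L[ℝ] E 2) (f : E 2) (e g : E n) (A : E n →L[ℝ] E n) :
    Prop where
  iso : Iso L
  norm_f : ‖f‖ = 1
  e_eq : e = ContinuousLinearMap.adjoint L f
  norm_g : ‖g‖ = 1
  symm : ∀ a b : E n, ⟪A a, b⟫ = ⟪a, A b⟫
  ker : ∀ s : E n, L s = 0 → A s = 0
  radial : A e = (k - 1) • g
  eqn : tr A + (p - 2) * ⟪A g, g⟫ = 0

/-! ## Basic facts -/

theorem PHarm.mono {p : ℝ} {Ω Ω' : Set (E n)} {u : E n → ℝ} (h : PHarm p Ω u) (hs : Ω' ⊆ Ω) :
    PHarm p Ω' u :=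
  ⟨h.1.mono hs, fun φ h1 h2 h3 => h.2 φ h1 h2 (h3.trans hs)⟩

theorem Sub.mono {p : ℝ} {G G' : Set (E n)} {u : E n → ℝ} (h : Sub p G u) (hs : G' ⊆ G) :
    Sub p G' u :=
  ⟨h.1.mono hs, fun φ h1 h2 h3 => h.2 φ h1 h2 (h3.trans hs)⟩

theorem flux_eq (p : ℝ) (u φ : E n → ℝ) (x : E n) :
    flux p u φ x = fderiv ℝ φ x (V p (gradient u x)) := by
  simp [flux, V]

theorem flux_inner (p : ℝ) (u φ : E n → ℝ) (x : E n) :
    flux p u φ x = ⟪V p (gradient u x), gradient φ x⟫ := by
  rw [flux_eq, real_inner_comm, inner_gradient_left]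

theorem gradient_eq_symm (H : E n → ℝ) (x : E n) :
    gradient H x = (InnerProductSpace.toDual ℝ (E n)).symm (fderiv ℝ H x) := rfl

/-- the gradient of a `C²` function is `C¹` -/
theorem contDiffAt_gradient {H : E n → ℝ} {x : E n} (h : ContDiffAt ℝ 2 H x) :
    ContDiffAt ℝ 1 (gradient H) x := by
  have h1 : ContDiffAt ℝ 1 (fderiv ℝ H) x := h.fderiv_right (by norm_num)
  exact (InnerProductSpace.toDual ℝ (E n)).symm.contDiff.contDiffAt.comp x h1

theorem gradient_congr {H K : E n → ℝ} {x : E n} (h : H =ᶠ[𝓝 x] K) :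
    gradient H x = gradient K x := h.gradient_eq

theorem hs_congr {H K : E n → ℝ} {x : E n} (h : H =ᶠ[𝓝 x] K) : hs H x = hs K x := by
  unfold hs
  exact h.gradient.fderiv_eq

/-- the operator and the bilinear form -/
theorem inner_hs {H : E n → ℝ} {x : E n} (h : ContDiffAt ℝ 2 H x) (a b : E n) :
    ⟪hs H x a, b⟫ = fderiv ℝ (fderiv ℝ H) x a b := by
  have h1 : DifferentiableAt ℝ (gradient H) x :=
    (contDiffAt_gradient h).differentiableAt (by norm_num)
  have h2 : fderiv ℝ H = fun y => InnerProductSpace.toDual ℝ (E n) (gradient H y) := by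
    funext y
    exact (toDual_gradient (f := H) (x := y)).symm
  rw [h2]
  have h3 : HasFDerivAt (fun y => InnerProductSpace.toDual ℝ (E n) (gradient H y))
      (((InnerProductSpace.toDual ℝ (E n)).toContinuousLinearEquiv.toContinuousLinearMap).comp
        (hs H x)) x :=
    ((InnerProductSpace.toDual ℝ (E n)).toContinuousLinearEquiv.toContinuousLinearMap.hasFDerivAt
      (x := gradient H x)).comp x h1.hasFDerivAt
  rw [h3.fderiv]
  simp [InnerProductSpace.toDual_apply_apply]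

theorem hs_symm {H : E n → ℝ} {x : E n} (h : ContDiffAt ℝ 2 H x) (a b : E n) :
    ⟪hs H x a, b⟫ = ⟪a, hs H x b⟫ := by
  rw [inner_hs h, real_inner_comm, inner_hs h]
  exact (h.isSymmSndFDerivAt (by simp)) a b

theorem gradient_add' {H K : E n → ℝ} {x : E n} (h : DifferentiableAt ℝ H x)
    (k : DifferentiableAt ℝ K x) :
    gradient (fun y => H y + K y) x = gradient H x + gradient K x := by
  rw [gradient_eq_symm, gradient_eq_symm, gradient_eq_symm, ← map_add]
  congr 1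
  exact fderiv_add h k

theorem gradient_const_mul {H : E n → ℝ} {x : E n} (c : ℝ) (h : DifferentiableAt ℝ H x) :
    gradient (fun y => c * H y) x = c • gradient H x := by
  rw [gradient_eq_symm, gradient_eq_symm, ← map_smul]
  congr 1
  exact fderiv_const_mul h c

theorem gradient_add_const {H : E n → ℝ} {x : E n} (c : ℝ) :
    gradient (fun y => H y + c) x = gradient H x := by
  rw [gradient_eq_symm, gradient_eq_symm]
  congr 1
  exact fderiv_add_const c

theorem hs_add {H K : E n → ℝ} {x : E n} (h : ContDiffAt ℝ 2 H x) (k : ContDiffAt ℝ 2 K x) :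
    hs (fun y => H y + K y) x = hs H x + hs K x := by
  have h1 : DifferentiableAt ℝ (gradient H) x :=
    (contDiffAt_gradient h).differentiableAt (by norm_num)
  have k1 : DifferentiableAt ℝ (gradient K) x :=
    (contDiffAt_gradient k).differentiableAt (by norm_num)
  have h2 : gradient (fun y => H y + K y) =ᶠ[𝓝 x] fun y => gradient H y + gradient K y := by
    filter_upwards [h.eventually (by simp), k.eventually (by simp)] with y hy ky
    exact gradient_add' (hy.differentiableAt (by norm_num)) (ky.differentiableAt (by norm_num))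
  unfold hs
  rw [h2.fderiv_eq]
  exact fderiv_add h1 k1

theorem hs_const_mul {H : E n → ℝ} {x : E n} (c : ℝ) (h : ContDiffAt ℝ 2 H x) :
    hs (fun y => c * H y) x = c • hs H x := by
  have h1 : DifferentiableAt ℝ (gradient H) x :=
    (contDiffAt_gradient h).differentiableAt (by norm_num)
  have h2 : gradient (fun y => c * H y) =ᶠ[𝓝 x] fun y => c • gradient H y := by
    filter_upwards [h.eventually (by simp)] with y hy
    exact gradient_const_mul c (hy.differentiableAt (by norm_num))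
  unfold hs
  rw [h2.fderiv_eq]
  exact fderiv_const_smul h1 c

theorem hs_add_const {H : E n → ℝ} {x : E n} (c : ℝ) : hs (fun y => H y + c) x = hs H x := by
  unfold hs
  congr 1
  funext y
  exact gradient_add_const c

theorem Sub.add_const {p : ℝ} {G : Set (E n)} {u : E n → ℝ} (h : Sub p G u) (c : ℝ) :
    Sub p G (fun x => u x + c) := by
  refine ⟨h.1.add contDiffOn_const, fun ψ h1 h2 h3 h4 => ?_⟩
  have : flux p (fun x => u x + c) ψ = flux p u ψ := by
    funext x
    simp only [flux, gradient_add_const]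
  rw [this]
  exact h.2 ψ h1 h2 h3 h4

theorem PHarm.add_const {p : ℝ} {G : Set (E n)} {u : E n → ℝ} (h : PHarm p G u) (c : ℝ) :
    PHarm p G (fun x => u x + c) := by
  refine ⟨h.1.add contDiffOn_const, fun ψ h1 h2 h3 => ?_⟩
  simp only [gradient_add_const]
  exact h.2 ψ h1 h2 h3

theorem ten_apply (e h : E n) : ten e h = ⟪e, h⟫ • e := by
  simp [ten]

theorem tr_add (A B : E n →L[ℝ] E n) : tr (A + B) = tr A + tr B := by
  simp [tr]

theorem tr_smul (c : ℝ) (A : E n →L[ℝ] E n) : tr (c • A) = c * tr A := by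
  simp [tr]

theorem tr_eq_sum {ι : Type*} [Fintype ι] (A : E n →L[ℝ] E n) (b : OrthonormalBasis ι ℝ (E n)) :
    tr A = ∑ i, ⟪b i, A (b i)⟫ := by
  unfold tr
  rw [LinearMap.trace_eq_sum_inner _ b]
  rfl

theorem tr_id : tr (ContinuousLinearMap.id ℝ (E n)) = n := by
  unfold tr
  rw [ContinuousLinearMap.coe_id, LinearMap.trace_id]
  simp

theorem tr_ten (e : E n) : tr (ten e) = ‖e‖ ^ 2 := by
  rw [tr_eq_sum _ (EuclideanSpace.basisFun (Fin n) ℝ)]
  have : ∀ i, ⟪(EuclideanSpace.basisFun (Fin n) ℝ) i, ten e ((EuclideanSpace.basisFun (Fin n) ℝ) i)⟫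
      = ⟪(EuclideanSpace.basisFun (Fin n) ℝ) i, e⟫ ^ 2 := by
    intro i
    rw [ten_apply, inner_smul_right, real_inner_comm, pow_two]
  simp only [this]
  rw [← (EuclideanSpace.basisFun (Fin n) ℝ).sum_sq_inner_right e]

theorem continuous_tr : Continuous (tr : (E n →L[ℝ] E n) → ℝ) := by
  have h : (tr : (E n →L[ℝ] E n) → ℝ) = fun A => ∑ i, ⟪(EuclideanSpace.basisFun (Fin n) ℝ) i,
      A ((EuclideanSpace.basisFun (Fin n) ℝ) i)⟫ := by
    funext A
    exact tr_eq_sum A _
  rw [h]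
  fun_prop

/-- cyclicity, for `L : ℝⁿ → ℝ²` -/
theorem tr_comp_adjoint (A : E n →L[ℝ] E n) (L : E n →L[ℝ] E 2) :
    tr (A.comp ((ContinuousLinearMap.adjoint L).comp L)) =
      tr (L.comp (A.comp (ContinuousLinearMap.adjoint L))) := by
  unfold tr
  have := LinearMap.trace_comp_comm' ((A.comp (ContinuousLinearMap.adjoint L) :
    E 2 →L[ℝ] E n) : E 2 →ₗ[ℝ] E n) (L : E n →ₗ[ℝ] E 2)
  exact this.symm

theorem tr_adjoint_comp {L : E n →L[ℝ] E 2} (hL : Iso L) :
    tr ((ContinuousLinearMap.adjoint L).comp L) = 2 := by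
  have h := tr_comp_adjoint (ContinuousLinearMap.id ℝ (E n)) L
  rw [ContinuousLinearMap.id_comp, ContinuousLinearMap.id_comp] at h
  rw [h]
  have : L.comp (ContinuousLinearMap.adjoint L) = ContinuousLinearMap.id ℝ (E 2) := by
    ext1 w
    exact hL w
  rw [this, tr_id]
  norm_num

theorem norm_adjoint {L : E n →L[ℝ] E 2} (hL : Iso L) (w : E 2) :
    ‖ContinuousLinearMap.adjoint L w‖ = ‖w‖ := by
  have h : ⟪ContinuousLinearMap.adjoint L w, ContinuousLinearMap.adjoint L w⟫ = ⟪w, w⟫ := by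
    rw [ContinuousLinearMap.adjoint_inner_left, hL]
  rw [real_inner_self_eq_norm_sq, real_inner_self_eq_norm_sq] at h
  exact (pow_left_inj₀ (norm_nonneg _) (norm_nonneg _) two_ne_zero).1 h

theorem inner_adjoint {L : E n →L[ℝ] E 2} (hL : Iso L) (w z : E 2) :
    ⟪ContinuousLinearMap.adjoint L w, ContinuousLinearMap.adjoint L z⟫ = ⟪w, z⟫ := by
  rw [ContinuousLinearMap.adjoint_inner_left, hL]

end Pool.Agent.SCP
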