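import Mathlib

/-!
# `p`-harmonic functions and critical points of conical type

Statement level definitions for the theorem on the strong comparison principle.
-/

set_option autoImplicit false

open Set MeasureTheory Filter Topology Asymptotics
open scoped RealInnerProductSpace

namespace Pool.Agent.SCP

/-- The Euclidean space `ℝⁿ`. -/
abbrev E (n : ℕ) : Type := EuclideanSpace ℝ (Fin n)

variable {n : ℕ}

/-- `u` is `p`-harmonic in `Ω`: a `C¹` weak solution of the `p`-Laplace equation. -/
def PHarm (p : ℝ) (Ω : Set (E n)) (u : E n → ℝ) : Prop :=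
  ContDiffOn ℝ 1 u Ω ∧ ∀ φ : E n → ℝ, ContDiff ℝ (⊤ : ℕ∞) φ → HasCompactSupport φ →
    tsupport φ ⊆ Ω → ∫ x, ‖gradient u x‖ ^ (p - 2) * (fderiv ℝ φ x (gradient u x)) = 0

/-- The second derivative of `H` at `x` as a linear operator. -/
noncomputable def hs (H : E n → ℝ) (x : E n) : E n →L[ℝ] E n := fderiv ℝ (gradient H) x

/-- The point `x₀` is of conical type of codimension two and degree `k` for the function `u`.
Here `F` has values in the plane and vanishes at `x₀`, its derivative `L` at `x₀` satisfies
`L L* = 1` (so that `F = 0` is a submanifold of codimension two near `x₀`, and `L* F x` is, up to a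
smaller error, the vector from this submanifold to `x`), and `u` has no critical point near `x₀`
outside of `F = 0`. As `x → x₀` with `F x ≠ 0` the gradient of `u` is
asymptotically homogeneous of degree `k - 1` in the directions normal to the submanifold
(`radial`), it is asymptotically constant in the tangential directions (`tang`), and
`u - u x₀` is of order at least `κ` in the distance to the submanifold for all `κ < k`
(`order`). -/
structure Conical (p k : ℝ) (u : E n → ℝ) (x₀ : E n) (F : E n → E 2) : Prop where
  smooth : ContDiffAt ℝ 2 F x₀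
  zero : F x₀ = 0
  iso : ∀ w : E 2, fderiv ℝ F x₀ (ContinuousLinearMap.adjoint (fderiv ℝ F x₀) w) = w
  one_lt : 1 < k
  range : 0 < (p - 1) + (k - 1) * (2 * p - 3)
  regular : ∀ᶠ x in 𝓝 x₀, F x ≠ 0 → gradient u x ≠ 0
  radial : (fun x => hs u x (ContinuousLinearMap.adjoint (fderiv ℝ F x₀) (F x)) -
    (k - 1) • gradient u x) =o[𝓝[{x | F x ≠ 0}] x₀] gradient u
  tang : ∀ s : E n, fderiv ℝ F x₀ s = 0 →
    (fun x => ‖F x‖ • hs u x s) =o[𝓝[{x | F x ≠ 0}] x₀] gradient u
  order : ∀ κ : ℝ, κ < k → (fun x => u x - u x₀) =o[𝓝[{x | F x ≠ 0}] x₀] fun x => ‖F x‖ ^ κ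

end Pool.Agent.SCP
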