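import Pool.Agent.SCP.Core

/-!
# Critical points of conical type, final form
-/

set_option autoImplicit false

open Set MeasureTheory Filter Topology Asymptotics
open scoped RealInnerProductSpace

namespace Pool.Agent.SCP

variable {n : ℕ}

/-- The point `x₀` is of conical type of codimension two and degree `k` for the function `u`.
Here `F` has values in the plane and vanishes at `x₀`, its derivative `L` at `x₀` satisfies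
`L L* = 1` (so that `F = 0` is a submanifold of codimension two near `x₀`, and `L* F x` is, up to a
smaller error, the vector from this submanifold to `x`), and `u` has no critical point near `x₀`
outside of `F = 0`. As `x → x₀` with `F x ≠ 0` the gradient of `u` is
asymptotically homogeneous of degree `k - 1` in the directions normal to the submanifold
(`radial`) and asymptotically constant in the tangential directions (`tang`). -/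
structure ConicalPoint (p k : ℝ) (u : E n → ℝ) (x₀ : E n) (F : E n → E 2) : Prop where
  smooth : ContDiffAt ℝ 2 F x₀
  zero : F x₀ = 0
  iso : ∀ w : E 2, fderiv ℝ F x₀ (ContinuousLinearMap.adjoint (fderiv ℝ F x₀) w) = w
  one_lt : 1 < k
  range : 0 < (p - 1) + (k - 1) * (2 * p - 3)
  regular : ∀ᶠ x in 𝓝 x₀, F x ≠ 0 → gradient u x ≠ 0
  radial : (fun x => hs u x (ContinuousLinearMap.adjoint (fderiv ℝ F x₀) (F x)) -
    (k - 1) • gradient u x) =o[𝓝[{x | F x ≠ 0}] x₀] gradient u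
  tang : ∀ s : E n, fderiv ℝ F x₀ s = 0 →
    (fun x => ‖F x‖ • hs u x s) =o[𝓝[{x | F x ≠ 0}] x₀] gradient u

/-- The projection to the kernel of `L`. -/
noncomputable def pk (L : E n →L[ℝ] E 2) (y : E n) : E n := y - ContinuousLinearMap.adjoint L (L y)

/-- HBD: a bound for the second derivative -/
def T_HBD : Prop := ∀ (n : ℕ) (p k : ℝ) (u : E n → ℝ) (x₀ : E n) (F : E n → E 2), 1 < p →
  (∀ᶠ x in 𝓝[{x | F x ≠ 0}] x₀, ContDiffAt ℝ 2 u x ∧ Eqn p u x) → ConicalPoint p k u x₀ F →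
  ∃ C : ℝ, ∀ᶠ x in 𝓝[{x | F x ≠ 0}] x₀, ‖F x‖ * ‖hs u x‖ ≤ C * ‖gradient u x‖

/-- STR: straightening of the submanifold -/
def T_STR : Prop := ∀ (n : ℕ) (x₀ : E n) (F : E n → E 2), ContDiffAt ℝ 2 F x₀ → F x₀ = 0 →
  Iso (fderiv ℝ F x₀) → ∃ Ψ : E n → E n, ContDiffAt ℝ 2 Ψ 0 ∧ Ψ 0 = x₀ ∧
    fderiv ℝ Ψ 0 = ContinuousLinearMap.id ℝ (E n) ∧ (∀ᶠ y in 𝓝 0, F (Ψ y) = fderiv ℝ F x₀ y) ∧
    ∀ N ∈ 𝓝 (0 : E n), Ψ '' N ∈ 𝓝 x₀

/-- WEST: the radial condition in the straightened coordinates -/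
def T_WEST : Prop := ∀ (n : ℕ) (p k C : ℝ) (u : E n → ℝ) (x₀ : E n) (F : E n → E 2)
  (Ψ : E n → E n), ConicalPoint p k u x₀ F →
  (∀ᶠ x in 𝓝[{x | F x ≠ 0}] x₀, ContDiffAt ℝ 2 u x) →
  (∀ᶠ x in 𝓝[{x | F x ≠ 0}] x₀, ‖F x‖ * ‖hs u x‖ ≤ C * ‖gradient u x‖) →
  ContDiffAt ℝ 2 Ψ 0 → Ψ 0 = x₀ → fderiv ℝ Ψ 0 = ContinuousLinearMap.id ℝ (E n) →
  (∀ᶠ y in 𝓝 0, F (Ψ y) = fderiv ℝ F x₀ y) → ∀ ε : ℝ, 0 < ε →
  ∀ᶠ y in 𝓝[{y | fderiv ℝ F x₀ y ≠ 0}] 0,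
    DifferentiableAt ℝ (fun z => gradient u (Ψ z)) y ∧
    ‖fderiv ℝ (fun z => gradient u (Ψ z)) y
      (ContinuousLinearMap.adjoint (fderiv ℝ F x₀) (fderiv ℝ F x₀ y)) -
      (k - 1) • gradient u (Ψ y)‖ ≤ ε * ‖gradient u (Ψ y)‖

/-- RAY: decay towards the kernel of `L` -/
def T_RAY : Prop := ∀ (n : ℕ) (k κ : ℝ) (L : E n →L[ℝ] E 2) (w : E n → E n), Iso L → κ < k →
  (∀ ε : ℝ, 0 < ε → ∀ᶠ y in 𝓝[{y | L y ≠ 0}] 0, DifferentiableAt ℝ w y ∧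
    ‖fderiv ℝ w y (ContinuousLinearMap.adjoint L (L y)) - (k - 1) • w y‖ ≤ ε * ‖w y‖) →
  ∃ C : ℝ, ∀ᶠ y in 𝓝[{y | L y ≠ 0}] 0, ‖w y‖ ≤ C * ‖L y‖ ^ (κ - 1)

/-- ORDER: the order of `u` at the submanifold -/
def T_ORDER : Prop := ∀ (n : ℕ) (p k : ℝ) (Ω : Set (E n)) (u : E n → ℝ) (x₀ : E n)
  (F : E n → E 2), 1 < p → IsOpen Ω → x₀ ∈ Ω → ContDiffOn ℝ 1 u Ω →
  (∀ᶠ x in 𝓝[{x | F x ≠ 0}] x₀, ContDiffAt ℝ 2 u x ∧ Eqn p u x) → ConicalPoint p k u x₀ F →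
  Conical p k u x₀ F

/-- FINAL -/
def T_FINAL : Prop := ∀ (n : ℕ) (p : ℝ) (Ω B : Set (E n)) (u v : E n → ℝ), 2 ≤ n → 1 < p →
  IsOpen Ω → IsConnected Ω → PHarm p Ω u → PHarm p Ω v →
  ((∀ x ∈ Ω, u x ≤ v x) ∨ ∀ x ∈ Ω, v x ≤ u x) → (∃ x ∈ Ω, u x = v x) →
  (∀ x ∈ Ω, gradient u x ≠ 0 → ContDiffAt ℝ 2 u x) → Measure.hausdorffMeasure 1 B = 0 →
  (∀ x ∈ Ω, gradient u x = 0 → x ∉ B → ∃ k F, ConicalPoint p k u x F) → ∀ x ∈ Ω, u x = v x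

end Pool.Agent.SCP
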