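import Pool.Agent.SCP.Targets

/-!
# SCP-TEST: the weak equation holds for `C¹` test functions
-/

set_option autoImplicit false

open Set MeasureTheory Filter Topology Asymptotics Metric
open scoped RealInnerProductSpace

namespace Pool.Agent.SCP

namespace TEST_

open scoped Convolution

variable {n : ℕ}

lemma norm_V {p : ℝ} (hp : 1 < p) (ξ : E n) : ‖V p ξ‖ = ‖ξ‖ ^ (p - 1) := by
  by_cases h : ξ = 0
  · subst h
    simp [V, Real.zero_rpow (by linarith : p - 1 ≠ 0)]
  · have h1 : 0 < ‖ξ‖ := norm_pos_iff.2 h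
    rw [V, norm_smul, Real.norm_of_nonneg (by positivity)]
    nth_rewrite 2 [← Real.rpow_one ‖ξ‖]
    rw [← Real.rpow_add h1]
    congr 1
    ring

lemma measurable_V (p : ℝ) : Measurable (V p : E n → E n) := by
  unfold V
  exact (measurable_norm.pow_const (p - 2)).smul measurable_id

lemma continuousOn_gradient {Ω : Set (E n)} {u : E n → ℝ} (hΩ : IsOpen Ω)
    (hu : ContDiffOn ℝ 1 u Ω) : ContinuousOn (gradient u) Ω := by
  have h1 : ContinuousOn (fderiv ℝ u) Ω := hu.continuousOn_fderiv_of_isOpen hΩ (le_refl _)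
  exact (InnerProductSpace.toDual ℝ (E n)).symm.continuous.comp_continuousOn h1

/-- the bump of radius `δ / (j + 1)` -/
noncomputable def bp (δ : ℝ) (hδ : 0 < δ) (j : ℕ) : ContDiffBump (0 : E n) where
  rIn := δ / (j + 1) / 2
  rOut := δ / (j + 1)
  rIn_pos := by positivity
  rIn_lt_rOut := half_lt_self (by positivity)

lemma bp_tendsto (δ : ℝ) (hδ : 0 < δ) :
    Tendsto (fun j : ℕ => (bp (n := n) δ hδ j).rOut) atTop (𝓝 0) := by
  have h : (fun j : ℕ => (bp (n := n) δ hδ j).rOut) = fun j : ℕ => δ * (1 / ((j : ℝ) + 1)) := by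
    funext j
    show δ / ((j : ℝ) + 1) = _
    ring
  rw [h]
  simpa using tendsto_one_div_add_atTop_nhds_zero_nat.const_mul δ

/-- the mollified function -/
noncomputable def mol (δ : ℝ) (hδ : 0 < δ) (φ : E n → ℝ) (j : ℕ) : E n → ℝ :=
  (bp δ hδ j).normed volume ⋆[ContinuousLinearMap.lsmul ℝ ℝ, volume] φ

lemma mol_smooth (δ : ℝ) (hδ : 0 < δ) {φ : E n → ℝ} (hφ : Continuous φ) (j : ℕ) :
    ContDiff ℝ (⊤ : ℕ∞) (mol δ hδ φ j) :=
  (bp δ hδ j).hasCompactSupport_normed.contDiff_convolution_left _ (bp δ hδ j).contDiff_normed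
    hφ.locallyIntegrable

lemma mol_supp (δ : ℝ) (hδ : 0 < δ) (φ : E n → ℝ) (j : ℕ) :
    tsupport (mol δ hδ φ j) ⊆ cthickening δ (tsupport φ) := by
  refine closure_minimal ?_ isClosed_cthickening
  intro x hx
  obtain ⟨y, hy, z, hz, rfl⟩ := support_convolution_subset_swap _ hx
  rw [ContDiffBump.support_normed_eq, mem_ball_zero_iff] at hz
  refine mem_cthickening_of_dist_le _ y δ _ (subset_tsupport _ hy) ?_
  have h1 : (bp (n := n) δ hδ j).rOut ≤ δ := by
    show δ / ((j : ℝ) + 1) ≤ δ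
    refine div_le_self hδ.le ?_
    have : (0 : ℝ) ≤ j := Nat.cast_nonneg j
    linarith
  show dist (y + z) y ≤ δ
  rw [dist_eq_norm, add_sub_cancel_left]
  linarith

lemma mol_fderiv (δ : ℝ) (hδ : 0 < δ) {φ : E n → ℝ} (hφ : ContDiff ℝ 1 φ)
    (hφc : HasCompactSupport φ) (j : ℕ) (x : E n) :
    fderiv ℝ (mol δ hδ φ j) x = ((bp δ hδ j).normed volume ⋆[ContinuousLinearMap.lsmul ℝ ℝ, volume]
      (fderiv ℝ φ)) x := by
  have hl : LocallyIntegrable ((bp (n := n) δ hδ j).normed volume) (volume : Measure (E n)) :=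
    ((bp (n := n) δ hδ j).continuous_normed (μ := volume)).locallyIntegrable
  have h := HasCompactSupport.hasFDerivAt_convolution_right (ContinuousLinearMap.lsmul ℝ ℝ) hφc
    hl hφ x
  rw [mol, h.fderiv, convolution, convolution]
  rfl

lemma mol_bound (δ : ℝ) (hδ : 0 < δ) {φ : E n → ℝ} (hφ : ContDiff ℝ 1 φ)
    (hφc : HasCompactSupport φ) {K : ℝ} (hK : ∀ x, ‖fderiv ℝ φ x‖ ≤ K) (j : ℕ) (x : E n) :
    ‖fderiv ℝ (mol δ hδ φ j) x‖ ≤ 3 * K := by
  rw [mol_fderiv δ hδ hφ hφc]
  have hc : Continuous (fderiv ℝ φ) := hφ.continuous_fderiv (by norm_num)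
  have h := ContDiffBump.dist_normed_convolution_le (φ := bp (n := n) δ hδ j) (μ := volume)
    (g := fderiv ℝ φ) (x₀ := x) (ε := 2 * K) hc.aestronglyMeasurable (by
      intro y _
      rw [dist_eq_norm]
      refine (norm_sub_le _ _).trans ?_
      have h1 := hK x
      have h2 := hK y
      linarith)
  rw [dist_eq_norm] at h
  have h1 := hK x
  have h2 := norm_le_norm_add_norm_sub' (((bp δ hδ j).normed volume
    ⋆[ContinuousLinearMap.lsmul ℝ ℝ, volume] (fderiv ℝ φ)) x) (fderiv ℝ φ x)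
  linarith

end TEST_

open TEST_ in
theorem test : T_TEST := by
  intro n p Ω u φ hp hΩ hu hφ hφc hφΩ
  obtain ⟨δ, hδ, hδΩ⟩ := IsCompact.exists_cthickening_subset_open hφc hΩ hφΩ
  set C : Set (E n) := cthickening δ (tsupport φ) with hC
  have hCc : IsCompact C := IsCompact.cthickening hφc
  have hg := continuousOn_gradient hΩ hu.1
  have hgC : ContinuousOn (gradient u) C := hg.mono hδΩ
  obtain ⟨M, hM⟩ := hCc.exists_bound_of_continuousOn hgC
  obtain ⟨K, hK⟩ : ∃ K, ∀ x, ‖fderiv ℝ φ x‖ ≤ K :=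
    (hφ.continuous_fderiv (by norm_num)).bounded_above_of_compact_support (hφc.fderiv (𝕜 := ℝ))
  have hK0 : 0 ≤ K := (norm_nonneg _).trans (hK 0)
  have hVb : ∀ x ∈ C, ‖V p (gradient u x)‖ ≤ (max M 0) ^ (p - 1) := by
    intro x hx
    rw [norm_V hp]
    exact Real.rpow_le_rpow (norm_nonneg _) ((hM x hx).trans (le_max_left _ _)) (by linarith)
  have hVm : AEStronglyMeasurable (fun x => V p (gradient u x)) (volume.restrict C) := by
    have h1 : AEMeasurable (gradient u) (volume.restrict C) :=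
      hgC.aemeasurable hCc.measurableSet
    exact ((measurable_V p).comp_aemeasurable h1).aestronglyMeasurable
  -- reduction to `C`
  have hred : ∀ ψ : E n → ℝ, tsupport ψ ⊆ C → ∫ x, flux p u ψ x = ∫ x in C, flux p u ψ x := by
    intro ψ hψ
    refine (setIntegral_eq_integral_of_forall_compl_eq_zero fun x hx => ?_).symm
    rw [flux_eq]
    have h1 : fderiv ℝ ψ x = 0 := by
      by_contra h
      exact hx (hψ (support_fderiv_subset ℝ h))
    rw [h1]
    rfl
  have hzero : ∀ j : ℕ, ∫ x in C, flux p u (mol δ hδ φ j) x = 0 := by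
    intro j
    have hs := mol_supp δ hδ φ j
    rw [← hred _ hs]
    exact hu.2 _ (mol_smooth δ hδ hφ.continuous j)
      (hCc.of_isClosed_subset (isClosed_tsupport _) hs) (hs.trans hδΩ)
  have hlim : Tendsto (fun j : ℕ => ∫ x in C, flux p u (mol δ hδ φ j) x) atTop
      (𝓝 (∫ x in C, flux p u φ x)) := by
    refine tendsto_integral_of_dominated_convergence
      (fun _ => 3 * K * (max M 0) ^ (p - 1)) ?_ ?_ ?_ ?_
    · intro j
      have h1 : Continuous (fderiv ℝ (mol δ hδ φ j)) :=
        (mol_smooth δ hδ hφ.continuous j).continuous_fderiv (by simp)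
      have h2 : flux p u (mol δ hδ φ j) =
          fun x => fderiv ℝ (mol δ hδ φ j) x (V p (gradient u x)) := by
        funext x
        exact flux_eq _ _ _ _
      rw [h2]
      exact ContinuousLinearMap.aestronglyMeasurable_comp₂
        (ContinuousLinearMap.id ℝ (E n →L[ℝ] ℝ)) h1.aestronglyMeasurable hVm
    · exact integrableOn_const (hCc.measure_lt_top.ne)
    · intro j
      refine (ae_restrict_iff' hCc.measurableSet).2 (Eventually.of_forall fun x hx => ?_)
      rw [flux_eq]
      refine (ContinuousLinearMap.le_opNorm _ _).trans ?_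
      exact mul_le_mul (mol_bound δ hδ hφ hφc hK j x) (hVb x hx) (norm_nonneg _) (by positivity)
    · refine Eventually.of_forall fun x => ?_
      have h1 : Tendsto (fun j : ℕ => fderiv ℝ (mol δ hδ φ j) x) atTop (𝓝 (fderiv ℝ φ x)) := by
        simp only [mol_fderiv δ hδ hφ hφc]
        exact ContDiffBump.convolution_tendsto_right_of_continuous (bp_tendsto δ hδ)
          (hφ.continuous_fderiv (by norm_num)) x
      simp only [flux_eq]
      exact ((ContinuousLinearMap.apply ℝ ℝ (V p (gradient u x))).continuous.tendsto _).comp h1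
  simp only [hzero] at hlim
  rw [hred φ (hC ▸ self_subset_cthickening _)]
  exact (tendsto_nhds_unique hlim tendsto_const_nhds)

end Pool.Agent.SCP
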